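import Mathlib

/-! Abstract Hilbert space lemmas: reflection of blocks; interleaving with a completion. -/

set_option autoImplicit false

namespace Pool.Agent.H431R2.ONS
open Filter Topology Set
open scoped InnerProductSpace

variable {H : Type*} [NormedAddCommGroup H] [InnerProductSpace ℝ H]

lemma orthonormal_of_zero {ι : Type*} [DecidableEq ι] {v : ι → H}
    (h : ∀ i j, ⟪v i, v j⟫_ℝ = if i = j then 1 else 0) : Orthonormal ℝ v :=
  orthonormal_iff_ite.mpr h

/-- reflection lemma -/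
lemma reflect (m : ℕ → ℕ) (z : (k : ℕ) → Fin (m k) → H) (v : ℕ → H)
    (hz1 : ∀ k i j, ⟪z k i, z k j⟫_ℝ = if i = j then 1 else 0)
    (hz2 : ∀ k l, k ≠ l → ∀ i j, ⟪z k i, z l j⟫_ℝ = 0)
    (hv : ∀ k l, ⟪v k, v l⟫_ℝ = if k = l then 1 else 0)
    (hzv : ∀ k i l, ⟪z k i, v l⟫_ℝ = 0)
    (a : (k : ℕ) → Fin (m k) → ℝ) (ha : ∀ k, ∑ j, a k j ^ 2 = 1) :
    Orthonormal ℝ (fun p : (k : ℕ) × Fin (m k) =>
      z p.1 p.2 - a p.1 p.2 • (∑ j, a p.1 j • z p.1 j - v p.1)) := by
  classical
  apply orthonormal_of_zero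
  have hvz : ∀ k i l, ⟪v l, z k i⟫_ℝ = 0 := fun k i l => by
    rw [real_inner_comm]; exact hzv k i l
  have hzu : ∀ k i, ⟪z k i, ∑ j, a k j • z k j⟫_ℝ = a k i := by
    intro k i
    simp [inner_sum, inner_smul_right, hz1]
  have huz : ∀ k i, ⟪∑ j, a k j • z k j, z k i⟫_ℝ = a k i := by
    intro k i; rw [real_inner_comm]; exact hzu k i
  have hzu' : ∀ k l, k ≠ l → ∀ i, ⟪z k i, ∑ j, a l j • z l j⟫_ℝ = 0 := by
    intro k l hkl i
    simp [inner_sum, inner_smul_right, hz2 k l hkl]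
  have huz' : ∀ k l, k ≠ l → ∀ i, ⟪∑ j, a k j • z k j, z l i⟫_ℝ = 0 := by
    intro k l hkl i
    rw [real_inner_comm]; exact hzu' l k hkl.symm i
  have huv : ∀ k l, ⟪∑ j, a k j • z k j, v l⟫_ℝ = 0 := by
    intro k l
    simp [sum_inner, inner_smul_left, hzv]
  have hvu : ∀ k l, ⟪v l, ∑ j, a k j • z k j⟫_ℝ = 0 := by
    intro k l
    rw [real_inner_comm]; exact huv k l
  have huu : ∀ k, ⟪∑ j, a k j • z k j, ∑ j, a k j • z k j⟫_ℝ = 1 := by
    intro k
    rw [sum_inner]
    simp only [inner_smul_left, hzu]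
    rw [← ha k]
    refine Finset.sum_congr rfl (fun j _ => ?_)
    simp; ring
  have huu' : ∀ k l, k ≠ l → ⟪∑ j, a k j • z k j, ∑ j, a l j • z l j⟫_ℝ = 0 := by
    intro k l hkl
    rw [sum_inner]
    simp only [inner_smul_left, hzu' k l hkl]
    simp
  rintro ⟨k, i⟩ ⟨l, j⟩
  simp only [inner_sub_left, inner_sub_right, inner_smul_left, inner_smul_right]
  by_cases hkl : k = l
  · subst hkl
    rw [hz1, hzu, hzv, huz, huu, huv, hvz, hvu, hv]
    by_cases hij : i = j
    · subst hij; simp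
    · have : ¬ ((⟨k, i⟩ : (k : ℕ) × Fin (m k)) = ⟨k, j⟩) := by
        intro h; exact hij (by simpa using h)
      simp [hij]; ring
  · rw [hz2 k l hkl, hzu' k l hkl, hzv, huz' k l hkl, huu' k l hkl, huv, hvz, hvu, hv]
    have : ¬ ((⟨k, i⟩ : (k : ℕ) × Fin (m k)) = ⟨l, j⟩) := by
      intro h; exact hkl (by injection h)
    simp [hkl]

variable [CompleteSpace H] [SecondCountableTopology H]

omit [CompleteSpace H] in
lemma orthonormal_countable {w : Set H} (hw : Orthonormal ℝ ((↑) : w → H)) : Countable w := by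
  have hd : DiscreteTopology w := by
    refine DiscreteTopology.of_forall_le_dist (r := 1) one_pos ?_
    intro x y hxy
    have h1 : ‖(x:H)‖ = 1 := hw.1 x
    have h2 : ‖(y:H)‖ = 1 := hw.1 y
    have h3 : ⟪(x:H), (y:H)⟫_ℝ = 0 := hw.2 hxy
    have h4 : ‖(x:H) - y‖^2 = 2 := by
      rw [@norm_sub_sq_real, h1, h2, h3]; norm_num
    rw [Subtype.dist_eq, dist_eq_norm]
    nlinarith [norm_nonneg ((x:H) - y)]
  exact TopologicalSpace.separableSpace_iff_countable.mp inferInstance

/-- starting positions -/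
def pos (m : ℕ → ℕ) : ℕ → ℕ
  | 0 => 0
  | k+1 => pos m k + (m k + 1)

lemma pos_strictMono (m : ℕ → ℕ) : StrictMono (pos m) :=
  strictMono_nat_of_lt_succ (fun k => by rw [pos]; omega)

lemma le_pos (m : ℕ → ℕ) (k : ℕ) : k ≤ pos m k := (pos_strictMono m).le_apply

/-- block of an index -/
noncomputable def blk (m : ℕ → ℕ) (n : ℕ) : ℕ := Nat.findGreatest (fun k => pos m k ≤ n) n

lemma blk_spec (m : ℕ → ℕ) (n : ℕ) : pos m (blk m n) ≤ n ∧ n < pos m (blk m n + 1) := by
  have h0 : pos m 0 ≤ n := Nat.zero_le _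
  have h1 : pos m (blk m n) ≤ n := Nat.findGreatest_spec (P := fun k => pos m k ≤ n) (Nat.zero_le n) h0
  refine ⟨h1, ?_⟩
  by_contra hc
  push Not at hc
  have h2 : blk m n + 1 ≤ n := (le_pos m _).trans hc
  have := Nat.le_findGreatest (P := fun k => pos m k ≤ n) h2 hc
  unfold blk at this
  omega

lemma blk_eq (m : ℕ → ℕ) {n k : ℕ} (h1 : pos m k ≤ n) (h2 : n < pos m (k+1)) : blk m n = k := by
  obtain ⟨h3, h4⟩ := blk_spec m n
  have a1 : blk m n < k + 1 := (pos_strictMono m).lt_iff_lt.mp (h3.trans_lt h2)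
  have a2 : k < blk m n + 1 := (pos_strictMono m).lt_iff_lt.mp (h1.trans_lt h4)
  omega

/-- interleaving lemma -/
theorem interleave (m : ℕ → ℕ) (hm : ∀ k, 0 < m k) (e : (k : ℕ) × Fin (m k) → H)
    (he : Orthonormal ℝ e) :
    ∃ y : ℕ → H, Orthonormal ℝ y ∧ (∀ x, (∀ n, ⟪x, y n⟫_ℝ = 0) → x = 0) ∧
      ∀ k (j : Fin (m (2*k))), y (pos (fun k => m (2*k)) k + j) = e ⟨2*k, j⟩ := by
  classical
  obtain ⟨w, b, hsw, hb⟩ := (he.toSubtypeRange).exists_hilbertBasis_extension
  have hwo : Orthonormal ℝ ((↑) : w → H) := hb ▸ b.orthonormal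
  have hwc : Countable w := orthonormal_countable hwo
  have einj : Function.Injective e := he.linearIndependent.injective
  set M : ℕ → ℕ := fun k => m (2*k) with hM
  let R : Set H := {x | ∃ k j, x = e ⟨2*k, j⟩}
  let X : Set H := w \ R
  have hXc : Countable X := (Set.countable_coe_iff.mpr ((Set.countable_coe_iff.mp hwc).mono sdiff_subset))
  have hXi : Infinite X := by
    let g : ℕ → X := fun k => ⟨e ⟨2*k+1, ⟨0, hm _⟩⟩, hsw ⟨_, rfl⟩, by
      rintro ⟨k', j', h'⟩
      have := einj h'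
      have h2 : 2*k+1 = 2*k' := by injection this
      omega⟩
    refine Infinite.of_injective g ?_
    intro k k' hk
    have h1 : e ⟨2*k+1, ⟨0, hm _⟩⟩ = e ⟨2*k'+1, ⟨0, hm _⟩⟩ := congrArg Subtype.val hk
    have h2 := einj h1
    have h3 : 2*k+1 = 2*k'+1 := by injection h2
    omega
  obtain ⟨x⟩ : Nonempty (ℕ ≃ X) := nonempty_equiv_of_countable
  let y : ℕ → H := fun n =>
    if h : n - pos M (blk M n) < m (2 * blk M n) then e ⟨2 * blk M n, ⟨n - pos M (blk M n), h⟩⟩
    else x (blk M n)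
  have yblock : ∀ k (j : Fin (m (2*k))), y (pos M k + j) = e ⟨2*k, j⟩ := by
    intro k j
    have hj := j.2
    have hb1 : blk M (pos M k + j) = k := by
      apply blk_eq
      · omega
      · rw [pos]; simp only [hM]; omega
    have key : ∀ k' (hk' : k' = k) (h : pos M k + j - pos M k' < m (2*k')),
        e ⟨2*k', ⟨pos M k + j - pos M k', h⟩⟩ = e ⟨2*k, j⟩ := by
      intro k' hk' h
      subst hk'
      congr 2
      ext
      simp
    have hlt : pos M k + j - pos M (blk M (pos M k + j)) < m (2 * blk M (pos M k + j)) := by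
      rw [hb1]; omega
    simp only [y]
    rw [dif_pos hlt]
    exact key _ hb1 hlt
  have yextra : ∀ k, y (pos M k + m (2*k)) = x k := by
    intro k
    have hb1 : blk M (pos M k + m (2*k)) = k := by
      apply blk_eq
      · omega
      · rw [pos]; simp only [hM]; omega
    simp only [y]
    rw [dif_neg (by rw [hb1]; omega), hb1]
  have ycase : ∀ n, (∃ k, ∃ j : Fin (m (2*k)), n = pos M k + j) ∨ ∃ k, n = pos M k + m (2*k) := by
    intro n
    obtain ⟨h1, h2⟩ := blk_spec M n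
    rw [pos] at h2
    by_cases h : n - pos M (blk M n) < m (2 * blk M n)
    · left
      exact ⟨blk M n, ⟨_, h⟩, by simp only; omega⟩
    · right
      refine ⟨blk M n, ?_⟩
      have : M (blk M n) = m (2 * blk M n) := rfl
      omega
  have yw : ∀ n, y n ∈ w := by
    intro n
    rcases ycase n with ⟨k, j, rfl⟩ | ⟨k, rfl⟩
    · rw [yblock]; exact hsw ⟨_, rfl⟩
    · rw [yextra]; exact (x k).2.1
  have yinj : Function.Injective y := by
    intro n n' hn
    rcases ycase n with ⟨k, j, rfl⟩ | ⟨k, rfl⟩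
    · rcases ycase n' with ⟨k', j', rfl⟩ | ⟨k', rfl⟩
      · rw [yblock, yblock] at hn
        have h1 := einj hn
        have h2 : 2*k = 2*k' := by injection h1
        have h3 : k = k' := by omega
        subst h3
        have h4 : j = j' := by simpa using h1
        rw [h4]
      · rw [yblock, yextra] at hn
        exact absurd ⟨k, j, hn.symm⟩ (x k').2.2
    · rcases ycase n' with ⟨k', j', rfl⟩ | ⟨k', rfl⟩
      · rw [yblock, yextra] at hn
        exact absurd ⟨k', j', hn⟩ (x k).2.2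
      · rw [yextra, yextra] at hn
        have h1 : x k = x k' := Subtype.ext hn
        rw [x.injective h1]
  refine ⟨y, ?_, ?_, yblock⟩
  · have := hwo.comp (fun n => (⟨y n, yw n⟩ : w)) (fun n n' h => yinj (congrArg Subtype.val h))
    exact this
  · intro g hg
    have hall : ∀ i : w, ⟪b i, g⟫_ℝ = 0 := by
      intro i
      rw [hb, real_inner_comm]
      by_cases hi : (i:H) ∈ R
      · obtain ⟨k, j, hkj⟩ := hi
        rw [hkj, ← yblock]; exact hg _
      · have hx := hg (pos M (x.symm ⟨i, i.2, hi⟩) + m (2 * x.symm ⟨i, i.2, hi⟩))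
        rw [yextra, Equiv.apply_symm_apply] at hx
        exact hx
    have hr : b.repr g = 0 := by
      ext i
      rw [b.repr_apply_apply, hall i]; simp
    exact (LinearIsometryEquiv.map_eq_zero_iff b.repr).mp hr

end Pool.Agent.H431R2.ONS
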