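import Pool.Agent.H431R2.Gadget

/-! The blocks. -/

set_option autoImplicit false

namespace Pool.Agent.H431R2.ONS
open MeasureTheory Filter Topology Set

lemma floor_key (n d : ℕ) (x : ℝ) :
    ⌊(2:ℝ)^n * x⌋ = ⌊(2:ℝ)^(n+d) * x⌋ / ((2^d : ℕ) : ℤ) := by
  rw [← Int.floor_div_natCast]
  congr 1
  push_cast
  rw [pow_add]
  field_simp

/-- indicator of the complement of `[0,2^-κ)` -/
noncomputable def ee (κ : ℕ) (t : ℝ) : ℝ := if ⌊(2:ℝ)^κ * t⌋ = 0 then 0 else 1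

lemma ee_dy (κ : ℕ) : Dy κ (ee κ) := by
  intro s t h; unfold ee; rw [h]

lemma ee_abs (κ : ℕ) (t : ℝ) : |ee κ t| ≤ 1 := by unfold ee; split_ifs <;> simp

lemma ee_BM (κ : ℕ) : ee κ ∈ BM := (ee_dy κ).mem_BM (ee_abs κ)

lemma ee_sq (κ : ℕ) (t : ℝ) : ee κ t * ee κ t = ee κ t := by unfold ee; split_ifs <;> simp

lemma floor_node (n i : ℕ) : ⌊(2:ℝ)^n * ((i:ℝ)/2^n)⌋ = (i:ℤ) := by
  have : (2:ℝ)^n * ((i:ℝ)/2^n) = ((i:ℤ):ℝ) := by push_cast; field_simp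
  rw [this, Int.floor_intCast]

lemma int_ee (κ : ℕ) : ∫ t in (0:ℝ)..1, ee κ t = 1 - 1/2^κ := by
  rw [int_dy (ee_dy κ) (ee_BM κ)]
  have h1 : ∀ i : ℕ, ee κ ((i:ℝ)/2^κ) = 1 - (if i = 0 then 1 else 0) := by
    intro i
    unfold ee
    rw [floor_node]
    by_cases hi : i = 0
    · simp [hi]
    · have : ¬ ((i:ℤ) = 0) := by exact_mod_cast hi
      simp [hi]
  simp only [h1, Finset.sum_sub_distrib, Finset.sum_const, Finset.card_range, nsmul_eq_mul, mul_one,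
    Finset.sum_ite_eq', Finset.mem_range]
  rw [if_pos (by positivity)]
  push_cast
  field_simp

/-- normalized indicator of `[2^-(κ+1), 2^-κ)` -/
noncomputable def vv (κ : ℕ) (t : ℝ) : ℝ :=
  √(2^(κ+1)) * (if ⌊(2:ℝ)^(κ+1) * t⌋ = 1 then 1 else 0)

lemma vv_dy (κ : ℕ) : Dy (κ+1) (vv κ) := by
  intro s t h; unfold vv; rw [h]

lemma vv_abs (κ : ℕ) (t : ℝ) : |vv κ t| ≤ √(2^(κ+1)) := by
  unfold vv
  rw [abs_mul, abs_of_nonneg (Real.sqrt_nonneg _)]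
  split_ifs <;> simp

lemma vv_BM (κ : ℕ) : vv κ ∈ BM := (vv_dy κ).mem_BM (vv_abs κ)

lemma int_vv (κ : ℕ) : ∫ t in (0:ℝ)..1, vv κ t * vv κ t = 1 := by
  rw [int_dy ((vv_dy κ).mul (vv_dy κ)) (BM_mul (vv_BM κ) (vv_BM κ))]
  have h1 : ∀ i : ℕ, vv κ ((i:ℝ)/2^(κ+1)) * vv κ ((i:ℝ)/2^(κ+1))
      = 2^(κ+1) * (if i = 1 then 1 else 0) := by
    intro i
    unfold vv
    rw [floor_node]
    by_cases hi : i = 1
    · simp only [hi, Nat.cast_one, if_true, mul_one]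
      rw [Real.mul_self_sqrt (by positivity)]
    · have : ¬ ((i:ℤ) = 1) := by exact_mod_cast hi
      simp [hi]
  simp only [h1, ← Finset.mul_sum, Finset.sum_ite_eq', Finset.mem_range]
  rw [if_pos (Nat.one_lt_two_pow (by omega))]
  field_simp

lemma vv_floor {κ : ℕ} {t : ℝ} (h : ¬ vv κ t = 0) : ⌊(2:ℝ)^(κ+1) * t⌋ = 1 := by
  by_contra hc
  exact h (by unfold vv; rw [if_neg hc, mul_zero])

lemma vv_floor' {κ n : ℕ} (hn : n ≤ κ) {t : ℝ} (h : ¬ vv κ t = 0) : ⌊(2:ℝ)^n * t⌋ = 0 := by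
  obtain ⟨d, rfl⟩ := Nat.exists_eq_add_of_le hn
  rw [floor_key n (d+1), ← add_assoc, vv_floor h]
  apply Int.ediv_eq_zero_of_lt (by norm_num)
  have : 1 < 2^(d+1) := Nat.one_lt_two_pow (by omega)
  exact_mod_cast this

lemma vv_vv {i k : ℕ} (h : i < k) (t : ℝ) : vv i t * vv k t = 0 := by
  by_cases h1 : vv k t = 0
  · rw [h1, mul_zero]
  · have h2 := vv_floor' (n := i+1) (by omega) h1
    have : vv i t = 0 := by unfold vv; rw [h2]; simp
    rw [this, zero_mul]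

lemma ee_vv {i κ : ℕ} (h : κ ≤ i) (t : ℝ) : ee κ t * vv i t = 0 := by
  by_cases h1 : vv i t = 0
  · rw [h1, mul_zero]
  · have h2 := vv_floor' (n := κ) h h1
    have : ee κ t = 0 := by unfold ee; rw [h2]; simp
    rw [this, zero_mul]

def RR (κ : ℕ) : ℕ := 2^(κ^2+4)
def NN (κ : ℕ) : ℕ := (RR κ)^2
def LL (κ : ℕ) : ℕ := 4 * NN κ

lemma RR_pos (κ : ℕ) : 0 < RR κ := by unfold RR; positivity
lemma NN_pos (κ : ℕ) : 0 < NN κ := by unfold NN; have := RR_pos κ; positivity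

lemma RR_lt {κ κ' : ℕ} (h : κ < κ') : RR κ < RR κ' := by
  unfold RR
  exact Nat.pow_lt_pow_right (by norm_num) (by nlinarith)

lemma NN_lt {κ κ' : ℕ} (h : κ < κ') : NN κ < NN κ' := by
  unfold NN
  exact Nat.pow_lt_pow_left (RR_lt h) (by norm_num)

lemma LL_lt {κ κ' : ℕ} (h : κ < κ') : LL κ + 1 ≤ LL κ' := by
  unfold LL; have := NN_lt h; omega

lemma le_RR (κ : ℕ) : κ + 4 ≤ RR κ := by
  unfold RR
  have h1 : κ^2 + 4 < 2^(κ^2+4) := Nat.lt_two_pow_self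
  nlinarith [Nat.le_self_pow (n := 2) (by norm_num) κ]

lemma le_NN (κ : ℕ) : RR κ ≤ NN κ := by
  unfold NN
  exact Nat.le_self_pow (by norm_num) _

lemma le_LL (κ : ℕ) : κ + NN κ ≤ LL κ := by
  unfold LL
  have := le_RR κ
  have := le_NN κ
  omega

/-- amplitude part -/
noncomputable def hh (κ j : ℕ) (t : ℝ) : ℝ := ee κ t * gA (NN κ) j (2^κ * t)

lemma hh_dy (κ j : ℕ) : Dy (LL κ) (hh κ j) :=
  (((ee_dy κ).mono (Nat.le_add_right κ (NN κ))).mul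
    (((gA_good (NN κ)).dy j).comp_mul κ)).mono (le_LL κ)

lemma hh_abs (κ j : ℕ) (t : ℝ) : |hh κ j t| ≤ 1 := by
  unfold hh
  rw [abs_mul]
  exact mul_le_one₀ (ee_abs _ _) (abs_nonneg _) ((gA_good (NN κ)).bd j _)

lemma hh_BM (κ j : ℕ) : hh κ j ∈ BM := (hh_dy κ j).mem_BM (hh_abs κ j)

noncomputable def cc (κ : ℕ) : ℝ := 1/√(1 - 1/2^κ)

noncomputable def ss (κ : ℕ) (t : ℝ) : ℝ := sw (2^(LL κ) * t)

lemma ss_BM (κ : ℕ) : ss κ ∈ BM := BM_comp sw_BM (measurable_const_mul _)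
lemma ss_dy (κ : ℕ) : Dy (LL κ + 1) (ss κ) := sw_dy.comp_mul _

lemma half_le {κ : ℕ} (hκ : 0 < κ) : (1:ℝ)/2 ≤ 1 - 1/2^κ := by
  have : (1:ℝ)/2^κ ≤ 1/2^1 := by
    apply one_div_le_one_div_of_le (by norm_num)
    exact pow_le_pow_right₀ (by norm_num) hκ
  norm_num at this ⊢
  linarith

lemma cc_sq {κ : ℕ} (hκ : 0 < κ) : cc κ * cc κ * (1 - 1/2^κ) = 1 := by
  unfold cc
  have h := half_le hκ
  have hp : (0:ℝ) < 1 - 1/2^κ := by linarith
  generalize (1 - 1/2^κ : ℝ) = y at hp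
  have hs := Real.mul_self_sqrt hp.le
  have hs0 : √y ≠ 0 := (Real.sqrt_pos.mpr hp).ne'
  calc 1/√y * (1/√y) * y
      = (1/√y * (1/√y)) * (√y * √y) := by rw [hs]
    _ = 1 := by field_simp

lemma cc_pos {κ : ℕ} (hκ : 0 < κ) : 0 < cc κ := by
  unfold cc
  have h := half_le hκ
  have hp : (0:ℝ) < 1 - 1/2^κ := by linarith
  have := Real.sqrt_pos.mpr hp
  positivity

lemma one_le_cc {κ : ℕ} (hκ : 0 < κ) : 1 ≤ cc κ := by
  have h := cc_sq hκ
  have hp := cc_pos hκ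
  have h2 : (0:ℝ) < 1/2^κ := by positivity
  nlinarith [half_le hκ]

lemma cc_le {κ : ℕ} (hκ : 0 < κ) : cc κ ≤ 2 := by
  have h := cc_sq hκ
  have hp := cc_pos hκ
  nlinarith [half_le hκ]

/-- the orthonormal system inside a block -/
noncomputable def zt (κ j : ℕ) (t : ℝ) : ℝ :=
  cc κ / √(gq (NN κ) j) * (hh κ j t * ss κ t)

lemma zt_BM (κ j : ℕ) : zt κ j ∈ BM :=
  BM_mul (BM_const _) (BM_mul (hh_BM κ j) (ss_BM κ))

lemma zt_dy (κ j : ℕ) : Dy (LL κ + 1) (zt κ j) :=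
  (Dy.const _ _).mul (((hh_dy κ j).mono (Nat.le_succ _)).mul (ss_dy κ))

lemma orth_sw {κ : ℕ} {g : ℝ → ℝ} (hg : Dy (LL κ) g) (hb : g ∈ BM) :
    ∫ t in (0:ℝ)..1, g t * ss κ t = 0 := by
  unfold ss
  rw [PL hg hb sw_BM sw_per, int_sw, mul_zero]

lemma orth_zt {κ j : ℕ} {g : ℝ → ℝ} (hg : Dy (LL κ) g) (hb : g ∈ BM) :
    ∫ t in (0:ℝ)..1, g t * zt κ j t = 0 := by
  have e : ∀ t, g t * zt κ j t = (cc κ / √(gq (NN κ) j)) * ((g t * hh κ j t) * ss κ t) := by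
    intro t; unfold zt; ring
  simp only [e]
  rw [intervalIntegral.integral_const_mul, orth_sw (hg.mul (hh_dy κ j)) (BM_mul hb (hh_BM κ j)),
    mul_zero]

lemma vv_zt {i κ : ℕ} (j : ℕ) : ∫ t in (0:ℝ)..1, vv i t * zt κ j t = 0 := by
  rcases lt_or_ge i κ with h | h
  · refine orth_zt ((vv_dy i).mono ?_) (vv_BM i)
    have := le_LL κ
    omega
  · have : ∀ t, vv i t * zt κ j t = 0 := by
      intro t
      have := ee_vv h t
      unfold zt hh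
      calc _ = (ee κ t * vv i t) * (cc κ / √(gq (NN κ) j) * (gA (NN κ) j (2^κ * t) * ss κ t)) := by ring
        _ = 0 := by rw [this, zero_mul]
    simp only [this, intervalIntegral.integral_zero]

lemma zt_zt_lt {κ κ' : ℕ} (h : κ < κ') (i j : ℕ) :
    ∫ t in (0:ℝ)..1, zt κ i t * zt κ' j t = 0 :=
  orth_zt ((zt_dy κ i).mono (LL_lt h)) (zt_BM κ i)

lemma zt_zt_same {κ : ℕ} (hκ : 0 < κ) {i j : ℕ} (hi : i < gm (NN κ)) (hj : j < gm (NN κ)) :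
    ∫ t in (0:ℝ)..1, zt κ i t * zt κ j t = if i = j then 1 else 0 := by
  have G := gA_good (NN κ)
  have e : ∀ t, zt κ i t * zt κ j t
      = (cc κ * cc κ / (√(gq (NN κ) i) * √(gq (NN κ) j))) *
        (ee κ t * (fun s => gA (NN κ) i s * gA (NN κ) j s) (2^κ * t)) := by
    intro t
    unfold zt hh
    have h1 := ee_sq κ t
    have h2 : ss κ t * ss κ t = 1 := sw_sq _
    calc _ = (cc κ * cc κ / (√(gq (NN κ) i) * √(gq (NN κ) j))) *
        ((ee κ t * ee κ t) * (gA (NN κ) i (2^κ * t) * gA (NN κ) j (2^κ * t)) * (ss κ t * ss κ t)) := by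
          rw [mul_div_mul_comm]; ring
      _ = _ := by rw [h1, h2]; ring
  simp only [e]
  rw [intervalIntegral.integral_const_mul, PL (ee_dy κ) (ee_BM κ) (BM_mul (G.BM i) (G.BM j))
    ((G.per i).mul (G.per j)), int_ee]
  split_ifs with hij
  · subst hij
    have hq : 0 < gq (NN κ) i := lt_of_lt_of_le (by positivity) (gq_pos hi)
    rw [Real.mul_self_sqrt hq.le]
    have := cc_sq hκ
    change cc κ * cc κ / gq (NN κ) i * ((1 - 1/2^κ) * gq (NN κ) i) = 1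
    field_simp
    field_simp at this
    linarith
  · rw [G.orth i hi j hj hij]; simp

/-- weights -/
noncomputable def aa (κ j : ℕ) : ℝ := √(gq (NN κ) j) / RR κ

lemma gq_nonneg (N j : ℕ) : 0 ≤ gq N j :=
  intervalIntegral.integral_nonneg (by norm_num) (fun t _ => mul_self_nonneg _)

lemma sum_aa (κ : ℕ) : ∑ j ∈ Finset.range (gm (NN κ)), aa κ j ^ 2 = 1 := by
  have : ∀ j, aa κ j ^ 2 = gq (NN κ) j / NN κ := by
    intro j
    unfold aa
    rw [div_pow, Real.sq_sqrt (gq_nonneg _ _)]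
    unfold NN
    push_cast
    rfl
  simp only [this]
  rw [← Finset.sum_div, sum_gq]
  have := NN_pos κ
  field_simp

/-- block vector -/
noncomputable def uu (κ : ℕ) (t : ℝ) : ℝ := ∑ j ∈ Finset.range (gm (NN κ)), aa κ j * zt κ j t

lemma aa_zt {κ j : ℕ} (hj : j < gm (NN κ)) (t : ℝ) :
    aa κ j * zt κ j t = cc κ / RR κ * (ee κ t * ss κ t) * gA (NN κ) j (2^κ * t) := by
  have hq : 0 < gq (NN κ) j := lt_of_lt_of_le (by positivity) (gq_pos hj)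
  have hs : √(gq (NN κ) j) ≠ 0 := (Real.sqrt_pos.mpr hq).ne'
  have hR : (RR κ : ℝ) ≠ 0 := by exact_mod_cast (RR_pos κ).ne'
  unfold aa zt hh
  field_simp

lemma uu_eq (κ : ℕ) (t : ℝ) : uu κ t = cc κ / RR κ * (ee κ t * ss κ t) * gU (NN κ) (2^κ * t) := by
  unfold uu gU
  rw [Finset.mul_sum]
  exact Finset.sum_congr rfl (fun j hj => aa_zt (Finset.mem_range.mp hj) t)

/-- the final block functions -/
noncomputable def ch (κ j : ℕ) (t : ℝ) : ℝ := zt κ j t - aa κ j * (uu κ t - vv κ t)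

end Pool.Agent.H431R2.ONS
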