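import Mathlib

/-!
Continuous calm local selections under surjective Clarke Jacobians.
-/

set_option autoImplicit false

open Set Filter Topology MeasureTheory Metric
open scoped RealInnerProductSpace NNReal

namespace Pool.Agent.H431R2.Clarke

theorem compact_hull {E : Type*} [NormedAddCommGroup E] [NormedSpace ℝ E]
    [FiniteDimensional ℝ E] {s : Set E} (hs : IsCompact s) : IsCompact (convexHull ℝ s) := by
  classical
  rcases s.eq_empty_or_nonempty with rfl | ⟨x0, hx0⟩
  · rw [convexHull_empty]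
    exact isCompact_empty
  obtain ⟨n, hn⟩ : ∃ n, n = Module.finrank ℝ E + 1 := ⟨_, rfl⟩
  have hK : IsCompact ((stdSimplex ℝ (Fin n)) ×ˢ (Set.pi Set.univ (fun _ : Fin n => s))) :=
    (isCompact_stdSimplex ℝ (Fin n)).prod (isCompact_univ_pi fun _ => hs)
  have hcont : Continuous (fun p : (Fin n → ℝ) × (Fin n → E) => ∑ i, p.1 i • p.2 i) := by
    refine continuous_finsetSum _ fun i _ => ?_
    exact ((continuous_apply i).comp continuous_fst).smul ((continuous_apply i).comp continuous_snd)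
  have heq : convexHull ℝ s = (fun p : (Fin n → ℝ) × (Fin n → E) => ∑ i, p.1 i • p.2 i) ''
      ((stdSimplex ℝ (Fin n)) ×ˢ (Set.pi Set.univ (fun _ : Fin n => s))) := by
    apply Set.Subset.antisymm
    · intro x hx
      obtain ⟨ι, hι, z, w, hz, hai, hw0, hw1, hwz⟩ := eq_pos_convex_span_of_mem_convexHull hx
      have hcard : Fintype.card ι ≤ Fintype.card (Fin n) := by
        have h1 := hai.card_le_finrank_succ
        have h2 := Submodule.finrank_le (vectorSpan ℝ (Set.range z))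
        rw [Fintype.card_fin, hn]
        omega
      obtain ⟨e⟩ := Function.Embedding.nonempty_of_card_le hcard
      refine ⟨(Function.extend e w 0, Function.extend e z (fun _ => x0)), ⟨⟨?_, ?_⟩, ?_⟩, ?_⟩
      · intro j
        show (0 : ℝ) ≤ Function.extend e w 0 j
        by_cases hj : ∃ i, e i = j
        · obtain ⟨i, rfl⟩ := hj
          rw [e.injective.extend_apply]
          exact (hw0 i).le
        · rw [Function.extend_apply' _ _ _ hj]
          exact le_rfl
      · rw [← hw1]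
        symm
        refine Fintype.sum_of_injective e e.injective _ _ ?_ ?_
        · intro j hj
          show Function.extend e w 0 j = 0
          rw [Function.extend_apply' _ _ _ hj]
          rfl
        · intro i
          show w i = Function.extend e w 0 (e i)
          rw [e.injective.extend_apply]
      · intro j _
        by_cases hj : ∃ i, e i = j
        · obtain ⟨i, rfl⟩ := hj
          show Function.extend e z (fun _ => x0) (e i) ∈ s
          rw [e.injective.extend_apply]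
          exact hz ⟨i, rfl⟩
        · show Function.extend e z (fun _ => x0) j ∈ s
          rw [Function.extend_apply' _ _ _ hj]
          exact hx0
      · rw [← hwz]
        symm
        refine Fintype.sum_of_injective e e.injective _ _ ?_ ?_
        · intro j hj
          show Function.extend e w 0 j • Function.extend e z (fun _ => x0) j = 0
          rw [Function.extend_apply' w _ _ hj]
          simp
        · intro i
          show w i • z i = Function.extend e w 0 (e i) • Function.extend e z (fun _ => x0) (e i)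
          rw [e.injective.extend_apply, e.injective.extend_apply]
    · rintro _ ⟨⟨w, z⟩, ⟨⟨hw0, hw1⟩, hz⟩, rfl⟩
      refine (convex_convexHull ℝ s).sum_mem (fun i _ => hw0 i) hw1 (fun i _ => ?_)
      exact subset_convexHull ℝ s (hz i (Set.mem_univ i))
  rw [heq]
  exact hK.image hcont


section

variable {E F : Type*} [NormedAddCommGroup E] [InnerProductSpace ℝ E] [FiniteDimensional ℝ E]
  [NormedAddCommGroup F] [InnerProductSpace ℝ F] [FiniteDimensional ℝ F]

/-- limits of derivatives at points converging to `x₀` -/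
def J (f : E → F) (x₀ : E) : Set (E →L[ℝ] F) :=
  {B | ∀ ε : ℝ, 0 < ε → ∀ δ : ℝ, 0 < δ → ∃ x : E, dist x x₀ < δ ∧ DifferentiableAt ℝ f x ∧
    ‖fderiv ℝ f x - B‖ < ε}

lemma J_bdd {f : E → F} {x₀ : E} {K : ℝ≥0} {r : ℝ} (hr : 0 < r)
    (hf : LipschitzOnWith K f (ball x₀ r)) {B : E →L[ℝ] F} (hB : B ∈ J f x₀) : ‖B‖ ≤ K := by
  apply le_of_forall_pos_lt_add
  intro ε hε
  obtain ⟨x, hx, -, hxB⟩ := hB ε hε r hr
  have h1 : ‖fderiv ℝ f x‖ ≤ K :=
    norm_fderiv_le_of_lipschitzOn ℝ (isOpen_ball.mem_nhds (mem_ball.2 hx)) hf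
  calc ‖B‖ = ‖fderiv ℝ f x - (fderiv ℝ f x - B)‖ := by rw [sub_sub_cancel]
    _ ≤ ‖fderiv ℝ f x‖ + ‖fderiv ℝ f x - B‖ := norm_sub_le _ _
    _ < K + ε := by linarith

lemma J_closed (f : E → F) (x₀ : E) : IsClosed (J f x₀) := by
  rw [← isOpen_compl_iff, Metric.isOpen_iff]
  intro B hB
  simp only [J, mem_compl_iff, mem_ofPred_eq, not_forall, not_exists, not_and] at hB
  obtain ⟨ε, hε, δ, hδ, h⟩ := hB
  refine ⟨ε / 2, half_pos hε, ?_⟩
  intro B' hB' hmem
  obtain ⟨x, hx, hd, hx'⟩ := hmem (ε / 2) (half_pos hε) δ hδ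
  apply h x hx hd
  rw [mem_ball, dist_eq_norm] at hB'
  calc ‖fderiv ℝ f x - B‖ = ‖(fderiv ℝ f x - B') + (B' - B)‖ := by rw [sub_add_sub_cancel]
    _ ≤ ‖fderiv ℝ f x - B'‖ + ‖B' - B‖ := norm_add_le _ _
    _ < ε := by linarith

lemma J_compact {f : E → F} {x₀ : E} {K : ℝ≥0} {r : ℝ} (hr : 0 < r)
    (hf : LipschitzOnWith K f (ball x₀ r)) : IsCompact (J f x₀) := by
  have : ProperSpace (E →L[ℝ] F) := FiniteDimensional.proper ℝ _
  refine IsCompact.of_isClosed_subset (isCompact_closedBall (0 : E →L[ℝ] F) K) (J_closed f x₀) ?_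
  intro B hB
  rw [mem_closedBall_zero_iff]
  exact J_bdd hr hf hB

lemma near_J {f : E → F} {x₀ : E} {K : ℝ≥0} {r : ℝ} (hr : 0 < r)
    (hf : LipschitzOnWith K f (ball x₀ r)) {ε : ℝ} (hε : 0 < ε) :
    ∃ δ : ℝ, 0 < δ ∧ δ ≤ r ∧ ∀ x, dist x x₀ < δ → DifferentiableAt ℝ f x →
      ∃ B ∈ J f x₀, ‖fderiv ℝ f x - B‖ < ε := by
  have : ProperSpace (E →L[ℝ] F) := FiniteDimensional.proper ℝ _
  by_contra hcon
  push Not at hcon
  have hδ : ∀ k : ℕ, (0 : ℝ) < min r (1 / ((k : ℝ) + 1)) := fun k => lt_min hr (by positivity)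
  choose x hx hd hxB using fun k : ℕ => hcon _ (hδ k) (min_le_left _ _)
  have hb : ∀ k, fderiv ℝ f (x k) ∈ closedBall (0 : E →L[ℝ] F) K := by
    intro k
    rw [mem_closedBall_zero_iff]
    exact norm_fderiv_le_of_lipschitzOn ℝ
      (isOpen_ball.mem_nhds (mem_ball.2 ((hx k).trans_le (min_le_left _ _)))) hf
  obtain ⟨B, -, φ, hφ, hlim⟩ := (isCompact_closedBall (0 : E →L[ℝ] F) K).tendsto_subseq hb
  have hBJ : B ∈ J f x₀ := by
    intro ε' hε' δ' hδ'
    rw [Metric.tendsto_atTop] at hlim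
    obtain ⟨N, hN⟩ := hlim ε' hε'
    obtain ⟨M, hM⟩ := exists_nat_one_div_lt hδ'
    refine ⟨x (φ (max N M)), ?_, hd _, ?_⟩
    · refine ((hx _).trans_le (min_le_right _ _)).trans_le (le_trans ?_ hM.le)
      apply one_div_le_one_div_of_le (by positivity)
      have : M ≤ φ (max N M) := (le_max_right N M).trans (hφ.id_le _)
      have : (M : ℝ) ≤ φ (max N M) := by exact_mod_cast this
      linarith
    · have := hN (max N M) (le_max_left _ _)
      rwa [dist_eq_norm] at this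
  rw [Metric.tendsto_atTop] at hlim
  obtain ⟨N, hN⟩ := hlim ε hε
  have h1 := hN N le_rfl
  have h2 := hxB (φ N) B hBJ
  rw [dist_eq_norm] at h1
  exact absurd h1 (not_lt.2 h2)

/-- uniform separation -/
lemma exists_v {C : Set (E →L[ℝ] F)} (hC : IsCompact C) (hconv : Convex ℝ C)
    (hs : ∀ A ∈ C, Function.Surjective A) :
    ∃ c M : ℝ, 0 < c ∧ 0 < M ∧ ∀ w : F, ∃ v : E, ‖v‖ ≤ M * ‖w‖ ∧
      ∀ A ∈ C, c * ‖w‖ ^ 2 ≤ ⟪w, A v⟫ := by
  rcases C.eq_empty_or_nonempty with rfl | hne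
  · exact ⟨1, 1, one_pos, one_pos, fun w => ⟨0, by simp, by simp⟩⟩
  have hproper : ProperSpace F := FiniteDimensional.proper ℝ F
  have hproper2 : ProperSpace E := FiniteDimensional.proper ℝ E
  have : CompleteSpace E := FiniteDimensional.complete ℝ E
  have : CompleteSpace F := FiniteDimensional.complete ℝ F
  obtain ⟨M0, hM0⟩ := hC.isBounded.exists_norm_le
  have hinj : ∀ A ∈ C, ∀ u : F, ContinuousLinearMap.adjoint A u = 0 → u = 0 := by
    intro A hA u hu
    obtain ⟨v, hv⟩ := hs A hA u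
    have h1 : ⟪ContinuousLinearMap.adjoint A u, v⟫ = ⟪u, A v⟫ :=
      ContinuousLinearMap.adjoint_inner_left A v u
    rw [hu, inner_zero_left, hv] at h1
    exact inner_self_eq_zero.1 h1.symm
  -- lower bound
  obtain ⟨c0, hc0, hlow⟩ : ∃ c0 : ℝ, 0 < c0 ∧ ∀ A ∈ C, ∀ u : F,
      c0 * ‖u‖ ≤ ‖ContinuousLinearMap.adjoint A u‖ := by
    rcases (sphere (0 : F) 1).eq_empty_or_nonempty with hS | hS
    · refine ⟨1, one_pos, fun A hA u => ?_⟩
      have hu : u = 0 := by
        by_contra hu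
        have : ‖u‖⁻¹ • u ∈ sphere (0 : F) 1 := by
          rw [mem_sphere_zero_iff_norm, norm_smul, norm_inv, norm_norm,
            inv_mul_cancel₀ (norm_ne_zero_iff.2 hu)]
        rw [hS] at this
        exact this
      rw [hu]; simp
    · have hcomp : IsCompact (C ×ˢ sphere (0 : F) 1) := hC.prod (isCompact_sphere 0 1)
      have hcont : Continuous (fun p : (E →L[ℝ] F) × F => ‖ContinuousLinearMap.adjoint p.1 p.2‖) := by
        apply Continuous.norm
        have h1 : Continuous (fun p : (E →L[ℝ] F) × F => ContinuousLinearMap.adjoint p.1) :=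
          (ContinuousLinearMap.adjoint (𝕜 := ℝ) (E := E) (F := F)).continuous.comp continuous_fst
        exact h1.clm_apply continuous_snd
      obtain ⟨⟨A0, u0⟩, hp, hmin⟩ := hcomp.exists_isMinOn (hne.prod hS) hcont.continuousOn
      refine ⟨‖ContinuousLinearMap.adjoint A0 u0‖, ?_, ?_⟩
      · rw [norm_pos_iff]
        intro h0
        have := hinj A0 hp.1 u0 h0
        have h1 := mem_sphere_zero_iff_norm.1 hp.2
        rw [this] at h1
        simp at h1
      · intro A hA u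
        by_cases hu : u = 0
        · rw [hu]; simp
        have hu' : 0 < ‖u‖ := norm_pos_iff.2 hu
        have h2 : (A, ‖u‖⁻¹ • u) ∈ C ×ˢ sphere (0 : F) 1 := by
          refine ⟨hA, ?_⟩
          show ‖u‖⁻¹ • u ∈ sphere (0 : F) 1
          rw [mem_sphere_zero_iff_norm, norm_smul, norm_inv, norm_norm, inv_mul_cancel₀ hu'.ne']
        have h3 := hmin h2
        simp only [mem_ofPred_eq, map_smul, norm_smul, norm_inv, norm_norm] at h3
        rw [← div_eq_inv_mul, le_div_iff₀ hu'] at h3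
        exact h3
  refine ⟨c0 ^ 2, max M0 1, by positivity, by positivity, ?_⟩
  intro w
  set D : Set E := (fun A => ContinuousLinearMap.adjoint A w) '' C with hD
  have hDc : IsCompact D := by
    apply hC.image
    have h1 : Continuous (fun A : E →L[ℝ] F => ContinuousLinearMap.adjoint A) :=
      (ContinuousLinearMap.adjoint (𝕜 := ℝ) (E := E) (F := F)).continuous
    exact h1.clm_apply continuous_const
  have hDconv : Convex ℝ D := by
    rintro _ ⟨A, hA, rfl⟩ _ ⟨B, hB, rfl⟩ a b ha hb hab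
    refine ⟨a • A + b • B, hconv hA hB ha hb hab, ?_⟩
    simp
  obtain ⟨v, hvD, hv⟩ := exists_norm_eq_iInf_of_complete_convex (hne.image _) hDc.isComplete
    hDconv (0 : E)
  rw [norm_eq_iInf_iff_real_inner_le_zero hDconv hvD] at hv
  obtain ⟨A1, hA1, hA1v⟩ := hvD
  have hvl : c0 * ‖w‖ ≤ ‖v‖ := by rw [← hA1v]; exact hlow A1 hA1 w
  refine ⟨v, ?_, ?_⟩
  · rw [← hA1v]
    refine (ContinuousLinearMap.le_opNorm _ _).trans ?_
    apply mul_le_mul_of_nonneg_right _ (norm_nonneg _)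
    rw [LinearIsometryEquiv.norm_map]
    exact (hM0 A1 hA1).trans (le_max_left _ _)
  · intro A hA
    have h1 := hv _ ⟨A, hA, rfl⟩
    simp only [zero_sub, inner_neg_left, inner_sub_right] at h1
    rw [real_inner_self_eq_norm_sq] at h1
    have h1' : ‖v‖ ^ 2 ≤ ⟪v, ContinuousLinearMap.adjoint A w⟫ := by linarith
    have h2 : ⟪v, ContinuousLinearMap.adjoint A w⟫ = ⟪w, A v⟫ := by
      rw [ContinuousLinearMap.adjoint_inner_right, real_inner_comm]
    rw [← h2]
    refine le_trans ?_ h1'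
    rw [← mul_pow]
    exact pow_le_pow_left₀ (by positivity) hvl 2

/-- continuous version -/
lemma exists_phi {C : Set (E →L[ℝ] F)} (hC : IsCompact C) (hconv : Convex ℝ C)
    (hs : ∀ A ∈ C, Function.Surjective A) :
    ∃ (c M : ℝ) (φ : F → E), 0 < c ∧ 0 < M ∧ Continuous φ ∧ ∀ w : F, ‖φ w‖ ≤ M * ‖w‖ ∧
      ∀ A ∈ C, c * ‖w‖ ^ 2 ≤ ⟪w, A (φ w)⟫ := by
  classical
  obtain ⟨c, M, hc, hM, hv⟩ := exists_v hC hconv hs
  obtain ⟨R, hR⟩ := hC.isBounded.exists_norm_le
  obtain ⟨R', hR', hRpos⟩ : ∃ R' : ℝ, (∀ A ∈ C, ‖A‖ ≤ R') ∧ 0 < R' :=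
    ⟨max R 1, fun A hA => (hR A hA).trans (le_max_left _ _), by positivity⟩
  let t : {w : F // w ≠ 0} → Set E := fun w =>
    {v | ‖v‖ < (M + 1) * ‖(w : F)‖ ∧ ∀ A ∈ C, c / 2 * ‖(w : F)‖ ^ 2 < ⟪(w : F), A v⟫}
  have ht : ∀ w, Convex ℝ (t w) := by
    intro w
    have h1 : t w = {v | ‖v‖ < (M + 1) * ‖(w : F)‖} ∩
        ⋂ A ∈ C, {v | c / 2 * ‖(w : F)‖ ^ 2 < ⟪(w : F), A v⟫} := by
      ext v
      simp [t]
    rw [h1]
    apply Convex.inter
    · have := convex_ball (0 : E) ((M + 1) * ‖(w : F)‖)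
      convert this using 1
      ext v
      simp
    · apply convex_iInter₂
      intro A _
      intro v hv v' hv' a b ha hb hab
      simp only [mem_ofPred_eq] at hv hv' ⊢
      rw [map_add, map_smul, map_smul, inner_add_right, inner_smul_right, inner_smul_right]
      rcases eq_or_lt_of_le ha with ha0 | ha0
      · rw [← ha0] at hab ⊢
        rw [zero_add] at hab
        rw [hab]
        simpa using hv'
      · have e1 := mul_lt_mul_of_pos_left hv ha0
        have e2 := mul_le_mul_of_nonneg_left hv'.le hb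
        have e3 : c / 2 * ‖(w : F)‖ ^ 2
            = a * (c / 2 * ‖(w : F)‖ ^ 2) + b * (c / 2 * ‖(w : F)‖ ^ 2) := by
          rw [← add_mul, hab, one_mul]
        rw [e3]
        exact add_lt_add_of_lt_of_le e1 e2
  obtain ⟨g, hg⟩ := exists_continuous_forall_mem_convex_of_local_const ht (by
    rintro ⟨w0, hw0⟩
    have hw0' : 0 < ‖w0‖ := norm_pos_iff.2 hw0
    obtain ⟨v0, hv0, hv0'⟩ := hv w0
    refine ⟨v0, ?_⟩
    have e1 : ∀ᶠ w : F in 𝓝 w0, ‖v0‖ < (M + 1) * ‖w‖ := by
      have hcont : Continuous (fun w : F => (M + 1) * ‖w‖) := by fun_prop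
      apply hcont.continuousAt.eventually_const_lt
      nlinarith
    have e2 : ∀ᶠ w : F in 𝓝 w0,
        0 < c * ‖w0‖ ^ 2 - ‖w - w0‖ * (R' * ‖v0‖) - c / 2 * ‖w‖ ^ 2 := by
      have hcont : Continuous (fun w : F =>
          c * ‖w0‖ ^ 2 - ‖w - w0‖ * (R' * ‖v0‖) - c / 2 * ‖w‖ ^ 2) := by fun_prop
      apply hcont.continuousAt.eventually_const_lt
      simp only [sub_self, norm_zero, zero_mul, sub_zero]
      nlinarith [pow_pos hw0' 2]
    have e3 : ∀ᶠ w : {w : F // w ≠ 0} in 𝓝 (⟨w0, hw0⟩ : {w : F // w ≠ 0}),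
        ‖v0‖ < (M + 1) * ‖(w : F)‖ ∧
        0 < c * ‖w0‖ ^ 2 - ‖(w : F) - w0‖ * (R' * ‖v0‖) - c / 2 * ‖(w : F)‖ ^ 2 :=
      (continuous_subtype_val.tendsto (⟨w0, hw0⟩ : {w : F // w ≠ 0})).eventually (e1.and e2)
    filter_upwards [e3] with w hw
    refine ⟨hw.1, fun A hA => ?_⟩
    have h1 := hv0' A hA
    have h2 : ⟪(w : F), A v0⟫ = ⟪w0, A v0⟫ + ⟪(w : F) - w0, A v0⟫ := by
      rw [inner_sub_left]; ring
    have h3 : |⟪(w : F) - w0, A v0⟫| ≤ ‖(w : F) - w0‖ * (R' * ‖v0‖) := by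
      refine (abs_real_inner_le_norm _ _).trans ?_
      apply mul_le_mul_of_nonneg_left _ (norm_nonneg _)
      refine (A.le_opNorm v0).trans ?_
      exact mul_le_mul_of_nonneg_right (hR' A hA) (norm_nonneg _)
    have h4 := (abs_le.1 h3).1
    rw [h2]
    linarith [hw.2])
  refine ⟨c / 2, M + 1, fun w => if h : w = 0 then 0 else g ⟨w, h⟩, by positivity, by positivity,
    ?_, ?_⟩
  · have hbd : ∀ w : F, ‖(if h : w = 0 then (0 : E) else g ⟨w, h⟩)‖ ≤ (M + 1) * ‖w‖ := by
      intro w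
      by_cases h : w = 0
      · rw [dif_pos h, h]; simp
      · rw [dif_neg h]
        exact (hg ⟨w, h⟩).1.le
    rw [continuous_iff_continuousAt]
    intro w
    by_cases h : w = 0
    · subst h
      rw [ContinuousAt, dif_pos rfl]
      apply squeeze_zero_norm hbd
      have hcont : Continuous (fun w : F => (M + 1) * ‖w‖) := by fun_prop
      have := hcont.tendsto 0
      simpa using this
    · have hopen : IsOpen {w : F | w ≠ 0} := isOpen_ne
      have hco : ContinuousOn (fun w => if h : w = 0 then (0 : E) else g ⟨w, h⟩) {w : F | w ≠ 0} := by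
        rw [continuousOn_iff_continuous_domRestrict]
        have : ({w : F | w ≠ 0}.domRestrict (fun w => if h : w = 0 then (0 : E) else g ⟨w, h⟩))
            = fun w : {w : F | w ≠ 0} => g ⟨w.1, w.2⟩ := by
          funext w
          rw [Set.domRestrict_apply]
          rw [dif_neg w.2]
        rw [this]
        exact g.continuous
      exact hco.continuousAt (hopen.mem_nhds h)
  · intro w
    by_cases h : w = 0
    · subst h
      simp
    · simp only [dif_neg h]
      exact ⟨(hg ⟨w, h⟩).1.le, fun A hA => ((hg ⟨w, h⟩).2 A hA).le⟩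

/-- increments of a Lipschitz function, given a bound for the derivative -/
lemma increment [MeasurableSpace E] [BorelSpace E] {f : E → F} {x₀ : E} {K : ℝ≥0} {r : ℝ}
    (hf : LipschitzOnWith K f (ball x₀ r)) (u : F) (v : E) (a : ℝ)
    (hder : ∀ x ∈ ball x₀ r, DifferentiableAt ℝ f x → a ≤ ⟪u, fderiv ℝ f x v⟫)
    (x : E) (hx : x ∈ ball x₀ r) (hxv : x + v ∈ ball x₀ r) :
    a ≤ ⟪u, f (x + v) - f x⟫ := by
  obtain ⟨G, hG, hEq⟩ := hf.extend_finite_dimension
  have hE : LocallyCompactSpace E := by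
    have : ProperSpace E := FiniteDimensional.proper ℝ E
    infer_instance
  have : CompleteSpace F := FiniteDimensional.complete ℝ F
  set S : Set E := {y | DifferentiableAt ℝ G y} with hS
  have hSm : MeasurableSet S := measurableSet_of_differentiableAt ℝ G
  let μ : Measure E := MeasureTheory.Measure.addHaar
  have hSae : ∀ᵐ y ∂μ, y ∈ S := hG.ae_differentiableAt
  let L : ℝ →ₗ[ℝ] E := LinearMap.toSpanSingleton ℝ E v
  have hae := (ae_ae_add_linearMap_mem_iff L volume μ hSm).2 hSae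
  -- the inequality on a dense set
  have hgood : ∀ y, (∀ᵐ t : ℝ, y + L t ∈ S) → y ∈ ball x₀ r → y + v ∈ ball x₀ r →
      a ≤ ⟪u, f (y + v) - f y⟫ := by
    intro y hy hyb hyv
    let h : ℝ → ℝ := fun t => ⟪u, G (y + t • v)⟫
    have hlip : ∃ K', LipschitzWith K' h := by
      refine ⟨‖u‖₊ * ((lipschitzExtensionConstant F * K) * ‖v‖₊), ?_⟩
      have h1 : LipschitzWith ‖v‖₊ (fun t : ℝ => y + t • v) := by
        apply LipschitzWith.of_dist_le_mul
        intro t s
        rw [dist_add_left, dist_eq_norm, ← sub_smul, norm_smul, Real.dist_eq, mul_comm]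
        rfl
      have h2 : LipschitzWith ‖u‖₊ (fun z : F => ⟪u, z⟫) := by
        apply LipschitzWith.of_dist_le_mul
        intro z z'
        rw [Real.dist_eq, ← inner_sub_right, dist_eq_norm]
        exact abs_real_inner_le_norm _ _
      exact h2.comp (hG.comp h1)
    obtain ⟨K', hK'⟩ := hlip
    have hac : AbsolutelyContinuousOnInterval h 0 1 :=
      (hK'.lipschitzOnWith).absolutelyContinuousOnInterval
    have hint := hac.integral_deriv_eq_sub
    have hle : ∫ t in (0:ℝ)..1, a ≤ ∫ t in (0:ℝ)..1, deriv h t := by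
      apply intervalIntegral.integral_mono_ae_restrict zero_le_one
      · exact intervalIntegrable_const
      · exact hac.intervalIntegrable_deriv
      · rw [Filter.EventuallyLE, ae_restrict_iff' measurableSet_Icc]
        filter_upwards [hy] with t ht ht01
        have hz : y + t • v ∈ ball x₀ r := by
          have h1 := (convex_ball x₀ r) hyb hyv (sub_nonneg.2 ht01.2) ht01.1 (by ring)
          convert h1 using 1
          rw [smul_add, ← add_assoc, ← add_smul]
          simp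
        have hGd : DifferentiableAt ℝ G (y + t • v) := ht
        have hfG : f =ᶠ[𝓝 (y + t • v)] G :=
          Filter.eventuallyEq_of_mem (isOpen_ball.mem_nhds hz) hEq
        have hfd : DifferentiableAt ℝ f (y + t • v) := hfG.differentiableAt_iff.2 hGd
        have h2 := hder _ hz hfd
        rw [hfG.fderiv_eq] at h2
        have h3 : HasDerivAt (fun t : ℝ => y + t • v) v t := by
          have h4 : HasDerivAt (fun t : ℝ => t • v) ((1 : ℝ) • v) t := (hasDerivAt_id t).smul_const v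
          rw [one_smul] at h4
          exact h4.const_add y
        have h5 := hGd.hasFDerivAt.comp_hasDerivAt t h3
        have h6 := (innerSL ℝ u).hasFDerivAt.comp_hasDerivAt t h5
        have h7 : deriv h t = ⟪u, fderiv ℝ G (y + t • v) v⟫ := h6.deriv
        rw [h7]
        exact h2
    rw [intervalIntegral.integral_const, sub_zero, one_smul, hint] at hle
    have e1 : h 1 - h 0 = ⟪u, f (y + v) - f y⟫ := by
      show ⟪u, G (y + (1 : ℝ) • v)⟫ - ⟪u, G (y + (0 : ℝ) • v)⟫ = _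
      rw [one_smul, zero_smul, add_zero, ← inner_sub_right, hEq hyb, hEq hyv]
    rwa [e1] at hle
  by_contra hcon
  rw [not_le] at hcon
  have hcx : ContinuousAt f x := hf.continuousOn.continuousAt (isOpen_ball.mem_nhds hx)
  have hcxv : ContinuousAt f (x + v) := hf.continuousOn.continuousAt (isOpen_ball.mem_nhds hxv)
  have hadd : ContinuousAt (fun y : E => y + v) x := by fun_prop
  have hc1 : ContinuousAt (fun y => f (y + v)) x := ContinuousAt.comp (f := fun y : E => y + v) hcxv hadd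
  have hc2 : ContinuousAt (fun y => ⟪u, f (y + v) - f y⟫) x :=
    continuousAt_const.inner (hc1.sub hcx)
  have ev1 := hc2.eventually_lt_const hcon
  have ev2 : ∀ᶠ y in 𝓝 x, y ∈ ball x₀ r := isOpen_ball.mem_nhds hx
  have ev3 : ∀ᶠ y in 𝓝 x, y + v ∈ ball x₀ r := hadd.eventually (isOpen_ball.mem_nhds hxv)
  have hd : Dense {y : E | ∀ᵐ t : ℝ, y + L t ∈ S} := Measure.dense_of_ae hae
  obtain ⟨y, hy1, hy2⟩ := (hd.inter_nhds_nonempty (ev1.and (ev2.and ev3)))
  exact absurd (hgood y hy1 hy2.2.1 hy2.2.2) (not_le.2 hy2.1)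

/-- the main theorem -/
theorem main [MeasurableSpace E] [BorelSpace E] (f : E → F) (x₀ : E)
    (hlip : ∃ K : ℝ≥0, ∃ U ∈ 𝓝 x₀, LipschitzOnWith K f U)
    (hsurj : ∀ A ∈ convexHull ℝ (J f x₀), Function.Surjective A) :
    ∃ V ∈ 𝓝 (f x₀), ∃ s : F → E, ∃ γ : ℝ, 0 < γ ∧ ContinuousOn s V ∧ s (f x₀) = x₀ ∧
      (∀ y ∈ V, f (s y) = y) ∧ ∀ y ∈ V, ‖s y - x₀‖ ≤ γ * ‖y - f x₀‖ := by
  have : CompleteSpace E := FiniteDimensional.complete ℝ E
  obtain ⟨K, U, hU, hfU⟩ := hlip
  obtain ⟨r0, hr0, hr0U⟩ := Metric.mem_nhds_iff.1 hU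
  have hf0 : LipschitzOnWith K f (ball x₀ r0) := hfU.mono hr0U
  have hJ := J_compact hr0 hf0
  obtain ⟨c, M, φ, hc, hM, hφc, hφ⟩ := exists_phi (compact_hull hJ) (convex_convexHull ℝ _) hsurj
  -- choose the radius
  obtain ⟨r, hr, hrr0, hnear⟩ := near_J hr0 hf0 (ε := c / (2 * M)) (by positivity)
  have hf : LipschitzOnWith K f (ball x₀ r) := hf0.mono (ball_subset_ball hrr0)
  have hφ0 : φ 0 = 0 := by
    have := (hφ 0).1
    rw [norm_zero, mul_zero] at this
    exact norm_le_zero_iff.1 this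
  -- increments
  have hinc : ∀ x ∈ ball x₀ r, ∀ w : F, ∀ τ : ℝ, 0 < τ → x + τ • φ w ∈ ball x₀ r →
      τ * (c / 2 * ‖w‖ ^ 2) ≤ ⟪w, f (x + τ • φ w) - f x⟫ := by
    intro x hx w τ hτ hxw
    apply increment hf w (τ • φ w) _ _ x hx hxw
    intro z hz hzd
    obtain ⟨B, hB, hBz⟩ := hnear z (mem_ball.1 hz) hzd
    have h1 := (hφ w).2 B (subset_convexHull ℝ _ hB)
    have h2 := (hφ w).1
    have h3 : |⟪w, (fderiv ℝ f z - B) (φ w)⟫| ≤ c / 2 * ‖w‖ ^ 2 := by
      refine (abs_real_inner_le_norm _ _).trans ?_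
      calc ‖w‖ * ‖(fderiv ℝ f z - B) (φ w)‖ ≤ ‖w‖ * ((c / (2 * M)) * (M * ‖w‖)) := by
            apply mul_le_mul_of_nonneg_left _ (norm_nonneg _)
            refine ((fderiv ℝ f z - B).le_opNorm _).trans ?_
            exact mul_le_mul hBz.le h2 (norm_nonneg _) (by positivity)
        _ = c / 2 * ‖w‖ ^ 2 := by field_simp
    have h4 := (abs_le.1 h3).1
    rw [ContinuousLinearMap.sub_apply, inner_sub_right] at h4
    rw [map_smul, inner_smul_right]
    apply mul_le_mul_of_nonneg_left _ hτ.le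
    linarith
  -- the step size
  obtain ⟨c', hc', hcc'⟩ : ∃ c' : ℝ, 0 < c' ∧ c' = c / 2 := ⟨c / 2, by positivity, rfl⟩
  rw [← hcc'] at hinc
  obtain ⟨τ, hτ, hτ1, hτ2⟩ : ∃ τ : ℝ, 0 < τ ∧ τ * ((K : ℝ) * M) ^ 2 ≤ c' ∧ τ * c' ≤ 1 / 2 := by
    refine ⟨min (c' / (((K : ℝ) * M) ^ 2 + 1)) (1 / (2 * c')), by positivity, ?_, ?_⟩
    · calc min (c' / (((K : ℝ) * M) ^ 2 + 1)) (1 / (2 * c')) * ((K : ℝ) * M) ^ 2
          ≤ c' / (((K : ℝ) * M) ^ 2 + 1) * ((K : ℝ) * M) ^ 2 := by
            apply mul_le_mul_of_nonneg_right (min_le_left _ _) (by positivity)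
        _ ≤ c' := by
            rw [div_mul_eq_mul_div, div_le_iff₀ (by positivity)]
            nlinarith
    · calc min (c' / (((K : ℝ) * M) ^ 2 + 1)) (1 / (2 * c')) * c'
          ≤ 1 / (2 * c') * c' := by
            apply mul_le_mul_of_nonneg_right (min_le_right _ _) hc'.le
        _ = 1 / 2 := by field_simp
  obtain ⟨θ, hθ0, hθ1, hθ2⟩ : ∃ θ : ℝ, 0 < θ ∧ θ < 1 ∧ θ ^ 2 = 1 - τ * c' := by
    refine ⟨Real.sqrt (1 - τ * c'), Real.sqrt_pos.2 (by linarith), ?_, Real.sq_sqrt (by linarith)⟩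
    rw [Real.sqrt_lt' one_pos]
    nlinarith [mul_pos hτ hc']
  -- contraction of the residual
  have hres : ∀ x ∈ ball x₀ r, ∀ y : F, x + τ • φ (y - f x) ∈ ball x₀ r →
      ‖y - f (x + τ • φ (y - f x))‖ ≤ θ * ‖y - f x‖ := by
    intro x hx y hxy
    obtain ⟨w, hw⟩ : ∃ w, w = y - f x := ⟨_, rfl⟩
    rw [← hw] at hxy ⊢
    have h1 := hinc x hx w τ hτ hxy
    have h2 : ‖f (x + τ • φ w) - f x‖ ≤ τ * (K * M) * ‖w‖ := by
      have h3 := hf.norm_sub_le hxy hx
      rw [add_sub_cancel_left, norm_smul, Real.norm_of_nonneg hτ.le] at h3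
      refine h3.trans ?_
      have h4 := (hφ w).1
      calc (K : ℝ) * (τ * ‖φ w‖) ≤ K * (τ * (M * ‖w‖)) := by gcongr
        _ = τ * (K * M) * ‖w‖ := by ring
    obtain ⟨D, hD⟩ : ∃ D, D = f (x + τ • φ w) - f x := ⟨_, rfl⟩
    rw [← hD] at h1 h2
    have h5 : y - f (x + τ • φ w) = w - D := by
      have h5' : y = w + f x := by rw [hw]; abel
      rw [hD, h5']
      abel
    rw [h5]
    have h6 : ‖w - D‖ ^ 2 = ‖w‖ ^ 2 - 2 * ⟪w, D⟫ + ‖D‖ ^ 2 := norm_sub_sq_real w D
    have h7 : ‖D‖ ^ 2 ≤ τ * c' * ‖w‖ ^ 2 := by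
      calc ‖D‖ ^ 2 ≤ (τ * (K * M) * ‖w‖) ^ 2 := pow_le_pow_left₀ (norm_nonneg _) h2 2
        _ = τ * (τ * ((K : ℝ) * M) ^ 2) * ‖w‖ ^ 2 := by ring
        _ ≤ τ * c' * ‖w‖ ^ 2 := by gcongr
    have h8 : ‖w - D‖ ^ 2 ≤ (θ * ‖w‖) ^ 2 := by
      rw [h6, mul_pow, hθ2]
      nlinarith
    exact le_of_sq_le_sq h8 (by positivity)
  -- the iteration
  let X : ℕ → F → E := fun k => Nat.rec (fun _ => x₀) (fun _ g y => g y + τ • φ (y - f (g y))) k
  have hX0 : ∀ y, X 0 y = x₀ := fun _ => rfl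
  have hXs : ∀ k y, X (k + 1) y = X k y + τ • φ (y - f (X k y)) := fun _ _ => rfl
  obtain ⟨γ, hγ⟩ : ∃ γ : ℝ, γ = τ * M / (1 - θ) := ⟨_, rfl⟩
  have hθ1' : 0 < 1 - θ := by linarith
  have hγ0 : 0 < γ := by rw [hγ]; positivity
  obtain ⟨ρ, hρ, hρ0⟩ : ∃ ρ : ℝ, ρ = r / (2 * γ) ∧ 0 < ρ := ⟨_, rfl, by positivity⟩
  have hγρ : γ * ρ < r := by
    rw [hρ]
    have : γ * (r / (2 * γ)) = r / 2 := by field_simp
    rw [this]; linarith
  have hgeom : ∀ k : ℕ, τ * M * ∑ j ∈ Finset.range k, θ ^ j ≤ γ := by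
    intro k
    rw [hγ, le_div_iff₀ hθ1', mul_assoc]
    have h1 : (∑ j ∈ Finset.range k, θ ^ j) * (1 - θ) = 1 - θ ^ k := by
      have := geom_sum_mul θ k
      linarith
    rw [h1]
    have h2 : 0 ≤ θ ^ k := by positivity
    have h3 : 0 < τ * M := by positivity
    nlinarith
  have hstep : ∀ y ∈ ball (f x₀) ρ, ∀ k : ℕ,
      ‖X k y - x₀‖ ≤ (τ * M * ∑ j ∈ Finset.range k, θ ^ j) * ‖y - f x₀‖ ∧
      ‖y - f (X k y)‖ ≤ θ ^ k * ‖y - f x₀‖ := by
    intro y hy k
    have hy' : ‖y - f x₀‖ < ρ := by rwa [mem_ball, dist_eq_norm] at hy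
    have hin : ∀ z : E, ‖z - x₀‖ ≤ γ * ‖y - f x₀‖ → z ∈ ball x₀ r := by
      intro z hz
      rw [mem_ball, dist_eq_norm]
      refine hz.trans_lt (lt_of_le_of_lt ?_ hγρ)
      gcongr
    induction k with
    | zero =>
      rw [hX0]
      simp
    | succ k ih =>
      have hXk : X k y ∈ ball x₀ r := by
        apply hin
        refine ih.1.trans ?_
        gcongr
        exact hgeom k
      have h1 : ‖X (k + 1) y - x₀‖ ≤
          (τ * M * ∑ j ∈ Finset.range (k + 1), θ ^ j) * ‖y - f x₀‖ := by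
        rw [hXs, Finset.sum_range_succ]
        have e1 : X k y + τ • φ (y - f (X k y)) - x₀ = (X k y - x₀) + τ • φ (y - f (X k y)) := by
          abel
        rw [e1]
        refine (norm_add_le _ _).trans ?_
        have h2 : ‖τ • φ (y - f (X k y))‖ ≤ τ * M * θ ^ k * ‖y - f x₀‖ := by
          rw [norm_smul, Real.norm_of_nonneg hτ.le]
          calc τ * ‖φ (y - f (X k y))‖ ≤ τ * (M * ‖y - f (X k y)‖) := by
                gcongr
                exact (hφ _).1
            _ ≤ τ * (M * (θ ^ k * ‖y - f x₀‖)) := by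
                gcongr
                exact ih.2
            _ = τ * M * θ ^ k * ‖y - f x₀‖ := by ring
        calc ‖X k y - x₀‖ + ‖τ • φ (y - f (X k y))‖
            ≤ (τ * M * ∑ j ∈ Finset.range k, θ ^ j) * ‖y - f x₀‖
              + τ * M * θ ^ k * ‖y - f x₀‖ := add_le_add ih.1 h2
          _ = _ := by ring
      refine ⟨h1, ?_⟩
      have hXk1 : X (k + 1) y ∈ ball x₀ r := by
        apply hin
        refine h1.trans ?_
        gcongr
        exact hgeom (k + 1)
      have h3 := hres (X k y) hXk y (by rw [← hXs]; exact hXk1)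
      rw [← hXs] at h3
      refine h3.trans ?_
      rw [pow_succ', mul_assoc]
      gcongr
      exact ih.2
  have hball : ∀ y ∈ ball (f x₀) ρ, ∀ z : E, ‖z - x₀‖ ≤ γ * ‖y - f x₀‖ → z ∈ ball x₀ r := by
    intro y hy z hz
    have hy' : ‖y - f x₀‖ < ρ := by rwa [mem_ball, dist_eq_norm] at hy
    rw [mem_ball, dist_eq_norm]
    refine hz.trans_lt (lt_of_le_of_lt ?_ hγρ)
    gcongr
  have hXγ : ∀ y ∈ ball (f x₀) ρ, ∀ k : ℕ, ‖X k y - x₀‖ ≤ γ * ‖y - f x₀‖ := by
    intro y hy k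
    refine (hstep y hy k).1.trans ?_
    gcongr
    exact hgeom k
  have hXball : ∀ y ∈ ball (f x₀) ρ, ∀ k : ℕ, X k y ∈ ball x₀ r :=
    fun y hy k => hball y hy _ (hXγ y hy k)
  have hXc : ∀ k, ContinuousOn (X k) (ball (f x₀) ρ) := by
    intro k
    induction k with
    | zero => exact continuousOn_const
    | succ k ih =>
      have h1 : ContinuousOn (fun y => f (X k y)) (ball (f x₀) ρ) :=
        hf.continuousOn.comp ih (fun y hy => hXball y hy k)
      have h2 : ContinuousOn (fun y => φ (y - f (X k y))) (ball (f x₀) ρ) :=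
        hφc.comp_continuousOn (continuousOn_id.sub h1)
      exact ih.add (h2.const_smul τ)
  have hterm : ∀ (k : ℕ) (y : F), y ∈ ball (f x₀) ρ →
      ‖τ • φ (y - f (X k y))‖ ≤ τ * M * ρ * θ ^ k := by
    intro k y hy
    have hy' : ‖y - f x₀‖ < ρ := by rwa [mem_ball, dist_eq_norm] at hy
    rw [norm_smul, Real.norm_of_nonneg hτ.le]
    calc τ * ‖φ (y - f (X k y))‖ ≤ τ * (M * ‖y - f (X k y)‖) := by
          gcongr
          exact (hφ _).1
      _ ≤ τ * (M * (θ ^ k * ρ)) := by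
          gcongr
          exact (hstep y hy k).2.trans (by gcongr)
      _ = τ * M * ρ * θ ^ k := by ring
  have hsumm : Summable (fun k : ℕ => τ * M * ρ * θ ^ k) :=
    (summable_geometric_of_lt_one hθ0.le hθ1).mul_left _
  let s : F → E := fun y => x₀ + ∑' k : ℕ, τ • φ (y - f (X k y))
  have hlim : ∀ y ∈ ball (f x₀) ρ, Tendsto (fun N => X N y) atTop (𝓝 (s y)) := by
    intro y hy
    have h1 : ∀ N : ℕ, X N y = x₀ + ∑ k ∈ Finset.range N, τ • φ (y - f (X k y)) := by
      intro N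
      induction N with
      | zero => rw [hX0]; simp
      | succ N ih => rw [hXs, Finset.sum_range_succ, ← add_assoc, ← ih]
    have h2 : Summable (fun k : ℕ => τ • φ (y - f (X k y))) :=
      Summable.of_norm_bounded hsumm (fun k => hterm k y hy)
    have h3 := h2.hasSum.tendsto_sum_nat.const_add x₀
    refine h3.congr (fun N => (h1 N).symm)
  have hsγ : ∀ y ∈ ball (f x₀) ρ, ‖s y - x₀‖ ≤ γ * ‖y - f x₀‖ := by
    intro y hy
    have h1 : Tendsto (fun N => ‖X N y - x₀‖) atTop (𝓝 ‖s y - x₀‖) :=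
      ((hlim y hy).sub_const x₀).norm
    exact le_of_tendsto h1 (Eventually.of_forall (fun N => hXγ y hy N))
  refine ⟨ball (f x₀) ρ, ball_mem_nhds _ hρ0, s, γ, hγ0, ?_, ?_, ?_, hsγ⟩
  · apply continuousOn_const.add
    apply continuousOn_tsum _ hsumm hterm
    intro k
    have h1 : ContinuousOn (fun y => f (X k y)) (ball (f x₀) ρ) :=
      hf.continuousOn.comp (hXc k) (fun y hy => hXball y hy k)
    exact (hφc.comp_continuousOn (continuousOn_id.sub h1)).const_smul τ
  · have h1 := hsγ (f x₀) (mem_ball_self hρ0)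
    rw [sub_self, norm_zero, mul_zero] at h1
    exact sub_eq_zero.1 (norm_le_zero_iff.1 h1)
  · intro y hy
    have hsb : s y ∈ ball x₀ r := hball y hy _ (hsγ y hy)
    have h1 : Tendsto (fun N => f (X N y)) atTop (𝓝 (f (s y))) :=
      (hf.continuousOn.continuousAt (isOpen_ball.mem_nhds hsb)).tendsto.comp (hlim y hy)
    have h2 : Tendsto (fun N => f (X N y)) atTop (𝓝 y) := by
      rw [tendsto_iff_norm_sub_tendsto_zero]
      have h3 : Tendsto (fun N : ℕ => θ ^ N * ‖y - f x₀‖) atTop (𝓝 0) := by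
        have := (tendsto_pow_atTop_nhds_zero_of_lt_one hθ0.le hθ1).mul_const ‖y - f x₀‖
        rwa [zero_mul] at this
      refine squeeze_zero (fun N => norm_nonneg _) (fun N => ?_) h3
      rw [norm_sub_rev]
      exact (hstep y hy N).2
    exact tendsto_nhds_unique h1 h2

end

end Pool.Agent.H431R2.Clarke
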