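import Mathlib

/-! Dyadic step functions: basic integrals against high-frequency periodic functions. -/

set_option autoImplicit false

namespace Pool.Agent.H431R2.ONS
open MeasureTheory Filter Topology Set

/-- `h` depends only on `⌊2^n t⌋`. -/
def Dy (n : ℕ) (h : ℝ → ℝ) : Prop := ∀ s t : ℝ, ⌊(2:ℝ)^n * s⌋ = ⌊(2:ℝ)^n * t⌋ → h s = h t

lemma floor_pow_mono {n m : ℕ} (hnm : n ≤ m) {s t : ℝ} (h : ⌊(2:ℝ)^m * s⌋ = ⌊(2:ℝ)^m * t⌋) :
    ⌊(2:ℝ)^n * s⌋ = ⌊(2:ℝ)^n * t⌋ := by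
  obtain ⟨d, rfl⟩ := Nat.exists_eq_add_of_le hnm
  have key : ∀ x : ℝ, ⌊(2:ℝ)^n * x⌋ = ⌊(2:ℝ)^(n+d) * x⌋ / ((2^d : ℕ) : ℤ) := by
    intro x
    rw [← Int.floor_div_natCast]
    congr 1
    push_cast
    rw [pow_add]
    field_simp
  rw [key, key, h]

lemma Dy.mono {n m : ℕ} (hnm : n ≤ m) {h : ℝ → ℝ} (hh : Dy n h) : Dy m h :=
  fun s t hst => hh s t (floor_pow_mono hnm hst)

lemma Dy.mul {n : ℕ} {f g : ℝ → ℝ} (hf : Dy n f) (hg : Dy n g) : Dy n (fun t => f t * g t) :=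
  fun s t hst => by simp only [hf s t hst, hg s t hst]

lemma Dy.const (n : ℕ) (c : ℝ) : Dy n (fun _ => c) := fun _ _ _ => rfl

lemma Dy.comp_mul {n : ℕ} (m : ℕ) {h : ℝ → ℝ} (hh : Dy n h) :
    Dy (m + n) (fun t => h (2^m * t)) := by
  intro s t hst
  apply hh
  rw [← mul_assoc, ← mul_assoc, ← pow_add, add_comm n m]
  exact hst

/-- The algebra of bounded measurable functions. -/
def BM : Subalgebra ℝ (ℝ → ℝ) where
  carrier := {F | Measurable F ∧ ∃ C, ∀ t, |F t| ≤ C}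
  mul_mem' := by
    rintro f g ⟨hf, C, hC⟩ ⟨hg, D, hD⟩
    refine ⟨hf.mul hg, C * D, fun t => ?_⟩
    rw [Pi.mul_apply, abs_mul]
    exact mul_le_mul (hC t) (hD t) (abs_nonneg _) ((abs_nonneg _).trans (hC t))
  add_mem' := by
    rintro f g ⟨hf, C, hC⟩ ⟨hg, D, hD⟩
    refine ⟨hf.add hg, C + D, fun t => ?_⟩
    rw [Pi.add_apply]
    exact (abs_add_le _ _).trans (add_le_add (hC t) (hD t))
  algebraMap_mem' := by
    intro r
    exact ⟨measurable_const, |r|, fun t => le_refl _⟩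

lemma mem_BM {F : ℝ → ℝ} : F ∈ BM ↔ Measurable F ∧ ∃ C, ∀ t, |F t| ≤ C := Iff.rfl

lemma BM_meas {F : ℝ → ℝ} (h : F ∈ BM) : Measurable F := h.1

lemma BM_comp {F : ℝ → ℝ} (h : F ∈ BM) {g : ℝ → ℝ} (hg : Measurable g) :
    (fun t => F (g t)) ∈ BM := by
  obtain ⟨h1, C, hC⟩ := h
  exact ⟨h1.comp hg, C, fun t => hC _⟩

lemma BM_mul {F G : ℝ → ℝ} (h : F ∈ BM) (h' : G ∈ BM) : (fun t => F t * G t) ∈ BM :=
  BM.mul_mem h h'

lemma BM_const (c : ℝ) : (fun _ : ℝ => c) ∈ BM := ⟨measurable_const, |c|, fun _ => le_refl _⟩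

lemma BM_ii {F : ℝ → ℝ} (h : F ∈ BM) (a b : ℝ) : IntervalIntegrable F volume a b := by
  obtain ⟨h1, C, hC⟩ := h
  rw [intervalIntegrable_iff]
  refine Measure.integrableOn_of_bounded (M := C) ?_ h1.aestronglyMeasurable ?_
  · simp [Set.uIoc]
  · exact Eventually.of_forall (fun t => by simpa using hC t)

lemma BM_memLp {F : ℝ → ℝ} (h : F ∈ BM) :
    MemLp F 2 (volume.restrict (Set.Icc (0:ℝ) 1)) := by
  obtain ⟨h1, C, hC⟩ := h
  exact MemLp.of_bound h1.aestronglyMeasurable C (Eventually.of_forall (fun t => by simpa using hC t))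

/-- decomposition of an integral along a dyadic step function -/
lemma decomp {n : ℕ} {h g : ℝ → ℝ} (hh : Dy n h) (hb : h ∈ BM) (hg : g ∈ BM) :
    ∫ t in (0:ℝ)..1, h t * g t
      = ∑ i ∈ Finset.range (2^n), h (i/2^n) * ∫ t in ((i:ℝ)/2^n)..(((i:ℕ)+1:ℝ)/2^n), g t := by
  have h1 := intervalIntegral.sum_integral_adjacent_intervals (μ := volume)
    (f := fun t => h t * g t) (a := fun i : ℕ => (i:ℝ)/2^n) (n := 2^n)
    (fun k _ => BM_ii (BM_mul hb hg) _ _)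
  have h2 : ((2^n : ℕ) : ℝ) / 2^n = 1 := by push_cast; field_simp
  rw [h2] at h1
  have h3 : ((0:ℕ):ℝ) / 2^n = 0 := by simp
  rw [h3] at h1
  rw [← h1]
  refine Finset.sum_congr rfl (fun i _ => ?_)
  rw [← intervalIntegral.integral_const_mul]
  push_cast
  apply intervalIntegral.integral_congr_Ioo_of_le
  · gcongr; linarith
  · intro t ht
    have h4 : h t = h (i/2^n) := by
      apply hh
      have e1 : (2:ℝ)^n * (i/2^n) = (i:ℤ) := by push_cast; field_simp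
      rw [e1, Int.floor_intCast, Int.floor_eq_iff]
      have hp : (0:ℝ) < 2^n := by positivity
      obtain ⟨ht1, ht2⟩ := ht
      rw [div_lt_iff₀ hp] at ht1
      rw [lt_div_iff₀ hp] at ht2
      push_cast
      constructor <;> nlinarith
    simp only [h4]

lemma int_periodic {W : ℝ → ℝ} (hW : Function.Periodic W 1) (n i : ℕ) :
    ∫ t in ((i:ℝ)/2^n)..(((i:ℕ)+1:ℝ)/2^n), W (2^n * t) = (1/2^n) * ∫ t in (0:ℝ)..1, W t := by
  have hp : (2:ℝ)^n ≠ 0 := by positivity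
  rw [intervalIntegral.integral_comp_mul_left _ hp]
  have e1 : (2:ℝ)^n * ((i:ℝ)/2^n) = (i:ℝ) := by field_simp
  have e2 : (2:ℝ)^n * (((i:ℝ)+1)/2^n) = (i:ℝ) + 1 := by field_simp
  rw [e1, e2, hW.intervalIntegral_add_eq (i:ℝ) 0]
  simp

/-- product formula -/
lemma PL {n : ℕ} {h W : ℝ → ℝ} (hh : Dy n h) (hb : h ∈ BM) (hW : W ∈ BM)
    (hp : Function.Periodic W 1) :
    ∫ t in (0:ℝ)..1, h t * W (2^n * t) = (∫ t in (0:ℝ)..1, h t) * ∫ t in (0:ℝ)..1, W t := by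
  rw [decomp hh hb (BM_comp hW (measurable_const_mul _))]
  simp only [int_periodic hp]
  have h1 := decomp hh hb (BM_const 1)
  simp only [mul_one] at h1
  rw [h1, Finset.sum_mul]
  refine Finset.sum_congr rfl (fun i _ => ?_)
  simp only [intervalIntegral.integral_const, smul_eq_mul]
  ring

lemma int_dy {n : ℕ} {h : ℝ → ℝ} (hh : Dy n h) (hb : h ∈ BM) :
    ∫ t in (0:ℝ)..1, h t = (∑ i ∈ Finset.range (2^n), h (i/2^n)) / 2^n := by
  have h1 := decomp hh hb (BM_const 1)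
  simp only [mul_one] at h1
  rw [h1, Finset.sum_div]
  refine Finset.sum_congr rfl (fun i _ => ?_)
  simp only [intervalIntegral.integral_const, smul_eq_mul]
  ring

/-- Lipschitz functions have tiny correlation with high frequency -/
lemma lip_small {n : ℕ} {f h W : ℝ → ℝ} (hh : Dy n h) (hb : h ∈ BM) (hf : f ∈ BM)
    (hW : W ∈ BM) (hp : Function.Periodic W 1) (hW0 : ∫ t in (0:ℝ)..1, W t = 0)
    (hW1 : ∀ t, |W t| ≤ 1) {Λ B : ℝ} (hΛ : ∀ s ∈ Icc (0:ℝ) 1, ∀ t ∈ Icc (0:ℝ) 1,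
      |f s - f t| ≤ Λ * |s - t|) (hB : ∀ t, |h t| ≤ B) :
    |∫ t in (0:ℝ)..1, f t * (h t * W (2^n * t))| ≤ B * Λ / 2^n := by
  have hB0 : 0 ≤ B := (abs_nonneg _).trans (hB 0)
  have hΛ0 : 0 ≤ Λ := by
    have := hΛ 0 (by simp) 1 (by simp)
    simp only [zero_sub, abs_neg, abs_one, mul_one] at this
    exact (abs_nonneg _).trans this
  have hWn : (fun t => W (2^n * t)) ∈ BM := BM_comp hW (measurable_const_mul _)
  have e0 : ∀ t, f t * (h t * W (2^n * t)) = h t * (f t * W (2^n * t)) := fun t => by ring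
  simp only [e0]
  rw [decomp hh hb (BM_mul hf hWn)]
  have hp2 : (0:ℝ) < 2^n := by positivity
  have key : ∀ i ∈ Finset.range (2^n),
      |h (i/2^n) * ∫ t in ((i:ℝ)/2^n)..(((i:ℕ)+1:ℝ)/2^n), f t * W (2^n * t)|
        ≤ B * Λ / 2^n * (1/2^n) := by
    intro i hi
    have hi' : (i:ℝ) + 1 ≤ 2^n := by
      have := Finset.mem_range.mp hi
      exact_mod_cast this
    have hle : (i:ℝ)/2^n ≤ ((i:ℝ)+1)/2^n := by gcongr; linarith
    have i0 : (0:ℝ) ≤ (i:ℝ)/2^n := by positivity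
    have i1 : ((i:ℝ)+1)/2^n ≤ 1 := by rw [div_le_one hp2]; exact hi'
    have e1 : ∫ t in ((i:ℝ)/2^n)..(((i:ℕ)+1:ℝ)/2^n), f t * W (2^n * t)
        = ∫ t in ((i:ℝ)/2^n)..(((i:ℕ)+1:ℝ)/2^n), (f t - f (i/2^n)) * W (2^n * t) := by
      have : ∫ t in ((i:ℝ)/2^n)..(((i:ℕ)+1:ℝ)/2^n), (f t - f (i/2^n)) * W (2^n * t)
          = (∫ t in ((i:ℝ)/2^n)..(((i:ℕ)+1:ℝ)/2^n), f t * W (2^n * t))
            - ∫ t in ((i:ℝ)/2^n)..(((i:ℕ)+1:ℝ)/2^n), f (i/2^n) * W (2^n * t) := by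
        rw [← intervalIntegral.integral_sub (BM_ii (BM_mul hf hWn) _ _)
          (BM_ii (BM_mul (BM_const _) hWn) _ _)]
        congr 1; ext t; ring
      rw [this, intervalIntegral.integral_const_mul, int_periodic hp, hW0]
      simp
    rw [abs_mul, e1]
    have e2 : |∫ t in ((i:ℝ)/2^n)..(((i:ℕ)+1:ℝ)/2^n), (f t - f (i/2^n)) * W (2^n * t)|
        ≤ Λ * (1/2^n) * |((i:ℝ)+1)/2^n - (i:ℝ)/2^n| := by
      rw [← Real.norm_eq_abs]
      apply intervalIntegral.norm_integral_le_of_norm_le_const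
      intro t ht
      rw [Set.uIoc_of_le hle] at ht
      rw [Real.norm_eq_abs, abs_mul]
      have t1 : |f t - f (i/2^n)| ≤ Λ * (1/2^n) := by
        refine (hΛ t ⟨i0.trans ht.1.le, ht.2.trans i1⟩ _ ⟨i0, hle.trans i1⟩).trans ?_
        gcongr
        rw [abs_of_nonneg (by linarith [ht.1])]
        have := ht.2
        rw [add_div] at this
        linarith
      calc |f t - f (i/2^n)| * |W (2^n * t)| ≤ (Λ * (1/2^n)) * 1 :=
            mul_le_mul t1 (hW1 _) (abs_nonneg _) (by positivity)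
        _ = Λ * (1/2^n) := mul_one _
    have e3 : |((i:ℝ)+1)/2^n - (i:ℝ)/2^n| = 1/2^n := by
      rw [← sub_div]; simp
    rw [e3] at e2
    calc |h (i/2^n)| * |∫ t in ((i:ℝ)/2^n)..(((i:ℕ)+1:ℝ)/2^n), (f t - f (i/2^n)) * W (2^n * t)|
        ≤ B * (Λ * (1/2^n) * (1/2^n)) :=
          mul_le_mul (hB _) e2 (abs_nonneg _) hB0
      _ = B * Λ / 2^n * (1/2^n) := by ring
  refine (Finset.abs_sum_le_sum_abs _ _).trans ((Finset.sum_le_sum key).trans ?_)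
  rw [Finset.sum_const, Finset.card_range, nsmul_eq_mul]
  push_cast
  apply le_of_eq
  field_simp

/-- bounded by finitely many values -/
lemma Dy.measurable {n : ℕ} {h : ℝ → ℝ} (hh : Dy n h) : Measurable h := by
  have e : h = (fun z : ℤ => h ((z:ℝ)/2^n)) ∘ (fun t : ℝ => ⌊(2:ℝ)^n * t⌋) := by
    ext t
    apply hh
    have : (2:ℝ)^n * (((⌊(2:ℝ)^n * t⌋ : ℤ) : ℝ)/2^n) = ((⌊(2:ℝ)^n * t⌋ : ℤ) : ℝ) := by field_simp
    simp only [this, Int.floor_intCast]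
  rw [e]
  exact (measurable_from_top).comp (Int.measurable_floor.comp (measurable_const_mul _))

lemma Dy.mem_BM {n : ℕ} {h : ℝ → ℝ} (hh : Dy n h) {C : ℝ} (hC : ∀ t, |h t| ≤ C) : h ∈ BM :=
  ⟨hh.measurable, C, hC⟩

end Pool.Agent.H431R2.ONS
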