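import Pool.Agent.H431R2.Block

/-! Estimates for analytic functions. -/

set_option autoImplicit false

namespace Pool.Agent.H431R2.ONS
open MeasureTheory Filter Topology Set

attribute [local irreducible] RR NN LL gm gA gU gq

/-- integral against `vv` -/
lemma int_mul_vv {F : ℝ → ℝ} (hF : F ∈ BM) (κ : ℕ) :
    ∫ t in (0:ℝ)..1, F t * vv κ t
      = √(2^(κ+1)) * ∫ t in ((1:ℝ)/2^(κ+1))..((1+1:ℝ)/2^(κ+1)), F t := by
  have e : ∀ t, F t * vv κ t = vv κ t * F t := fun t => mul_comm _ _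
  simp only [e]
  rw [decomp (vv_dy κ) (vv_BM κ) hF]
  rw [Finset.sum_eq_single 1]
  · have : vv κ (((1:ℕ):ℝ)/2^(κ+1)) = √(2^(κ+1)) := by
      unfold vv; rw [floor_node]; simp
    rw [this]; simp
  · intro i _ hi
    have : vv κ ((i:ℝ)/2^(κ+1)) = 0 := by
      unfold vv; rw [floor_node]
      have : ¬ ((i:ℤ) = 1) := by exact_mod_cast hi
      simp [this]
    rw [this, zero_mul]
  · intro h
    exfalso
    apply h
    rw [Finset.mem_range]
    exact Nat.one_lt_two_pow (by omega)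

lemma analytic_data {f : ℝ → ℝ} (hf : AnalyticOnNhd ℝ f (Icc 0 1))
    (hne : ∃ x ∈ Icc (0:ℝ) 1, f x ≠ 0) :
    ∃ F ∈ BM, (∀ t ∈ Icc (0:ℝ) 1, F t = f t) ∧
      (∃ Λ : ℝ, ∀ s ∈ Icc (0:ℝ) 1, ∀ t ∈ Icc (0:ℝ) 1, |F s - F t| ≤ Λ * |s - t|) ∧
      ∃ K : ℕ, ∀ κ ≥ K, (1:ℝ)/2^(κ^2) ≤ |∫ t in (0:ℝ)..1, F t * vv κ t| := by
  let F : ℝ → ℝ := fun t => f (max 0 (min 1 t))
  have hmem : ∀ t : ℝ, max 0 (min 1 t) ∈ Icc (0:ℝ) 1 := fun t =>
    ⟨le_max_left _ _, max_le zero_le_one (min_le_left _ _)⟩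
  have hFf : ∀ t ∈ Icc (0:ℝ) 1, F t = f t := by
    intro t ht
    simp only [F]
    rw [min_eq_right ht.2, max_eq_right ht.1]
  have hFc : Continuous F :=
    hf.continuousOn.comp_continuous (by fun_prop) hmem
  obtain ⟨C, hC⟩ := isCompact_Icc.exists_bound_of_continuousOn hf.continuousOn
  have hFB : F ∈ BM := ⟨hFc.measurable, C, fun t => by simpa using hC _ (hmem t)⟩
  obtain ⟨Λ, hΛ⟩ := isCompact_Icc.exists_bound_of_continuousOn hf.deriv.continuousOn
  refine ⟨F, hFB, hFf, ⟨Λ, ?_⟩, ?_⟩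
  · intro s hs t ht
    rw [hFf s hs, hFf t ht]
    have := (convex_Icc (0:ℝ) 1).norm_image_sub_le_of_norm_deriv_le (f := f) (C := Λ)
      (fun x hx => (hf x hx).differentiableAt) hΛ ht hs
    simpa using this
  · have h0 : (0:ℝ) ∈ Icc (0:ℝ) 1 := by simp
    have hnz : ¬ ∀ᶠ z in 𝓝 (0:ℝ), f z = 0 := by
      intro h
      obtain ⟨x, hx, hfx⟩ := hne
      exact hfx (hf.eqOn_zero_of_preconnected_of_eventuallyEq_zero isPreconnected_Icc h0 h hx)
    obtain ⟨r, g, hg, hg0, hfg⟩ := (hf 0 h0).exists_eventuallyEq_pow_smul_nonzero_iff.mpr hnz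
    have hgc : ∀ᶠ z in 𝓝 (0:ℝ), |g z - g 0| < |g 0| / 2 := by
      have hpos : 0 < |g 0| / 2 := by have := abs_pos.mpr hg0; positivity
      have := hg.continuousAt
      rw [Metric.continuousAt_iff'] at this
      simpa [Real.dist_eq] using this _ hpos
    obtain ⟨ε, hε, hball⟩ := Metric.eventually_nhds_iff.mp (hfg.and hgc)
    have hγ : 0 < |g 0| / 2 := by have := abs_pos.mpr hg0; positivity
    obtain ⟨p, hp⟩ := exists_pow_lt_of_lt_one hγ (show (1/2:ℝ) < 1 by norm_num)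
    obtain ⟨K0, hK0⟩ := exists_pow_lt_of_lt_one hε (show (1/2:ℝ) < 1 by norm_num)
    refine ⟨max K0 (r + p + 3), fun κ hκ => ?_⟩
    have hκ0 : K0 ≤ κ := (le_max_left _ _).trans hκ
    have hκ1 : r + p + 3 ≤ κ := (le_max_right _ _).trans hκ
    have hsmall : (1+1:ℝ)/2^(κ+1) < ε := by
      have : (1+1:ℝ)/2^(κ+1) = (1/2)^κ := by rw [pow_succ, one_div_pow]; field_simp; norm_num
      rw [this]
      exact lt_of_le_of_lt (pow_le_pow_of_le_one (by norm_num) (by norm_num) hκ0) hK0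
    have hle1 : (1+1:ℝ)/2^(κ+1) ≤ 1 := by
      rw [div_le_one (by positivity)]
      calc (1+1:ℝ) = 2^1 := by norm_num
        _ ≤ 2^(κ+1) := pow_le_pow_right₀ (by norm_num) (by omega)
    set A : ℝ := 1/2^(κ+1) with hA
    have hA0 : 0 < A := by positivity
    have hAB : A ≤ (1+1:ℝ)/2^(κ+1) := by rw [hA]; gcongr; norm_num
    have hlen : (1+1:ℝ)/2^(κ+1) - A = A := by rw [hA, add_div]; ring
    have hbound : ∀ t ∈ Icc A ((1+1:ℝ)/2^(κ+1)), A^r * (g 0 ^2 / 2) ≤ g 0 * F t := by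
      intro t ht
      have ht0 : 0 ≤ t := hA0.le.trans ht.1
      have ht1 : t ≤ 1 := ht.2.trans hle1
      obtain ⟨e1, e2⟩ := @hball t (by rw [Real.dist_eq, sub_zero, abs_of_nonneg ht0]; linarith [ht.2])
      rw [hFf t ⟨ht0, ht1⟩, e1, sub_zero, smul_eq_mul]
      have e3 : g 0 ^2/2 ≤ g 0 * g t := by
        have h1 : g 0 * g t = g 0^2 + g 0 * (g t - g 0) := by ring
        have h2 : |g 0 * (g t - g 0)| ≤ |g 0| * (|g 0|/2) := by
          rw [abs_mul]; exact mul_le_mul_of_nonneg_left e2.le (abs_nonneg _)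
        have h3 := neg_abs_le (g 0 * (g t - g 0))
        have h4 : |g 0| * (|g 0|/2) = g 0 ^2/2 := by
          rw [← sq_abs]; ring
        rw [h1]; linarith
      have e4 : A^r ≤ t^r := pow_le_pow_left₀ hA0.le ht.1 r
      calc A^r * (g 0^2/2) ≤ t^r * (g 0 * g t) :=
            mul_le_mul e4 e3 (by positivity) (pow_nonneg ht0 r)
        _ = g 0 * (t^r * g t) := by ring
    have hint : A^(r+1) * (g 0^2/2) ≤ g 0 * ∫ t in A..((1+1:ℝ)/2^(κ+1)), F t := by
      rw [← intervalIntegral.integral_const_mul]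
      have h1 := intervalIntegral.integral_mono_on (a := A) (b := (1+1:ℝ)/2^(κ+1)) (μ := volume)
        hAB (f := fun _ => A^r * (g 0^2/2)) (g := fun t => g 0 * F t)
        (BM_ii (BM_const _) _ _) (BM_ii (BM_mul (BM_const _) hFB) _ _) hbound
      rw [intervalIntegral.integral_const, hlen, smul_eq_mul] at h1
      calc A^(r+1) * (g 0^2/2) = A * (A^r * (g 0^2/2)) := by rw [pow_succ]; ring
        _ ≤ _ := h1
    have hint2 : A^(r+1) * (|g 0|/2) ≤ |∫ t in A..((1+1:ℝ)/2^(κ+1)), F t| := by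
      have hg0' : 0 < |g 0| := abs_pos.mpr hg0
      have h1 : A^(r+1) * (g 0^2/2) ≤ |g 0| * |∫ t in A..((1+1:ℝ)/2^(κ+1)), F t| := by
        rw [← abs_mul]; exact hint.trans (le_abs_self _)
      rw [← sq_abs] at h1
      have h2 : |g 0| * (A^(r+1) * (|g 0|/2)) ≤ |g 0| * |∫ t in A..((1+1:ℝ)/2^(κ+1)), F t| := by
        calc |g 0| * (A^(r+1) * (|g 0|/2)) = A^(r+1) * (|g 0|^2/2) := by ring
          _ ≤ _ := h1
      exact le_of_mul_le_mul_left h2 hg0'
    rw [int_mul_vv hFB, abs_mul, abs_of_nonneg (Real.sqrt_nonneg _)]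
    have hsq : (1:ℝ) ≤ √(2^(κ+1)) := by
      rw [Real.one_le_sqrt]; exact one_le_pow₀ (by norm_num)
    have hpow : (1:ℝ)/2^(κ^2) ≤ A^(r+1) * (|g 0|/2) := by
      have e1 : (κ+1)*(r+1) + p ≤ κ^2 := by nlinarith
      have e2 : (1:ℝ)/2^(κ^2) = (1/2)^(κ^2) := by rw [one_div_pow]
      have e3 : A^(r+1) = (1/2)^((κ+1)*(r+1)) := by rw [hA, ← one_div_pow, pow_mul]
      rw [e2, e3]
      calc (1/2:ℝ)^(κ^2) ≤ (1/2)^((κ+1)*(r+1) + p) :=
            pow_le_pow_of_le_one (by norm_num) (by norm_num) e1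
        _ = (1/2)^((κ+1)*(r+1)) * (1/2)^p := pow_add _ _ _
        _ ≤ _ := mul_le_mul_of_nonneg_left hp.le (by positivity)
    calc (1:ℝ)/2^(κ^2) ≤ 1 * |∫ t in A..((1+1:ℝ)/2^(κ+1)), F t| := by
          rw [one_mul]; exact hpow.trans hint2
      _ ≤ _ := mul_le_mul_of_nonneg_right hsq (abs_nonneg _)

/-- the numerical lemma -/
lemma num {m l : ℕ} {a x d : ℕ → ℝ} {β D X : ℝ} (hl : l ≤ m)
    (ha : ∑ j ∈ Finset.range m, a j ^ 2 = 1) (hd : ∀ j < m, |d j| ≤ D)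
    (hx : ∀ j < m, |x j| ≤ X) (hm : 0 < m) {u s : ℝ} (_hu : u = ∑ j ∈ Finset.range m, a j * x j)
    (hs : s = ∑ j ∈ Finset.range l, a j * x j) (hsu : |u| ≤ |s|) :
    (|β| - m * D) * (|s| - |u|) - m * (D * X) - m * D * |u| ≤
      |∑ j ∈ Finset.range l, (d j - a j * ((∑ i ∈ Finset.range m, a i * d i) - β)) *
        (x j - a j * u)| := by
  have hD0 : 0 ≤ D := (abs_nonneg _).trans (hd 0 hm)
  have hX0 : 0 ≤ X := (abs_nonneg _).trans (hx 0 hm)
  have hsub : Finset.range l ⊆ Finset.range m := by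
    intro j hj; rw [Finset.mem_range] at *; omega
  have ha1 : ∀ j < m, |a j| ≤ 1 := by
    intro j hj
    have : a j ^2 ≤ 1 := by
      rw [← ha]
      exact Finset.single_le_sum (f := fun j => a j ^2) (fun i _ => sq_nonneg _)
        (Finset.mem_range.mpr hj)
    rw [← sq_abs] at this
    nlinarith [abs_nonneg (a j)]
  have hlm : (l:ℝ) ≤ m := by exact_mod_cast hl
  set lam := (∑ i ∈ Finset.range m, a i * d i) - β with hlam
  set P1 := ∑ j ∈ Finset.range l, d j * x j with hP1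
  set P2 := ∑ j ∈ Finset.range l, d j * a j with hP2
  set θ := ∑ j ∈ Finset.range l, a j ^2 with hθ
  have hb : ∀ (n : ℕ) (w : ℕ → ℝ) (B : ℝ), (∀ j < n, |w j| ≤ B) →
      |∑ j ∈ Finset.range n, w j| ≤ n * B := by
    intro n w B hw
    refine (Finset.abs_sum_le_sum_abs _ _).trans ?_
    refine (Finset.sum_le_sum (fun j hj => hw j (Finset.mem_range.mp hj))).trans ?_
    simp
  have h1 : |P1| ≤ m * (D * X) := by
    refine (hb l _ (D*X) (fun j hj => ?_)).trans ?_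
    · rw [abs_mul]
      exact mul_le_mul (hd j (by omega)) (hx j (by omega)) (abs_nonneg _) hD0
    · exact mul_le_mul_of_nonneg_right hlm (by positivity)
  have h2 : |P2| ≤ m * D := by
    refine (hb l _ D (fun j hj => ?_)).trans ?_
    · rw [abs_mul]
      calc |d j| * |a j| ≤ D * 1 :=
            mul_le_mul (hd j (by omega)) (ha1 j (by omega)) (abs_nonneg _) hD0
        _ = D := mul_one _
    · exact mul_le_mul_of_nonneg_right hlm hD0
  have h3 : |∑ i ∈ Finset.range m, a i * d i| ≤ m * D := by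
    refine (hb m _ D (fun j hj => ?_))
    rw [abs_mul]
    calc |a j| * |d j| ≤ 1 * D :=
            mul_le_mul (ha1 j hj) (hd j hj) (abs_nonneg _) (by norm_num)
        _ = D := one_mul _
  have hθ0 : 0 ≤ θ := Finset.sum_nonneg (fun i _ => sq_nonneg _)
  have hθ1 : θ ≤ 1 := by
    rw [← ha]
    exact Finset.sum_le_sum_of_subset_of_nonneg hsub (fun i _ _ => sq_nonneg _)
  have hlam1 : |β| - m * D ≤ |lam| := by
    have : β = (∑ i ∈ Finset.range m, a i * d i) - lam := by rw [hlam]; ring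
    have h4 : |β| ≤ |∑ i ∈ Finset.range m, a i * d i| + |lam| := by
      rw [this]; exact abs_sub _ _
    linarith
  have hexp : ∑ j ∈ Finset.range l, (d j - a j * lam) * (x j - a j * u)
      = P1 - u * P2 - lam * (s - u * θ) := by
    have : ∀ j, (d j - a j * lam) * (x j - a j * u)
        = d j * x j - u * (d j * a j) - lam * (a j * x j) + lam * u * (a j ^2) := by
      intro j; ring
    simp only [this, Finset.sum_add_distrib, Finset.sum_sub_distrib, ← Finset.mul_sum]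
    rw [hs]; ring
  rw [hexp]
  have h5 : |s| - |u| ≤ |s - u * θ| := by
    have h6 : |u * θ| ≤ |u| := by
      rw [abs_mul, abs_of_nonneg hθ0]
      exact mul_le_of_le_one_right (abs_nonneg _) hθ1
    have := abs_sub_abs_le_abs_sub s (u * θ)
    linarith
  have h7 : (|β| - m * D) * (|s| - |u|) ≤ |lam * (s - u * θ)| := by
    rw [abs_mul]
    calc (|β| - m * D) * (|s| - |u|) ≤ |lam| * (|s| - |u|) :=
          mul_le_mul_of_nonneg_right hlam1 (by linarith)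
      _ ≤ |lam| * |s - u * θ| := mul_le_mul_of_nonneg_left h5 (abs_nonneg _)
  have h8 : |u * P2| ≤ m * D * |u| := by
    rw [abs_mul, mul_comm]
    exact mul_le_mul_of_nonneg_right h2 (abs_nonneg _)
  have h9 : |lam * (s - u * θ)| ≤ |P1 - u * P2 - lam * (s - u * θ)| + |P1| + |u * P2| := by
    have e : lam * (s - u * θ) = -(P1 - u * P2 - lam * (s - u * θ)) + P1 - u * P2 := by ring
    calc |lam * (s - u * θ)| = |-(P1 - u * P2 - lam * (s - u * θ)) + P1 - u * P2| := by rw [← e]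
      _ ≤ |-(P1 - u * P2 - lam * (s - u * θ)) + P1| + |u * P2| := abs_sub _ _
      _ ≤ |-(P1 - u * P2 - lam * (s - u * θ))| + |P1| + |u * P2| := by
          have := abs_add_le (-(P1 - u * P2 - lam * (s - u * θ))) P1
          linarith
      _ = _ := by rw [abs_neg]
  linarith

lemma gq_sqrt {κ j : ℕ} (hκ : 0 < κ) (hj : j < gm (NN κ)) :
    |cc κ / √(gq (NN κ) j)| ≤ 2 * 2^(NN κ) := by
  have hc := cc_le hκ
  have hc0 := cc_pos hκ
  have hq := gq_pos hj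
  have h1 : (1:ℝ)/2^(NN κ) ≤ √(gq (NN κ) j) := by
    apply Real.le_sqrt_of_sq_le
    refine le_trans ?_ hq
    have : (1:ℝ)/2^(NN κ) ≤ 1 := by
      rw [div_le_one (by positivity)]; exact one_le_pow₀ (by norm_num)
    have h0 : (0:ℝ) ≤ 1/2^(NN κ) := by positivity
    nlinarith
  have h2 : (0:ℝ) < √(gq (NN κ) j) := lt_of_lt_of_le (by positivity) h1
  rw [abs_of_nonneg (by positivity), div_le_iff₀ h2]
  have h3 : (1:ℝ) = 2^(NN κ) * (1/2^(NN κ)) := by field_simp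
  calc cc κ ≤ 2 := hc
    _ = 2 * (2^(NN κ) * (1/2^(NN κ))) := by rw [← h3]; ring
    _ ≤ 2 * (2^(NN κ) * √(gq (NN κ) j)) := by gcongr
    _ = _ := by ring

lemma zt_bound {κ j : ℕ} (hκ : 0 < κ) (hj : j < gm (NN κ)) (t : ℝ) :
    |zt κ j t| ≤ 2 * 2^(NN κ) := by
  unfold zt
  rw [abs_mul]
  have h1 := gq_sqrt hκ hj
  have h2 : |hh κ j t * ss κ t| ≤ 1 := by
    rw [abs_mul, show |ss κ t| = 1 from sw_abs _, mul_one]; exact hh_abs _ _ _
  calc _ ≤ (2 * 2^(NN κ)) * 1 := mul_le_mul h1 h2 (abs_nonneg _) (by positivity)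
    _ = _ := mul_one _

lemma d_bound {F : ℝ → ℝ} (hF : F ∈ BM) {Λ : ℝ}
    (hΛ : ∀ s ∈ Icc (0:ℝ) 1, ∀ t ∈ Icc (0:ℝ) 1, |F s - F t| ≤ Λ * |s - t|)
    {κ j : ℕ} (hκ : 0 < κ) (hj : j < gm (NN κ)) :
    |∫ t in (0:ℝ)..1, F t * zt κ j t| ≤ 2 * 2^(NN κ) * (Λ / 2^(LL κ)) := by
  have e : ∀ t, F t * zt κ j t
      = cc κ / √(gq (NN κ) j) * (F t * (hh κ j t * sw (2^(LL κ) * t))) := by
    intro t; unfold zt ss; ring
  simp only [e]
  rw [intervalIntegral.integral_const_mul, abs_mul]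
  have h1 := lip_small (hh_dy κ j) (hh_BM κ j) hF sw_BM sw_per int_sw (fun t => (sw_abs t).le) hΛ
    (hh_abs κ j)
  rw [one_mul] at h1
  exact mul_le_mul (gq_sqrt hκ hj) h1 (abs_nonneg _) (by positivity)

lemma uu_BM (κ : ℕ) : uu κ ∈ BM := by
  have : uu κ = ∑ j ∈ Finset.range (gm (NN κ)), (fun t => aa κ j * zt κ j t) := by
    ext t; simp [uu]
  rw [this]
  exact BM.sum_mem (fun j _ => BM_mul (BM_const _) (zt_BM κ j))

lemma int_ch {F : ℝ → ℝ} (hF : F ∈ BM) (κ j : ℕ) :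
    ∫ t in (0:ℝ)..1, F t * ch κ j t = (∫ t in (0:ℝ)..1, F t * zt κ j t)
      - aa κ j * ((∑ i ∈ Finset.range (gm (NN κ)), aa κ i * ∫ t in (0:ℝ)..1, F t * zt κ i t)
        - ∫ t in (0:ℝ)..1, F t * vv κ t) := by
  have e : ∀ t, F t * ch κ j t
      = F t * zt κ j t - aa κ j * (F t * uu κ t - F t * vv κ t) := by
    intro t; unfold ch; ring
  simp only [e]
  have b1 := BM_mul hF (zt_BM κ j)
  have b2 := BM_mul hF (uu_BM κ)
  have b3 := BM_mul hF (vv_BM κ)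
  have b4 : (fun t => F t * uu κ t - F t * vv κ t) ∈ BM := BM.sub_mem b2 b3
  rw [intervalIntegral.integral_sub (BM_ii b1 _ _) (BM_ii (BM_mul (BM_const _) b4) _ _),
    intervalIntegral.integral_const_mul, intervalIntegral.integral_sub (BM_ii b2 _ _) (BM_ii b3 _ _)]
  congr 3
  have e2 : ∀ t, F t * uu κ t = ∑ i ∈ Finset.range (gm (NN κ)), aa κ i * (F t * zt κ i t) := by
    intro t; unfold uu; rw [Finset.mul_sum]
    exact Finset.sum_congr rfl (fun i _ => by ring)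
  simp only [e2]
  rw [int_sum _ _ (fun i _ => BM_mul (BM_const _) (BM_mul hF (zt_BM κ i)))]
  exact Finset.sum_congr rfl (fun i _ => intervalIntegral.integral_const_mul _ _)

lemma block_big {F : ℝ → ℝ} (hF : F ∈ BM) {Λ : ℝ}
    (hΛ : ∀ s ∈ Icc (0:ℝ) 1, ∀ t ∈ Icc (0:ℝ) 1, |F s - F t| ≤ Λ * |s - t|)
    {κ : ℕ} (hκ : 0 < κ) (hβ : (1:ℝ)/2^(κ^2) ≤ |∫ t in (0:ℝ)..1, F t * vv κ t|)
    (hΛN : 7 * Λ ≤ 2^(NN κ)) {t : ℝ} (ht : ee κ t = 1)
    (hU : |gU (NN κ) (2^κ * t)| ≤ NN κ / 5) :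
    ∃ l ≤ gm (NN κ), 1 ≤ |∑ j ∈ Finset.range l,
      (∫ s in (0:ℝ)..1, F s * ch κ j s) * ch κ j t| := by
  have hΛ0 : 0 ≤ Λ := by
    have := hΛ 0 (by simp) 1 (by simp)
    simp only [zero_sub, abs_neg, abs_one, mul_one] at this
    exact (abs_nonneg _).trans this
  obtain ⟨l, hl, hpl⟩ := (gA_good (NN κ)).pref (2^κ * t)
  refine ⟨l, hl, ?_⟩
  set β := ∫ t in (0:ℝ)..1, F t * vv κ t with hβd
  have hvt : vv κ t = 0 := by
    have := ee_vv (le_refl κ) t
    rw [ht, one_mul] at this; exact this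
  have hR0 : (0:ℝ) < RR κ := by exact_mod_cast RR_pos κ
  have hNR : (NN κ : ℝ) = (RR κ : ℝ)^2 := by unfold NN; push_cast; rfl
  have hN0 : (0:ℝ) < NN κ := by exact_mod_cast NN_pos κ
  have hc1 := one_le_cc hκ
  have hc2 := cc_le hκ
  have hm0 : 0 < gm (NN κ) := gm_pos (NN_pos κ)
  have key := num (m := gm (NN κ)) (l := l) (a := aa κ) (x := fun j => zt κ j t)
    (d := fun j => ∫ s in (0:ℝ)..1, F s * zt κ j s) (β := β)
    (D := 2 * 2^(NN κ) * (Λ / 2^(LL κ))) (X := 2 * 2^(NN κ)) hl (sum_aa κ)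
    (fun j hj => d_bound hF hΛ hκ hj) (fun j hj => zt_bound hκ hj t) hm0
    (u := uu κ t) (s := ∑ j ∈ Finset.range l, aa κ j * zt κ j t) rfl rfl
  have hterm : ∀ j, (∫ s in (0:ℝ)..1, F s * ch κ j s) * ch κ j t
      = ((∫ s in (0:ℝ)..1, F s * zt κ j s) - aa κ j *
        ((∑ i ∈ Finset.range (gm (NN κ)), aa κ i * ∫ s in (0:ℝ)..1, F s * zt κ i s) - β)) *
        (zt κ j t - aa κ j * uu κ t) := by
    intro j
    rw [int_ch hF]
    unfold ch
    rw [hvt, sub_zero]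
  simp only [hterm]
  -- compute s and u
  have hss : |ss κ t| = 1 := sw_abs _
  have hcR : 0 < cc κ / RR κ := by positivity
  have hsval : ∑ j ∈ Finset.range l, aa κ j * zt κ j t
      = cc κ / RR κ * ss κ t * ((NN κ + gU (NN κ) (2^κ * t))/2) := by
    have : ∀ j ∈ Finset.range l, aa κ j * zt κ j t
        = cc κ / RR κ * ss κ t * gA (NN κ) j (2^κ * t) := by
      intro j hj
      rw [aa_zt (lt_of_lt_of_le (Finset.mem_range.mp hj) hl), ht, one_mul]
    rw [Finset.sum_congr rfl this, ← Finset.mul_sum, hpl]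
    unfold gU
    rfl
  have huval : uu κ t = cc κ / RR κ * ss κ t * gU (NN κ) (2^κ * t) := by
    rw [uu_eq, ht, one_mul]
  set U := gU (NN κ) (2^κ * t) with hUd
  have habss : |∑ j ∈ Finset.range l, aa κ j * zt κ j t| = cc κ / RR κ * ((NN κ + U)/2) := by
    rw [hsval, abs_mul, abs_mul, hss, mul_one, abs_of_pos hcR]
    congr 1
    apply abs_of_nonneg
    have := neg_abs_le U
    linarith
  have habsu : |uu κ t| = cc κ / RR κ * |U| := by
    rw [huval, abs_mul, abs_mul, hss, mul_one, abs_of_pos hcR]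
  have hdiff : (RR κ : ℝ)/5 ≤ |∑ j ∈ Finset.range l, aa κ j * zt κ j t| - |uu κ t| := by
    rw [habss, habsu, ← mul_sub]
    have h1 : (NN κ : ℝ)/5 ≤ (NN κ + U)/2 - |U| := by
      have := neg_abs_le U
      linarith
    calc (RR κ : ℝ)/5 = 1 / RR κ * (NN κ/5) := by rw [hNR]; field_simp
      _ ≤ cc κ / RR κ * (NN κ/5) :=
          mul_le_mul_of_nonneg_right (div_le_div_of_nonneg_right hc1 hR0.le) (by positivity)
      _ ≤ _ := mul_le_mul_of_nonneg_left h1 hcR.le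
  have hule : |uu κ t| ≤ 2 * RR κ / 5 := by
    rw [habsu]
    calc cc κ / RR κ * |U| ≤ 2 / RR κ * (NN κ / 5) :=
          mul_le_mul (div_le_div_of_nonneg_right hc2 hR0.le) hU (abs_nonneg _) (by positivity)
      _ = 2 * RR κ / 5 := by rw [hNR]; field_simp
  have key2 := key (by linarith)
  refine le_trans ?_ key2
  -- numeric bounds
  set D : ℝ := 2 * 2^(NN κ) * (Λ / 2^(LL κ)) with hD
  have hgm : (gm (NN κ) : ℝ) ≤ 2^(NN κ) := by exact_mod_cast (gm_lt (NN κ)).le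
  set Q : ℝ := 2^(NN κ) with hQ
  have hQ1 : 1 ≤ Q := one_le_pow₀ (by norm_num)
  have hLL : (2:ℝ)^(LL κ) = Q^4 := by rw [hQ, ← pow_mul, LL, mul_comm]
  have hQ0 : 0 < Q := by positivity
  have hD' : D = 2 * Λ / Q^3 := by rw [hD, hLL]; field_simp
  have hD0 : 0 ≤ D := by rw [hD']; positivity
  have hRQ : (RR κ : ℝ) ≤ Q := by
    have h1 : RR κ ≤ NN κ := le_NN κ
    have h2 : NN κ < 2^(NN κ) := Nat.lt_two_pow_self
    rw [hQ]; exact_mod_cast (h1.trans h2.le)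
  have hmD : gm (NN κ) * D ≤ 2 * Λ / Q^2 := by
    calc gm (NN κ) * D ≤ Q * D := mul_le_mul_of_nonneg_right hgm hD0
      _ = 2 * Λ / Q^2 := by rw [hD']; field_simp
  have hmD0 : 0 ≤ gm (NN κ) * D := by positivity
  have hΛQ : Λ / Q ≤ 1/7 := by rw [div_le_div_iff₀ hQ0 (by norm_num)]; linarith
  have hκQ : (2:ℝ)^(κ^2) ≤ Q := by
    have h1 : κ^2 + 4 ≤ NN κ := by
      have := le_NN κ
      have h2 : κ^2 + 4 < 2^(κ^2+4) := Nat.lt_two_pow_self
      have h3 : RR κ = 2^(κ^2+4) := by unfold RR; rfl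
      omega
    rw [hQ]; exact pow_le_pow_right₀ (by norm_num) (by omega)
  have hRβ : (16:ℝ)/5 ≤ |β| * (RR κ / 5) := by
    have h3 : (RR κ : ℝ) = 2^(κ^2) * 16 := by
      unfold RR; push_cast; rw [pow_add]; norm_num
    calc (16:ℝ)/5 = 1/2^(κ^2) * (2^(κ^2) * 16 / 5) := by field_simp
      _ ≤ |β| * (2^(κ^2) * 16/5) := by gcongr
      _ = _ := by rw [h3]
  have hmDβ : gm (NN κ) * D ≤ |β| := by
    refine hmD.trans (le_trans ?_ hβ)
    calc 2 * Λ / Q^2 = 2 * (Λ / Q) * (1/Q) := by field_simp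
      _ ≤ 2 * (1/7) * (1/Q) := by gcongr
      _ ≤ 1 * (1/Q) := by
          apply mul_le_mul_of_nonneg_right (by norm_num) (by positivity)
      _ ≤ 1/2^(κ^2) := by rw [one_mul]; exact one_div_le_one_div_of_le (by positivity) hκQ
  have t1 : (|β| - gm (NN κ) * D) * (RR κ / 5) ≤
      (|β| - gm (NN κ) * D) * (|∑ j ∈ Finset.range l, aa κ j * zt κ j t| - |uu κ t|) :=
    mul_le_mul_of_nonneg_left hdiff (by linarith)
  have t2 : gm (NN κ) * D * (RR κ / 5) ≤ 2/35 := by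
    calc gm (NN κ) * D * (RR κ / 5) ≤ (2 * Λ / Q^2) * (Q / 5) := by gcongr
      _ = 2/5 * (Λ / Q) := by field_simp
      _ ≤ 2/5 * (1/7) := by gcongr
      _ = 2/35 := by norm_num
  have t3 : gm (NN κ) * (D * (2 * Q)) ≤ 4/7 := by
    calc gm (NN κ) * (D * (2 * Q)) = gm (NN κ) * D * (2 * Q) := by ring
      _ ≤ (2 * Λ / Q^2) * (2 * Q) := by gcongr
      _ = 4 * (Λ / Q) := by field_simp; ring
      _ ≤ 4 * (1/7) := by gcongr
      _ = 4/7 := by norm_num
  have t4 : gm (NN κ) * D * |uu κ t| ≤ 4/35 := by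
    calc gm (NN κ) * D * |uu κ t| ≤ gm (NN κ) * D * (2 * RR κ / 5) := by gcongr
      _ = 2 * (gm (NN κ) * D * (RR κ / 5)) := by ring
      _ ≤ 2 * (2/35) := by gcongr
      _ = 4/35 := by norm_num
  have t5 : (|β| - gm (NN κ) * D) * (RR κ / 5) = |β| * (RR κ / 5) - gm (NN κ) * D * (RR κ / 5) := by
    ring
  rw [t5] at t1
  linarith

end Pool.Agent.H431R2.ONS
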