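import Pool.Agent.H431R2.Dyadic

/-! The rearranged Haar gadget. -/

set_option autoImplicit false

namespace Pool.Agent.H431R2.ONS
open MeasureTheory Filter Topology Set

/-- splitting operator -/
noncomputable def spl (G1 G2 : ℝ → ℝ) (t : ℝ) : ℝ :=
  if Int.fract t < 1/2 then G1 (2*t) else G2 (2*t)

lemma fract_half_congr {s t : ℝ} (h : ⌊(2:ℝ)^1 * s⌋ = ⌊(2:ℝ)^1 * t⌋) :
    (Int.fract s < 1/2 ↔ Int.fract t < 1/2) := by
  have h0 : ⌊s⌋ = ⌊t⌋ := by
    have := floor_pow_mono (Nat.zero_le 1) h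
    simpa using this
  have key : ∀ x : ℝ, (Int.fract x < 1/2 ↔ ⌊(2:ℝ)^1 * x⌋ = 2 * ⌊x⌋) := by
    intro x
    have e := Int.floor_add_fract x
    have f0 := Int.fract_nonneg x
    have f1 := Int.fract_lt_one x
    constructor
    · intro hx
      rw [Int.floor_eq_iff]
      push_cast
      constructor <;> nlinarith
    · intro hx
      rw [Int.floor_eq_iff] at hx
      push_cast at hx
      nlinarith [hx.2]
  rw [key, key, h, h0]

lemma spl_dy {n : ℕ} {G1 G2 : ℝ → ℝ} (h1 : Dy n G1) (h2 : Dy n G2) : Dy (n+1) (spl G1 G2) := by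
  intro s t hst
  have hi := fract_half_congr (floor_pow_mono (Nat.le_add_left 1 n) hst)
  have h2' : ⌊(2:ℝ)^n * (2 * s)⌋ = ⌊(2:ℝ)^n * (2 * t)⌋ := by
    rw [← mul_assoc, ← mul_assoc, ← pow_succ]; exact hst
  unfold spl
  rw [h1 _ _ h2', h2 _ _ h2']
  simp only [hi]

lemma spl_per {G1 G2 : ℝ → ℝ} (h1 : Function.Periodic G1 1) (h2 : Function.Periodic G2 1) :
    Function.Periodic (spl G1 G2) 1 := by
  intro t
  unfold spl
  have e : 2 * (t + 1) = 2 * t + 1 + 1 := by ring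
  rw [Int.fract_add_one, e, h1, h1, h2, h2]

/-- indicator of the left half -/
noncomputable def lh (t : ℝ) : ℝ := if Int.fract t < 1/2 then 1 else 0

lemma lh_dy : Dy 1 lh := by
  intro s t hst
  unfold lh
  simp only [fract_half_congr hst]

lemma lh_BM : lh ∈ BM := lh_dy.mem_BM (C := 1) (fun t => by unfold lh; split_ifs <;> simp)

lemma int_lh : ∫ t in (0:ℝ)..1, lh t = 1/2 := by
  rw [int_dy lh_dy lh_BM]
  have e1 : lh 0 = 1 := by unfold lh; simp
  have e2 : lh (1/2) = 0 := by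
    unfold lh
    have : Int.fract (1/2 : ℝ) = 1/2 := Int.fract_eq_self.mpr ⟨by norm_num, by norm_num⟩
    rw [this]; simp
  simp only [pow_one, Finset.sum_range_succ, Finset.range_zero, Finset.sum_empty, Nat.cast_zero,
    zero_div, e1, Nat.cast_one, e2]
  norm_num

lemma int_rh : ∫ t in (0:ℝ)..1, (1 - lh t) = 1/2 := by
  rw [intervalIntegral.integral_sub (BM_ii (BM_const 1) _ _) (BM_ii lh_BM _ _), int_lh]
  simp; norm_num

lemma spl_eq (G1 G2 : ℝ → ℝ) (t : ℝ) :
    spl G1 G2 t = lh t * G1 (2^1 * t) + (1 - lh t) * G2 (2^1 * t) := by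
  unfold spl lh
  rw [pow_one]
  split_ifs <;> ring

lemma spl_BM {G1 G2 : ℝ → ℝ} (h1 : G1 ∈ BM) (h2 : G2 ∈ BM) : spl G1 G2 ∈ BM := by
  have e : spl G1 G2 = fun t => lh t * G1 (2^1 * t) + (1 - lh t) * G2 (2^1 * t) :=
    funext (spl_eq G1 G2)
  rw [e]
  exact BM.add_mem (BM_mul lh_BM (BM_comp h1 (measurable_const_mul _)))
    (BM_mul (BM.sub_mem (BM_const 1) lh_BM) (BM_comp h2 (measurable_const_mul _)))

lemma spl_int {G1 G2 : ℝ → ℝ} (h1 : G1 ∈ BM) (h2 : G2 ∈ BM) (p1 : Function.Periodic G1 1)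
    (p2 : Function.Periodic G2 1) :
    ∫ t in (0:ℝ)..1, spl G1 G2 t = ((∫ t in (0:ℝ)..1, G1 t) + ∫ t in (0:ℝ)..1, G2 t) / 2 := by
  have b1 : (fun t => lh t * G1 (2^1 * t)) ∈ BM :=
    BM_mul lh_BM (BM_comp h1 (measurable_const_mul _))
  have hr : (fun t => 1 - lh t) ∈ BM := BM.sub_mem (BM_const 1) lh_BM
  have b2 : (fun t => (1 - lh t) * G2 (2^1 * t)) ∈ BM :=
    BM_mul hr (BM_comp h2 (measurable_const_mul _))
  have hrd : Dy 1 (fun t => 1 - lh t) := fun s t hst => by simp only [lh_dy s t hst]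
  simp only [spl_eq]
  rw [intervalIntegral.integral_add (BM_ii b1 _ _) (BM_ii b2 _ _), PL lh_dy lh_BM h1 p1,
    PL hrd hr h2 p2, int_lh, int_rh]
  ring

lemma spl_mul (F1 F2 G1 G2 : ℝ → ℝ) (t : ℝ) :
    spl F1 F2 t * spl G1 G2 t = spl (fun t => F1 t * G1 t) (fun t => F2 t * G2 t) t := by
  unfold spl
  split_ifs <;> rfl

/-- square wave -/
noncomputable def sw (t : ℝ) : ℝ := spl (fun _ => 1) (fun _ => -1) t

lemma sw_dy : Dy 1 sw := spl_dy (Dy.const 0 1) (Dy.const 0 (-1))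

lemma sw_sq (t : ℝ) : sw t * sw t = 1 := by
  unfold sw spl; split_ifs <;> norm_num

lemma sw_abs (t : ℝ) : |sw t| = 1 := by
  unfold sw spl; split_ifs <;> norm_num

lemma sw_BM : sw ∈ BM := spl_BM (BM_const 1) (BM_const (-1))

lemma sw_per : Function.Periodic sw 1 := spl_per (fun _ => rfl) (fun _ => rfl)

lemma int_sw : ∫ t in (0:ℝ)..1, sw t = 0 := by
  have := spl_int (BM_const 1) (BM_const (-1)) (fun _ => rfl) (fun _ => rfl)
  unfold sw
  rw [this]
  simp

def gm : ℕ → ℕ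
  | 0 => 0
  | N+1 => 2 * gm N + 1

lemma gm_lt (N : ℕ) : gm N < 2^N := by
  induction N with
  | zero => simp [gm]
  | succ N ih => rw [gm, pow_succ]; omega

lemma gm_pos {N : ℕ} (h : 0 < N) : 0 < gm N := by
  obtain ⟨N, rfl⟩ := Nat.exists_eq_succ_of_ne_zero h.ne'
  rw [gm]; omega

noncomputable def gL (F : ℕ → ℝ → ℝ) (m j : ℕ) : ℝ → ℝ :=
  if j < m then (fun _ => 0) else if j = m then (fun _ => 1) else F (j - m - 1)

noncomputable def gR (F : ℕ → ℝ → ℝ) (m j : ℕ) : ℝ → ℝ :=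
  if j < m then F j else if j = m then (fun _ => -1) else (fun _ => 0)

noncomputable def gA : ℕ → ℕ → ℝ → ℝ
  | 0 => fun _ _ => 0
  | N+1 => fun j => spl (gL (gA N) (gm N) j) (gR (gA N) (gm N) j)

structure Good (N m : ℕ) (F : ℕ → ℝ → ℝ) : Prop where
  per : ∀ j, Function.Periodic (F j) 1
  bd : ∀ j t, |F j t| ≤ 1
  dy : ∀ j, Dy N (F j)
  mean : ∀ j < m, ∫ t in (0:ℝ)..1, F j t = 0
  orth : ∀ i < m, ∀ j < m, i ≠ j → ∫ t in (0:ℝ)..1, F i t * F j t = 0
  qpos : ∀ j < m, (1:ℝ)/2^N ≤ ∫ t in (0:ℝ)..1, F j t * F j t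
  sq : ∀ t, ∑ j ∈ Finset.range m, F j t * F j t = N
  pref : ∀ t, ∃ l ≤ m, ∑ j ∈ Finset.range l, F j t = (N + ∑ j ∈ Finset.range m, F j t) / 2

lemma gL_lt {F : ℕ → ℝ → ℝ} {m j : ℕ} (h : j < m) : gL F m j = fun _ => 0 := by
  unfold gL; rw [if_pos h]
lemma gL_eq {F : ℕ → ℝ → ℝ} {m : ℕ} : gL F m m = fun _ => 1 := by
  unfold gL; simp
lemma gL_gt {F : ℕ → ℝ → ℝ} {m : ℕ} (i : ℕ) : gL F m (m + 1 + i) = F i := by
  unfold gL
  rw [if_neg (by omega), if_neg (by omega)]
  congr 1; omega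
lemma gR_lt {F : ℕ → ℝ → ℝ} {m j : ℕ} (h : j < m) : gR F m j = F j := by
  unfold gR; rw [if_pos h]
lemma gR_eq {F : ℕ → ℝ → ℝ} {m : ℕ} : gR F m m = fun _ => -1 := by
  unfold gR; simp
lemma gR_gt {F : ℕ → ℝ → ℝ} {m : ℕ} (i : ℕ) : gR F m (m + 1 + i) = fun _ => 0 := by
  unfold gR
  rw [if_neg (by omega), if_neg (by omega)]

lemma tri (m j : ℕ) : j < m ∨ j = m ∨ ∃ i, j = m + 1 + i := by
  rcases lt_trichotomy j m with h | h | h
  · exact Or.inl h
  · exact Or.inr (Or.inl h)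
  · exact Or.inr (Or.inr ⟨j - m - 1, by omega⟩)

lemma Good.BM {N m : ℕ} {F : ℕ → ℝ → ℝ} (h : Good N m F) (j : ℕ) : F j ∈ BM :=
  (h.dy j).mem_BM (h.bd j)

lemma good_step {N m : ℕ} {F : ℕ → ℝ → ℝ} (h : Good N m F) :
    Good (N+1) (2*m+1) (fun j => spl (gL F m j) (gR F m j)) := by
  have perL : ∀ j, Function.Periodic (gL F m j) 1 := by
    intro j
    rcases tri m j with h1 | rfl | ⟨i, rfl⟩
    · rw [gL_lt h1]; intro _; rfl
    · rw [gL_eq]; intro _; rfl
    · rw [gL_gt]; exact h.per i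
  have perR : ∀ j, Function.Periodic (gR F m j) 1 := by
    intro j
    rcases tri m j with h1 | rfl | ⟨i, rfl⟩
    · rw [gR_lt h1]; exact h.per j
    · rw [gR_eq]; intro _; rfl
    · rw [gR_gt]; intro _; rfl
  have bL : ∀ j t, |gL F m j t| ≤ 1 := by
    intro j t
    rcases tri m j with h1 | rfl | ⟨i, rfl⟩
    · rw [gL_lt h1]; simp
    · rw [gL_eq]; simp
    · rw [gL_gt]; exact h.bd i t
  have bR : ∀ j t, |gR F m j t| ≤ 1 := by
    intro j t
    rcases tri m j with h1 | rfl | ⟨i, rfl⟩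
    · rw [gR_lt h1]; exact h.bd j t
    · rw [gR_eq]; simp
    · rw [gR_gt]; simp
  have dL : ∀ j, Dy N (gL F m j) := by
    intro j
    rcases tri m j with h1 | rfl | ⟨i, rfl⟩
    · rw [gL_lt h1]; exact Dy.const _ _
    · rw [gL_eq]; exact Dy.const _ _
    · rw [gL_gt]; exact h.dy i
  have dR : ∀ j, Dy N (gR F m j) := by
    intro j
    rcases tri m j with h1 | rfl | ⟨i, rfl⟩
    · rw [gR_lt h1]; exact h.dy j
    · rw [gR_eq]; exact Dy.const _ _
    · rw [gR_gt]; exact Dy.const _ _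
  have BL : ∀ j, gL F m j ∈ ONS.BM := fun j => (dL j).mem_BM (bL j)
  have BR : ∀ j, gR F m j ∈ ONS.BM := fun j => (dR j).mem_BM (bR j)
  have hprod : ∀ i j, ∫ t in (0:ℝ)..1, spl (gL F m i) (gR F m i) t * spl (gL F m j) (gR F m j) t
      = ((∫ t in (0:ℝ)..1, gL F m i t * gL F m j t)
        + ∫ t in (0:ℝ)..1, gR F m i t * gR F m j t) / 2 := by
    intro i j
    simp only [spl_mul]
    exact spl_int (BM_mul (BL i) (BL j)) (BM_mul (BR i) (BR j))
      ((perL i).mul (perL j)) ((perR i).mul (perR j))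
  refine ⟨fun j => spl_per (perL j) (perR j), ?_, fun j => spl_dy (dL j) (dR j), ?_, ?_, ?_, ?_, ?_⟩
  · intro j t
    simp only [spl]
    split_ifs
    · exact bL j _
    · exact bR j _
  · intro j hj
    rw [spl_int (BL j) (BR j) (perL j) (perR j)]
    rcases tri m j with h1 | rfl | ⟨i, rfl⟩
    · rw [gL_lt h1, gR_lt h1, h.mean j h1]; simp
    · rw [gL_eq, gR_eq]; simp
    · rw [gL_gt, gR_gt, h.mean i (by omega)]; simp
  · -- orthogonality
    intro i hi j hj hij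
    rw [hprod]
    rcases tri m i with h1 | rfl | ⟨i, rfl⟩
    · rcases tri m j with h2 | rfl | ⟨j, rfl⟩
      · rw [gL_lt h1, gL_lt h2, gR_lt h1, gR_lt h2, h.orth i h1 j h2 hij]; simp
      · rw [gL_lt h1, gL_eq, gR_lt h1, gR_eq]
        simp [h.mean i h1]
      · rw [gL_lt h1, gL_gt, gR_lt h1, gR_gt]; simp
    · rcases tri i j with h2 | rfl | ⟨j, rfl⟩
      · rw [gL_lt h2, gL_eq, gR_lt h2, gR_eq]
        simp [h.mean j h2]
      · exact absurd rfl hij
      · rw [gL_eq, gL_gt, gR_eq, gR_gt]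
        simp [h.mean j (by omega)]
    · rcases tri m j with h2 | rfl | ⟨j, rfl⟩
      · rw [gL_lt h2, gL_gt, gR_lt h2, gR_gt]; simp
      · rw [gL_eq, gL_gt, gR_eq, gR_gt]
        simp [h.mean i (by omega)]
      · rw [gL_gt, gL_gt, gR_gt, gR_gt, h.orth i (by omega) j (by omega) (by omega)]; simp
  · -- norms
    intro j hj
    rw [hprod]
    have hpw : (1:ℝ)/2^(N+1) = (1/2^N)/2 := by rw [pow_succ]; field_simp
    rw [hpw]
    rcases tri m j with h1 | rfl | ⟨i, rfl⟩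
    · have := h.qpos j h1
      rw [gL_lt h1, gR_lt h1]
      simp only [mul_zero, intervalIntegral.integral_zero, zero_add]
      linarith
    · rw [gL_eq, gR_eq]
      have : (1:ℝ)/2^N ≤ 1 := by
        rw [div_le_one (by positivity)]; exact one_le_pow₀ (by norm_num)
      simp
      norm_num at this ⊢
      linarith
    · have := h.qpos i (by omega)
      rw [gL_gt, gR_gt]
      simp only [mul_zero, intervalIntegral.integral_zero, add_zero]
      linarith
  · intro t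
    have split : ∀ G : ℕ → ℝ, ∑ j ∈ Finset.range (2*m+1), G j
        = ∑ j ∈ Finset.range m, G j + G m + ∑ j ∈ Finset.range m, G (m+1+j) := by
      intro G
      rw [show 2*m+1 = (m+1)+m by ring, Finset.sum_range_add, Finset.sum_range_succ]
    rw [split]
    have hs := h.sq (2*t)
    simp only [spl]
    split_ifs with hc
    · rw [Finset.sum_congr rfl (fun j hj => by
        rw [gL_lt (Finset.mem_range.mp hj)] : ∀ j ∈ Finset.range m,
          gL F m j (2*t) * gL F m j (2*t) = (0:ℝ) * 0)]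
      rw [gL_eq]
      simp only [gL_gt, hs]
      push_cast; simp; ring
    · rw [Finset.sum_congr rfl (fun j hj => by
        rw [gR_lt (Finset.mem_range.mp hj)] : ∀ j ∈ Finset.range m,
          gR F m j (2*t) * gR F m j (2*t) = F j (2*t) * F j (2*t))]
      rw [gR_eq]
      simp only [gR_gt, hs]
      push_cast; simp
  · intro t
    have split : ∀ G : ℕ → ℝ, ∀ l, ∑ j ∈ Finset.range (m+1+l), G j
        = ∑ j ∈ Finset.range m, G j + G m + ∑ j ∈ Finset.range l, G (m+1+j) := by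
      intro G l
      rw [Finset.sum_range_add, Finset.sum_range_succ]
    obtain ⟨l, hl, hpl⟩ := h.pref (2*t)
    simp only [spl]
    rw [show 2*m+1 = (m+1)+m by ring, split]
    split_ifs with hc
    · refine ⟨m+1+l, by omega, ?_⟩
      rw [split]
      rw [Finset.sum_congr rfl (fun j hj => by
        rw [gL_lt (Finset.mem_range.mp hj)] : ∀ j ∈ Finset.range m,
          gL F m j (2*t) = (0:ℝ))]
      rw [gL_eq]
      simp only [gL_gt, hpl]
      push_cast; simp; ring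
    · refine ⟨l, by omega, ?_⟩
      rw [Finset.sum_congr rfl (fun j hj => by
        rw [gR_lt (Finset.mem_range.mp hj)] : ∀ j ∈ Finset.range m,
          gR F m j (2*t) = F j (2*t))]
      rw [Finset.sum_congr rfl (fun j hj => by
        rw [gR_lt (lt_of_lt_of_le (Finset.mem_range.mp hj) hl)] : ∀ j ∈ Finset.range l,
          gR F m j (2*t) = F j (2*t))]
      rw [gR_eq]
      simp only [gR_gt, hpl]
      push_cast; simp; ring

lemma gA_good (N : ℕ) : Good N (gm N) (gA N) := by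
  induction N with
  | zero =>
    refine ⟨?_, ?_, ?_, ?_, ?_, ?_, ?_, ?_⟩ <;> simp [gA, gm, Dy, Function.Periodic]
  | succ N ih => exact good_step ih

/-- total sum -/
noncomputable def gU (N : ℕ) (t : ℝ) : ℝ := ∑ j ∈ Finset.range (gm N), gA N j t

noncomputable def gq (N j : ℕ) : ℝ := ∫ t in (0:ℝ)..1, gA N j t * gA N j t

lemma gq_pos {N j : ℕ} (hj : j < gm N) : (1:ℝ)/2^N ≤ gq N j := (gA_good N).qpos j hj

lemma int_sum {ι : Type*} (s : Finset ι) (f : ι → ℝ → ℝ) (hf : ∀ i ∈ s, f i ∈ BM) :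
    ∫ t in (0:ℝ)..1, ∑ i ∈ s, f i t = ∑ i ∈ s, ∫ t in (0:ℝ)..1, f i t :=
  intervalIntegral.integral_finsetSum (fun i hi => BM_ii (hf i hi) _ _)

lemma sum_gq (N : ℕ) : ∑ j ∈ Finset.range (gm N), gq N j = N := by
  unfold gq
  rw [← int_sum _ _ (fun i _ => BM_mul ((gA_good N).BM i) ((gA_good N).BM i))]
  simp only [(gA_good N).sq]
  simp

lemma gU_BM (N : ℕ) : gU N ∈ BM := by
  have : gU N = ∑ j ∈ Finset.range (gm N), gA N j := by
    ext t; simp [gU]
  rw [this]
  exact BM.sum_mem (fun j _ => (gA_good N).BM j)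

lemma gU_per (N : ℕ) : Function.Periodic (gU N) 1 := by
  intro t
  unfold gU
  exact Finset.sum_congr rfl (fun j _ => (gA_good N).per j t)

lemma int_gU (N : ℕ) : ∫ t in (0:ℝ)..1, gU N t * gU N t = N := by
  have h1 : ∀ t, gU N t * gU N t = ∑ i ∈ Finset.range (gm N), ∑ j ∈ Finset.range (gm N),
      gA N i t * gA N j t := fun t => by
    unfold gU; rw [Finset.sum_mul_sum]
  simp only [h1]
  rw [int_sum _ _ (fun i _ => ?_)]
  · rw [← sum_gq N]
    refine Finset.sum_congr rfl (fun i hi => ?_)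
    rw [int_sum _ _ (fun j _ => BM_mul ((gA_good N).BM i) ((gA_good N).BM j))]
    rw [Finset.sum_eq_single i]
    · rfl
    · intro j hj hne
      exact (gA_good N).orth i (Finset.mem_range.mp hi) j (Finset.mem_range.mp hj) hne.symm
    · intro hni; exact absurd hi hni
  · have : (fun t => ∑ j ∈ Finset.range (gm N), gA N i t * gA N j t)
        = ∑ j ∈ Finset.range (gm N), fun t => gA N i t * gA N j t := by
      ext t; simp
    rw [this]
    exact BM.sum_mem (fun j _ => BM_mul ((gA_good N).BM i) ((gA_good N).BM j))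

end Pool.Agent.H431R2.ONS
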