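import Pool.Agent.H630R2.LR.Defs

set_option autoImplicit false

namespace Pool.Agent.H431R2.Hankel

open Finset Pool.Agent.H630R2.LR
open scoped Pointwise

theorem shift_apply (h : ℕ → ℝ) (t : ℕ) : shift h t = h (t + 1) := rfl

/-- iterated shift -/
theorem shift_pow_apply (i : ℕ) (h : ℕ → ℝ) (t : ℕ) : (shift ^ i) h t = h (t + i) := by
  induction i generalizing t with
  | zero => simp
  | succ i ih =>
    rw [pow_succ', Module.End.mul_apply, shift_apply, ih]
    congr 1; ring

section
variable (V : Submodule ℝ (ℕ → ℝ)) (hV : ∀ g ∈ V, shift g ∈ V)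

/-- the shift on `V` -/
noncomputable def T : V →ₗ[ℝ] V := shift.restrict hV

theorem T_pow_coe (i : ℕ) (h : V) : (((T V hV) ^ i) h : ℕ → ℝ) = (shift ^ i) (h : ℕ → ℝ) := by
  induction i with
  | zero => simp
  | succ i ih =>
    rw [pow_succ', Module.End.mul_apply, pow_succ', Module.End.mul_apply, ← ih]
    rfl

theorem T_pow_apply (i : ℕ) (h : V) (t : ℕ) :
    (((T V hV) ^ i) h : ℕ → ℝ) t = (h : ℕ → ℝ) (t + i) := by
  rw [T_pow_coe, shift_pow_apply]

include hV in
/-- KEY LEMMA. -/
theorem key [FiniteDimensional ℝ V] {D : ℕ} (hD : Module.finrank ℝ V ≤ D) {h : ℕ → ℝ} (hh : h ∈ V)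
    (h0 : ∀ t < D, h t = 0) : ∀ t, h t = 0 := by
  set S := T V hV with hS
  set q := S.charpoly with hq
  have hm : q.Monic := LinearMap.charpoly_monic S
  have hdeg : q.natDegree = Module.finrank ℝ V := LinearMap.charpoly_natDegree S
  have hz : Polynomial.aeval S q = 0 := LinearMap.aeval_self_charpoly S
  have hrec : ∀ t, ∑ i ∈ range (q.natDegree + 1), q.coeff i * h (t + i) = 0 := by
    intro t
    have h1 : (Polynomial.aeval S q) ⟨h, hh⟩ = 0 := by rw [hz]; rfl
    rw [Polynomial.aeval_eq_sum_range] at h1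
    have h2 := congrArg (fun u : V => (u : ℕ → ℝ) t) h1
    simp only [LinearMap.sum_apply, LinearMap.smul_apply, Submodule.coe_sum, Finset.sum_apply,
      Submodule.coe_smul, Pi.smul_apply, smul_eq_mul, ZeroMemClass.coe_zero, Pi.zero_apply] at h2
    rw [← h2]
    refine Finset.sum_congr rfl fun i _ => ?_
    rw [hS, T_pow_apply]
  intro t
  induction t using Nat.strong_induction_on with
  | _ t ih =>
    by_cases ht : t < D
    · exact h0 t ht
    · have hle : q.natDegree ≤ t := by omega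
      have h3 := hrec (t - q.natDegree)
      rw [Finset.sum_range_succ] at h3
      have h4 : ∑ i ∈ range q.natDegree, q.coeff i * h (t - q.natDegree + i) = 0 := by
        refine Finset.sum_eq_zero fun i hi => ?_
        rw [Finset.mem_range] at hi
        rw [ih (t - q.natDegree + i) (by omega), mul_zero]
      rw [h4, zero_add, hm.coeff_natDegree, one_mul] at h3
      rw [← h3]
      congr 1; omega

end

theorem Rec.key {h : ℕ → ℝ} {D : ℕ} (hR : Rec h D) (h0 : ∀ t < D, h t = 0) : ∀ t, h t = 0 := by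
  obtain ⟨V, hfd, hD, hV, hh⟩ := hR
  exact Hankel.key V hV hD hh h0

theorem Rec.shift_pow {h : ℕ → ℝ} {D : ℕ} (hR : Rec h D) (k : ℕ) :
    Rec (fun t => h (k + t)) D := by
  obtain ⟨V, hfd, hD, hV, hh⟩ := hR
  refine ⟨V, hfd, hD, hV, ?_⟩
  have : (fun t => h (k + t)) = (((T V hV) ^ k) ⟨h, hh⟩ : ℕ → ℝ) := by
    funext t
    rw [T_pow_apply, add_comm]
  rw [this]
  exact Subtype.property _

theorem Rec.sub {h g : ℕ → ℝ} {D E : ℕ} (hR : Rec h D) (gR : Rec g E) :
    Rec (fun t => h t - g t) (D + E) := by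
  obtain ⟨V, hfd, hD, hV, hh⟩ := hR
  obtain ⟨W, hfd', hE, hW, hg⟩ := gR
  refine ⟨V ⊔ W, inferInstance, ?_, ?_, ?_⟩
  · exact (Submodule.finrank_add_le_finrank_add_finrank V W).trans (Nat.add_le_add hD hE)
  · intro u hu
    obtain ⟨v, hv, w, hw, rfl⟩ := Submodule.mem_sup.1 hu
    rw [map_add]
    exact Submodule.add_mem_sup (hV v hv) (hW w hw)
  · have : (fun t => h t - g t) = h + (-g) := by funext t; simp [sub_eq_add_neg]
    rw [this]
    exact Submodule.add_mem_sup hh (neg_mem hg)

/-! ### M9 HANKEL2 -/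

theorem finrank_mul_le (V : Submodule ℝ (ℕ → ℝ)) [FiniteDimensional ℝ V] {r : ℕ}
    (hr : Module.finrank ℝ V ≤ r) :
    FiniteDimensional ℝ (V * V : Submodule ℝ (ℕ → ℝ)) ∧
      Module.finrank ℝ (V * V : Submodule ℝ (ℕ → ℝ)) ≤ r ^ 2 := by
  classical
  let b := Module.finBasis ℝ V
  let S : Finset (ℕ → ℝ) := univ.image fun i => (b i : ℕ → ℝ)
  have hS : Submodule.span ℝ (S : Set (ℕ → ℝ)) = V := by
    have h1 : (S : Set (ℕ → ℝ)) = (fun v : V => (v : ℕ → ℝ)) '' Set.range b := by
      ext x; simp [S]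
    rw [h1]
    have h2 := b.span_eq
    have h3 : Submodule.map V.subtype (Submodule.span ℝ (Set.range b)) = V := by
      rw [h2, Submodule.map_top, Submodule.range_subtype]
    rw [Submodule.map_span] at h3
    exact h3
  have hcard : S.card ≤ r := by
    refine (Finset.card_image_le).trans ?_
    simpa using hr
  have hmul : (V * V : Submodule ℝ (ℕ → ℝ)) = Submodule.span ℝ ((S * S : Finset (ℕ → ℝ)) : Set (ℕ → ℝ)) := by
    rw [Finset.coe_mul, ← Submodule.span_mul_span, hS]
  rw [hmul]
  refine ⟨inferInstance, ?_⟩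
  refine (finrank_span_finset_le_card _).trans ?_
  refine (Finset.card_mul_le).trans ?_
  rw [pow_two]
  exact Nat.mul_le_mul hcard hcard

theorem shift_mul (g h : ℕ → ℝ) : shift (g * h) = shift g * shift h := by
  funext t; rfl

theorem Rec.bool {F : ℕ → ℝ} {r T : ℕ} (h : Rec F r) (hT : r ^ 2 + r ≤ T)
    (h01 : ∀ t < T, F t = 0 ∨ F t = 1) : ∀ t, F t = 0 ∨ F t = 1 := by
  obtain ⟨V, hfd, hD, hV, hh⟩ := h
  obtain ⟨hfd2, hD2⟩ := finrank_mul_le V hD
  have hmulshift : ∀ g ∈ (V * V : Submodule ℝ (ℕ → ℝ)), shift g ∈ (V * V : Submodule ℝ (ℕ → ℝ)) := by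
    intro g hg
    refine Submodule.mul_induction_on hg ?_ ?_
    · intro m hm n hn
      rw [shift_mul]
      exact Submodule.mul_mem_mul (hV m hm) (hV n hn)
    · intro x y hx hy
      rw [map_add]
      exact add_mem hx hy
  have hR1 : Rec (F * F) (r ^ 2) := ⟨V * V, hfd2, hD2, hmulshift, Submodule.mul_mem_mul hh hh⟩
  have hR2 : Rec F r := ⟨V, hfd, hD, hV, hh⟩
  have hR := Rec.sub hR1 hR2
  have hz := Rec.key hR (fun t ht => by
    rcases h01 t (by omega) with h | h <;> simp [h])
  intro t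
  have h1 := hz t
  simp only [Pi.mul_apply] at h1
  have h2 : F t * (F t - 1) = 0 := by linarith
  rcases mul_eq_zero.1 h2 with h | h
  · left; exact h
  · right; linarith

theorem Rec.periodic {F : ℕ → ℝ} {r : ℕ} (h : Rec F r) (h01 : ∀ t, F t = 0 ∨ F t = 1) :
    ∃ N, 0 < N ∧ ∀ t, r ≤ t → F (t + N) = F t := by
  classical
  let w : ℕ → (Fin r → Bool) := fun t i => decide (F (t + i) = 1)
  have hpp : ∃ t0 t1, t0 < t1 ∧ w t0 = w t1 := by
    obtain ⟨x, y, hxy, hw⟩ := Finite.exists_ne_map_eq_of_infinite w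
    rcases lt_or_gt_of_ne hxy with h | h
    · exact ⟨x, y, h, hw⟩
    · exact ⟨y, x, h, hw.symm⟩
  obtain ⟨t0, t1, hlt, hw⟩ := hpp
  have hF : ∀ i < r, F (t0 + i) = F (t1 + i) := by
    intro i hi
    have h1 := congrFun hw ⟨i, hi⟩
    simp only [w, decide_eq_decide] at h1
    rcases h01 (t0 + i) with ha | ha <;> rcases h01 (t1 + i) with hb | hb
    · rw [ha, hb]
    · exact absurd (h1.2 hb) (by rw [ha]; norm_num)
    · exact absurd (h1.1 ha) (by rw [hb]; norm_num)
    · rw [ha, hb]
  obtain ⟨V, hfd, hD, hV, hh⟩ := h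
  let S := Hankel.T V hV
  let F' : V := ⟨F, hh⟩
  -- the difference of the shifts by `t0` and `t1` vanishes
  have hdiff : ∀ t, F (t + t1) - F (t + t0) = 0 := by
    have hmem : (fun t => F (t + t1) - F (t + t0)) ∈ V := by
      have : (fun t => F (t + t1) - F (t + t0)) = (((S ^ t1) F' - (S ^ t0) F' : V) : ℕ → ℝ) := by
        funext t
        simp only [AddSubgroupClass.coe_sub, Pi.sub_apply]
        rw [T_pow_apply, T_pow_apply]
      rw [this]; exact Subtype.property _
    exact Hankel.key V hV hD hmem (fun t ht => by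
      rw [add_comm t t1, add_comm t t0, hF t ht, sub_self])
  refine ⟨t1 - t0, by omega, ?_⟩
  -- `u = S^N F - F` is killed by `S ^ t0`, hence by `S ^ finrank`
  let u : V := (S ^ (t1 - t0)) F' - F'
  have hu : (S ^ t0) u = 0 := by
    apply Subtype.ext
    funext t
    simp only [u, map_sub, AddSubgroupClass.coe_sub, Pi.sub_apply, ZeroMemClass.coe_zero,
      Pi.zero_apply]
    rw [T_pow_apply, T_pow_apply, T_pow_apply]
    have h1 := hdiff t
    have h2 : t + t0 + (t1 - t0) = t + t1 := by omega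
    rw [h2]; exact h1
  have hu2 : (S ^ (Module.finrank ℝ V)) u = 0 := by
    have := Module.End.ker_pow_le_ker_pow_finrank S t0
    exact this hu
  intro t ht
  have h3 := congrArg (fun v : V => (v : ℕ → ℝ) (t - Module.finrank ℝ V)) hu2
  simp only [u, map_sub, AddSubgroupClass.coe_sub, Pi.sub_apply, ZeroMemClass.coe_zero,
      Pi.zero_apply] at h3
  rw [T_pow_apply, T_pow_apply, T_pow_apply] at h3
  have h4 : t - Module.finrank ℝ V + Module.finrank ℝ V = t := by omega
  rw [h4] at h3
  linarith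

theorem Rec.rank_le {F : ℕ → ℝ} {r N : ℕ} [NeZero N] (h : Rec F r) (G : ZMod N → Bool)
    (hG : ∀ t, r ≤ t → F t = if G t then 1 else 0) :
    (comm (fun x y : ZMod N => G (x + y))).rank ≤ r := by
  obtain ⟨V, hfd, hD, hV, hh⟩ := h
  rw [Matrix.rank_eq_finrank_span_row]
  let Ψ : V →ₗ[ℝ] (ZMod N → ℝ) :=
    { toFun := fun v y => (v : ℕ → ℝ) y.val
      map_add' := fun _ _ => rfl
      map_smul' := fun _ _ => rfl }
  have hsub : Submodule.span ℝ (Set.range (comm (fun x y : ZMod N => G (x + y))).row)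
      ≤ LinearMap.range Ψ := by
    rw [Submodule.span_le]
    rintro _ ⟨x, rfl⟩
    refine ⟨((Hankel.T V hV) ^ (x.val + N * r)) ⟨F, hh⟩, ?_⟩
    funext y
    change (((Hankel.T V hV) ^ (x.val + N * r)) ⟨F, hh⟩ : ℕ → ℝ) y.val = _
    rw [T_pow_apply]
    have hN : 1 ≤ N := Nat.one_le_iff_ne_zero.2 (NeZero.ne N)
    have hle : r ≤ y.val + (x.val + N * r) := by nlinarith
    change F (y.val + (x.val + N * r)) = _
    rw [hG _ hle]
    have hc : ((y.val + (x.val + N * r) : ℕ) : ZMod N) = x + y := by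
      push_cast
      rw [ZMod.natCast_zmod_val, ZMod.natCast_zmod_val]
      simp [add_comm]
    rw [hc]
    rfl
  calc Module.finrank ℝ (Submodule.span ℝ (Set.range (comm (fun x y : ZMod N => G (x + y))).row))
      ≤ Module.finrank ℝ (LinearMap.range Ψ) := Submodule.finrank_mono hsub
    _ ≤ Module.finrank ℝ V := LinearMap.finrank_range_le Ψ
    _ ≤ r := hD

/-! ### M8 HANKEL1 -/

theorem rec_block (a : ℕ → ℝ) (r n i : ℕ) (q : ℕ → ℝ) (hq : ∃ l ≤ r, q l ≠ 0)
    (hrel : ∀ j < n, ∑ l ∈ range (r + 1), q l * a (i + j + l) = 0) :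
    ∃ F : ℕ → ℝ, Rec F r ∧ ∀ t < n, F t = a (i + t) := by
  classical
  -- the largest index with `q l ≠ 0`
  obtain ⟨l1, hl1, hq1⟩ := hq
  let P : ℕ → Prop := fun l => q l ≠ 0
  let l0 := Nat.findGreatest P r
  have hl0 : q l0 ≠ 0 := Nat.findGreatest_spec (P := P) hl1 hq1
  have hl0r : l0 ≤ r := Nat.findGreatest_le r
  have hbig : ∀ l, l0 < l → l ≤ r → q l = 0 := by
    intro l h1 h2
    by_contra hne
    exact Nat.findGreatest_is_greatest (P := P) h1 h2 hne
  let E : LinearRecurrence ℝ := ⟨l0, fun k => -(q k / q l0)⟩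
  let F := E.mkSol fun k => a (i + k)
  have hsol : E.IsSolution F := E.is_sol_mkSol _
  refine ⟨F, ⟨E.solSpace, ?_, ?_, ?_, ?_⟩, ?_⟩
  · exact Module.finite_of_rank_eq_nat E.solSpace_rank
  · rw [Module.finrank_eq_of_rank_eq E.solSpace_rank]; exact hl0r
  · intro g hg
    rw [← LinearRecurrence.is_sol_iff_mem_solSpace] at hg ⊢
    intro t
    have h1 := hg (t + 1)
    change g (t + E.order + 1) = ∑ k : Fin E.order, E.coeffs k * g (t + k + 1)
    have h2 : t + E.order + 1 = t + 1 + E.order := by ring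
    rw [h2, h1]
    refine Finset.sum_congr rfl fun k _ => ?_
    have h3 : t + 1 + (k : ℕ) = t + k + 1 := by ring
    rw [h3]
  · exact (E.is_sol_iff_mem_solSpace F).1 hsol
  · have hall : ∀ t < n + l0, F t = a (i + t) := by
      intro t
      induction t using Nat.strong_induction_on with
      | _ t ih =>
        intro ht
        by_cases h1 : t < l0
        · exact E.mkSol_eq_init (fun k => a (i + k)) ⟨t, h1⟩
        · obtain ⟨j, rfl⟩ : ∃ j, t = j + l0 := ⟨t - l0, by omega⟩
          have hj : j < n := by omega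
          have h2 := hsol j
          change F (j + l0) = ∑ k : Fin l0, -(q k / q l0) * F (j + k) at h2
          rw [h2]
          have h3 : ∑ k : Fin l0, -(q k / q l0) * F (j + k)
              = ∑ k ∈ range l0, -(q k / q l0) * a (i + j + k) := by
            rw [← Fin.sum_univ_eq_sum_range (fun k => -(q k / q l0) * a (i + j + k)) l0]
            refine Finset.sum_congr rfl fun k _ => ?_
            rw [ih (j + k) (by have := k.2; omega) (by have := k.2; omega), add_assoc]
          rw [h3]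
          have h4 := hrel j hj
          have h5 : ∑ l ∈ range (r + 1), q l * a (i + j + l)
              = ∑ l ∈ range (l0 + 1), q l * a (i + j + l) := by
            symm
            apply Finset.sum_subset
            · intro l hl; simp only [Finset.mem_range] at hl ⊢; omega
            · intro l hl hl'
              simp only [Finset.mem_range] at hl hl'
              rw [hbig l (by omega) (by omega), zero_mul]
          rw [h5, Finset.sum_range_succ] at h4
          have h6 : ∑ k ∈ range l0, -(q k / q l0) * a (i + j + k)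
              = -(1 / q l0) * ∑ k ∈ range l0, q k * a (i + j + k) := by
            rw [Finset.mul_sum]
            refine Finset.sum_congr rfl fun k _ => ?_
            ring
          rw [h6]
          have h7 : ∑ k ∈ range l0, q k * a (i + j + k) = - (q l0 * a (i + j + l0)) := by linarith
          rw [h7, ← add_assoc]
          field_simp
    intro t ht
    exact hall t (by omega)

theorem rec_ext (a : ℕ → ℝ) (r m n : ℕ) (hm : r + 1 ≤ m) (hn : 2 * r + 1 ≤ n)
    (hdep : ∀ i, i + r + 1 ≤ m → ∃ q : ℕ → ℝ, (∃ l ≤ r, q l ≠ 0) ∧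
      ∀ j < n, ∑ l ∈ range (r + 1), q l * a (i + j + l) = 0) :
    ∃ F : ℕ → ℝ, Rec F r ∧ ∀ t, t + 1 + r < m + n → a t = F t := by
  have hblock : ∀ i, i + r + 1 ≤ m → ∃ F : ℕ → ℝ, Rec F r ∧ ∀ t < n, F t = a (i + t) := by
    intro i hi
    obtain ⟨q, hq, hrel⟩ := hdep i hi
    exact rec_block a r n i q hq hrel
  obtain ⟨F, hF, hF0⟩ := hblock 0 (by omega)
  refine ⟨F, hF, ?_⟩
  intro T
  induction T using Nat.strong_induction_on with
  | _ T ih =>
    intro hT
    by_cases h1 : T < n
    · rw [hF0 T h1, Nat.zero_add]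
    · obtain ⟨F', hF', hF1⟩ := hblock (T - n + 1) (by omega)
      have hR := Rec.sub hF' (Rec.shift_pow hF (T - n + 1))
      have hz := Rec.key hR (fun t ht => by
        rw [hF1 t (by omega), ih (T - n + 1 + t) (by omega) (by omega), sub_self])
      have h2 := hz (n - 1)
      rw [hF1 (n - 1) (by omega)] at h2
      have h3 : T - n + 1 + (n - 1) = T := by omega
      rw [h3] at h2
      linarith

end Pool.Agent.H431R2.Hankel
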