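import Pool.Agent.H431R2.Estimates
import Pool.Agent.H431R2.Abstract

/-! Main theorem: an ONS diverging for all analytic functions. -/

set_option autoImplicit false

namespace Pool.Agent.H431R2.ONS
open MeasureTheory Filter Topology Set
open scoped InnerProductSpace

attribute [local irreducible] RR NN LL gm gA gU gq

/-- the measure -/
noncomputable abbrev mu : Measure ℝ := volume.restrict (Icc (0:ℝ) 1)

lemma int_mu (F : ℝ → ℝ) : ∫ t, F t ∂mu = ∫ t in (0:ℝ)..1, F t := by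
  rw [intervalIntegral.integral_of_le zero_le_one, integral_Icc_eq_integral_Ioc]

/-- the embedding in L² -/
noncomputable def TT : BM →ₗ[ℝ] Lp ℝ 2 mu where
  toFun F := (BM_memLp F.2).toLp F.1
  map_add' F G := MemLp.toLp_add (BM_memLp F.2) (BM_memLp G.2)
  map_smul' c F := MemLp.toLp_const_smul c (BM_memLp F.2)

lemma TT_coe (F : BM) : (TT F : ℝ → ℝ) =ᵐ[mu] F.1 := MemLp.coeFn_toLp (BM_memLp F.2)

lemma inner_eq (x y : Lp ℝ 2 mu) : ⟪x, y⟫_ℝ = ∫ t, x t * y t ∂mu := by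
  rw [L2.inner_def]
  congr 1
  ext t
  simp [mul_comm]

lemma inner_TT (F G : BM) : ⟪TT F, TT G⟫_ℝ = ∫ t in (0:ℝ)..1, F.1 t * G.1 t := by
  rw [inner_eq, ← int_mu]
  apply integral_congr_ae
  filter_upwards [TT_coe F, TT_coe G] with t h1 h2
  rw [h1, h2]

noncomputable def ZZ (κ j : ℕ) : BM := ⟨zt κ j, zt_BM κ j⟩
noncomputable def VV (κ : ℕ) : BM := ⟨vv κ, vv_BM κ⟩

/-- number of functions in block `k` -/
def mm (k : ℕ) : ℕ := gm (NN (k+1))

noncomputable def CC (k j : ℕ) : BM :=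
  ZZ (k+1) j - aa (k+1) j • (∑ i : Fin (mm k), aa (k+1) i • ZZ (k+1) i - VV (k+1))

lemma CC_coe (k j : ℕ) (t : ℝ) : (CC k j).1 t = ch (k+1) j t := by
  have h1 : (∑ i : Fin (mm k), aa (k+1) i • ZZ (k+1) i : BM).1 t = uu (k+1) t := by
    have : (∑ i : Fin (mm k), aa (k+1) i • ZZ (k+1) i : BM).1
        = ∑ i : Fin (mm k), aa (k+1) i • zt (k+1) i := by
      simp [ZZ]
    rw [this, Finset.sum_apply]
    unfold uu
    rw [Finset.sum_range (fun j => aa (k+1) j * zt (k+1) j t)]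
    rfl
  change (ZZ (k+1) j).1 t - aa (k+1) j * ((∑ i : Fin (mm k), aa (k+1) i • ZZ (k+1) i : BM).1 t
    - (VV (k+1)).1 t) = _
  rw [h1]
  rfl

lemma ortho : Orthonormal ℝ (fun p : (k : ℕ) × Fin (mm k) => TT (CC p.1 p.2)) := by
  have h := reflect mm (fun k i => TT (ZZ (k+1) i)) (fun k => TT (VV (k+1)))
    (fun k i j => ?_) (fun k l hkl i j => ?_) (fun k l => ?_) (fun k i l => ?_)
    (fun k j => aa (k+1) j) (fun k => ?_)
  · convert h using 2 with p
    unfold CC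
    rw [map_sub, map_smul, map_sub, map_sum]
    simp only [map_smul]
  · rw [inner_TT]
    have := zt_zt_same (κ := k+1) (by omega) i.2 j.2
    simp only [ZZ]
    rw [this]
    simp only [Fin.ext_iff]
  · rw [inner_TT]
    simp only [ZZ]
    rcases lt_or_gt_of_ne hkl with h | h
    · exact zt_zt_lt (by omega) _ _
    · have := zt_zt_lt (κ := l+1) (κ' := k+1) (by omega) j i
      rw [← this]
      congr 1; ext t; ring
  · rw [inner_TT]
    simp only [VV]
    rcases lt_trichotomy k l with h | h | h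
    · rw [if_neg h.ne]
      have : ∀ t, vv (k+1) t * vv (l+1) t = 0 := vv_vv (by omega)
      simp only [this, intervalIntegral.integral_zero]
    · subst h
      rw [if_pos rfl, int_vv]
    · rw [if_neg h.ne']
      have : ∀ t, vv (k+1) t * vv (l+1) t = 0 := fun t => by
        rw [mul_comm]; exact vv_vv (by omega) t
      simp only [this, intervalIntegral.integral_zero]
  · rw [inner_TT]
    simp only [VV, ZZ]
    have := vv_zt (i := l+1) (κ := k+1) i
    rw [← this]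
    congr 1; ext t; ring
  · have := sum_aa (k+1)
    rw [Finset.sum_range] at this
    exact this

lemma mm_pos (k : ℕ) : 0 < mm k := gm_pos (NN_pos _)

/-- Chebyshev -/
lemma cheb (κ : ℕ) : mu {t | (NN κ : ℝ)/5 < |gU (NN κ) (2^κ * t)|} ≤
    ENNReal.ofReal (25 / NN κ) := by
  have hN0 : (0:ℝ) < NN κ := by exact_mod_cast NN_pos κ
  have hb : (fun t => gU (NN κ) (2^κ * t) * gU (NN κ) (2^κ * t)) ∈ BM :=
    BM_mul (BM_comp (gU_BM _) (measurable_const_mul _)) (BM_comp (gU_BM _) (measurable_const_mul _))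
  have hint : ∫ t, gU (NN κ) (2^κ * t) * gU (NN κ) (2^κ * t) ∂mu = NN κ := by
    rw [int_mu]
    have := PL (n := κ) (Dy.const κ 1) (BM_const 1) (BM_mul (gU_BM (NN κ)) (gU_BM (NN κ)))
      ((gU_per (NN κ)).mul (gU_per (NN κ)))
    simp only [one_mul] at this
    rw [this, int_gU]
    simp
  have h1 := mul_meas_ge_le_integral_of_nonneg (μ := mu)
    (f := fun t => gU (NN κ) (2^κ * t) * gU (NN κ) (2^κ * t))
    (Eventually.of_forall (fun t => mul_self_nonneg _))
    ((MemLp.integrable (q := 2) (by norm_num) (BM_memLp hb))) (((NN κ : ℝ)/5)^2)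
  rw [hint] at h1
  have hsub : {t | (NN κ : ℝ)/5 < |gU (NN κ) (2^κ * t)|} ⊆
      {t | ((NN κ : ℝ)/5)^2 ≤ gU (NN κ) (2^κ * t) * gU (NN κ) (2^κ * t)} := by
    intro t ht
    have ht' : (NN κ : ℝ)/5 < |gU (NN κ) (2^κ * t)| := ht
    change ((NN κ : ℝ)/5)^2 ≤ gU (NN κ) (2^κ * t) * gU (NN κ) (2^κ * t)
    rw [← abs_mul_abs_self]
    have : (0:ℝ) ≤ (NN κ : ℝ)/5 := by positivity
    nlinarith
  refine (measure_mono hsub).trans ?_
  rw [← ENNReal.ofReal_toReal (measure_ne_top mu _)]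
  apply ENNReal.ofReal_le_ofReal
  rw [le_div_iff₀ hN0]
  have h2 : ((NN κ : ℝ)/5)^2 * (mu {t | ((NN κ : ℝ)/5)^2 ≤
    gU (NN κ) (2^κ * t) * gU (NN κ) (2^κ * t)}).toReal ≤ NN κ := h1
  set M := (mu {t | ((NN κ : ℝ)/5)^2 ≤ gU (NN κ) (2^κ * t) * gU (NN κ) (2^κ * t)}).toReal
  have h3 : (NN κ : ℝ) * (M * NN κ) ≤ NN κ * 25 := by nlinarith
  exact le_of_mul_le_mul_left h3 hN0

lemma two_pow_le_NN (κ : ℕ) : 2^κ ≤ NN κ := by
  refine le_trans ?_ (le_NN κ)
  unfold RR
  apply Nat.pow_le_pow_right (by norm_num)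
  nlinarith [Nat.le_self_pow (n := 2) (by norm_num) κ]

lemma ae_good : ∀ᵐ t ∂mu, ∀ᶠ κ in atTop, |gU (NN κ) (2^κ * t)| ≤ NN κ / 5 := by
  have hsum : (∑' κ, mu {t | (NN κ : ℝ)/5 < |gU (NN κ) (2^κ * t)|}) ≠ ⊤ := by
    refine ne_top_of_le_ne_top ?_ (ENNReal.tsum_le_tsum (fun κ => cheb κ))
    have hle : ∀ κ : ℕ, ENNReal.ofReal (25 / NN κ) ≤ ENNReal.ofReal (25 * (1/2)^κ) := by
      intro κ
      apply ENNReal.ofReal_le_ofReal
      have h1 : (2:ℝ)^κ ≤ NN κ := by exact_mod_cast two_pow_le_NN κ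
      rw [one_div_pow, mul_one_div]
      exact div_le_div_of_nonneg_left (by norm_num) (by positivity) h1
    refine ne_top_of_le_ne_top ?_ (ENNReal.tsum_le_tsum hle)
    have hs : Summable (fun κ : ℕ => (25:ℝ) * (1/2)^κ) :=
      (summable_geometric_of_lt_one (by norm_num) (by norm_num)).mul_left 25
    rw [← ENNReal.ofReal_tsum_of_nonneg (fun n => by positivity) hs]
    exact ENNReal.ofReal_ne_top
  filter_upwards [ae_eventually_notMem hsum] with t ht
  filter_upwards [ht] with κ hκ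
  exact not_lt.mp hκ

lemma ae_Ioo : ∀ᵐ t ∂mu, t ∈ Ioo (0:ℝ) 1 := by
  have h1 : mu = volume.restrict (Ioo (0:ℝ) 1) := (Measure.restrict_congr_set Ioo_ae_eq_Icc).symm
  rw [h1]
  exact ae_restrict_mem measurableSet_Ioo

lemma ev_ee {t : ℝ} (ht : 0 < t) : ∀ᶠ κ in atTop, ee κ t = 1 := by
  obtain ⟨K, hK⟩ := exists_pow_lt_of_lt_one ht (show (1/2:ℝ) < 1 by norm_num)
  filter_upwards [eventually_ge_atTop K] with κ hκ
  unfold ee
  rw [if_neg]
  have h1 : (1/2:ℝ)^κ < t :=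
    lt_of_le_of_lt (pow_le_pow_of_le_one (by norm_num) (by norm_num) hκ) hK
  have h2 : (1:ℝ) ≤ 2^κ * t := by
    have h3 : (1:ℝ) = 2^κ * (1/2)^κ := by rw [one_div_pow]; field_simp
    rw [h3]
    exact mul_le_mul_of_nonneg_left h1.le (by positivity)
  have h4 : (1:ℤ) ≤ ⌊(2:ℝ)^κ * t⌋ := Int.le_floor.mpr (by exact_mod_cast h2)
  omega

/-- Main construction. -/
theorem main : ∃ φ : ℕ → ℝ → ℝ,
      (∀ n, Measurable (φ n)) ∧
      (∀ n, MemLp (φ n) 2 (volume.restrict (Set.Icc (0:ℝ) 1))) ∧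
      (∀ i j, ∫ t in Set.Icc (0:ℝ) 1, φ i t * φ j t = if i = j then (1:ℝ) else 0) ∧
      (∀ g : ℝ → ℝ, MemLp g 2 (volume.restrict (Set.Icc (0:ℝ) 1)) →
        (∀ n, ∫ t in Set.Icc (0:ℝ) 1, g t * φ n t = 0) →
        g =ᵐ[volume.restrict (Set.Icc (0:ℝ) 1)] 0) ∧
      (∀ f : ℝ → ℝ, AnalyticOnNhd ℝ f (Set.Icc (0:ℝ) 1) →
        (∃ x ∈ Set.Icc (0:ℝ) 1, f x ≠ 0) →
        ∀ᵐ t ∂(volume.restrict (Set.Icc (0:ℝ) 1)),
          ¬ ∃ L : ℝ, Tendsto
            (fun N : ℕ => ∑ n ∈ Finset.range N,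
              (∫ s in Set.Icc (0:ℝ) 1, f s * φ n s) * φ n t)
            atTop (𝓝 L)) := by
  have : Fact ((2:ENNReal) ≠ ⊤) := ⟨by simp⟩
  obtain ⟨y, hy, hyc, hyb⟩ := interleave mm mm_pos _ ortho
  refine ⟨fun n t => y n t, fun n => (Lp.stronglyMeasurable (y n)).measurable,
    fun n => Lp.memLp (y n), ?_, ?_, ?_⟩
  · intro i j
    have := orthonormal_iff_ite.mp hy i j
    rw [inner_eq] at this
    exact this
  · intro g hg h0
    have h1 : hg.toLp g = 0 := by
      apply hyc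
      intro n
      rw [inner_eq]
      refine (integral_congr_ae ?_).trans (h0 n)
      filter_upwards [hg.coeFn_toLp] with t ht
      rw [ht]
    have h2 := hg.coeFn_toLp
    rw [h1] at h2
    filter_upwards [h2, Lp.coeFn_zero ℝ 2 mu] with t h3 h4
    rw [← h3, h4]
  · intro f hf hne
    obtain ⟨F, hFB, hFf, ⟨Λ, hΛ⟩, K, hK⟩ := analytic_data hf hne
    have hint : ∀ n, ∫ s in Set.Icc (0:ℝ) 1, f s * y n s = ∫ s, F s * y n s ∂mu := by
      intro n
      apply setIntegral_congr_fun measurableSet_Icc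
      intro s hs
      simp only [hFf s hs]
    have hblk : ∀ k (j : Fin (mm (2*k))), ∀ᵐ t ∂mu,
        y (pos (fun k => mm (2*k)) k + j) t = ch (2*k+1) j t := by
      intro k j
      rw [hyb k j]
      filter_upwards [TT_coe (CC (2*k) j)] with t ht
      rw [ht, CC_coe]
    have hcoef : ∀ k (j : Fin (mm (2*k))),
        ∫ s, F s * y (pos (fun k => mm (2*k)) k + j) s ∂mu
          = ∫ s in (0:ℝ)..1, F s * ch (2*k+1) j s := by
      intro k j
      rw [← int_mu]
      apply integral_congr_ae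
      filter_upwards [hblk k j] with t ht
      rw [ht]
    have hall : ∀ᵐ t ∂mu, ∀ k (j : Fin (mm (2*k))),
        y (pos (fun k => mm (2*k)) k + j) t = ch (2*k+1) j t :=
      ae_all_iff.mpr (fun k => ae_all_iff.mpr (fun j => hblk k j))
    filter_upwards [hall, ae_good, ae_Ioo] with t ht hgood hIoo
    rintro ⟨L, hL⟩
    simp only [hint] at hL
    rw [Metric.tendsto_atTop] at hL
    obtain ⟨N0, hN0⟩ := hL (1/2) (by norm_num)
    obtain ⟨K1, hK1⟩ := eventually_atTop.mp hgood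
    obtain ⟨K2, hK2⟩ := eventually_atTop.mp (ev_ee hIoo.1)
    obtain ⟨K3, hK3⟩ := pow_unbounded_of_one_lt (7 * Λ) (show (1:ℝ) < 2 by norm_num)
    set k := N0 + K + K1 + K2 + K3 with hk
    have hNN : K3 ≤ NN (2*k+1) := by
      have := le_RR (2*k+1)
      have := le_NN (2*k+1)
      omega
    obtain ⟨l, hl, hbig⟩ := block_big hFB hΛ (κ := 2*k+1) (by omega) (hK _ (by omega))
      (hK3.le.trans (pow_le_pow_right₀ (by norm_num) hNN)) (hK2 _ (by omega)) (hK1 _ (by omega))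
    have hpos : N0 ≤ pos (fun k => mm (2*k)) k := by
      have := le_pos (fun k => mm (2*k)) k
      omega
    set P : ℕ → ℝ := fun N => ∑ n ∈ Finset.range N, (∫ s, F s * y n s ∂mu) * y n t with hP
    have h1 := hN0 _ hpos
    have h2 := hN0 (pos (fun k => mm (2*k)) k + l) (by omega)
    rw [Real.dist_eq] at h1 h2
    have h3 : ∑ n ∈ Finset.range (pos (fun k => mm (2*k)) k + l), (∫ s, F s * y n s ∂mu) * y n t
        = ∑ n ∈ Finset.range (pos (fun k => mm (2*k)) k), (∫ s, F s * y n s ∂mu) * y n t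
          + ∑ j ∈ Finset.range l, (∫ s in (0:ℝ)..1, F s * ch (2*k+1) j s) * ch (2*k+1) j t := by
      rw [Finset.sum_range_add]
      congr 1
      refine Finset.sum_congr rfl (fun j hj => ?_)
      have hj' : j < mm (2*k) := lt_of_lt_of_le (Finset.mem_range.mp hj) hl
      have e1 := hcoef k ⟨j, hj'⟩
      have e2 := ht k ⟨j, hj'⟩
      simp only at e1 e2
      rw [e1, e2]
    rw [h3] at h2
    set A := ∑ n ∈ Finset.range (pos (fun k => mm (2*k)) k), (∫ s, F s * y n s ∂mu) * y n t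
    set B := ∑ j ∈ Finset.range l, (∫ s in (0:ℝ)..1, F s * ch (2*k+1) j s) * ch (2*k+1) j t
    have h4 : |B| ≤ |A + B - L| + |A - L| := by
      have : B = (A + B - L) - (A - L) := by ring
      calc |B| = |(A + B - L) - (A - L)| := by rw [← this]
        _ ≤ _ := abs_sub _ _
    linarith

end Pool.Agent.H431R2.ONS
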