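import Pool.Agent.H85R2.PIElem

/-!
# The Vaserstein-Suslin lemma for the double of a ring
-/

set_option autoImplicit false
set_option linter.unusedSectionVars false

namespace Pool.Agent.H431R2.ZLem

open Matrix Polynomial Pool.Agent.H85R2.PI
open scoped commutatorElement

section Z

variable {ι T : Type*} [Fintype ι] [DecidableEq ι] [Ring T]

/-- `z_ij(a,b) = t_ji(b) t_ij(a) t_ji(b)⁻¹` -/
def zz (i j : ι) (a b : T) : (Matrix ι ι T)ˣ := tv j i b * tv i j a * (tv j i b)⁻¹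

/-- the subgroup generated by the `z_ij(a,b)`, `a ∈ I` -/
def Zg (ι : Type*) {T : Type*} [Fintype ι] [DecidableEq ι] [Ring T] (I : Ideal T) :
    Subgroup (Matrix ι ι T)ˣ :=
  Subgroup.closure {g | ∃ i j : ι, i ≠ j ∧ ∃ a ∈ I, ∃ b : T, g = zz i j a b}

/-- the column of `z_ij(a,b)` -/
def vc (i j : ι) (b : T) : ι → T := Pi.single i 1 + Pi.single j b
/-- the row of `z_ij(a,b)` -/
def ur (i j : ι) (b : T) : ι → T := Pi.single j 1 - Pi.single i b

theorem vc_i {i j : ι} (h : i ≠ j) (b : T) : vc i j b i = 1 := by simp [vc, h]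
theorem vc_j {i j : ι} (h : i ≠ j) (b : T) : vc i j b j = b := by simp [vc, h.symm]
theorem vc_of_ne {i j p : ι} (h1 : p ≠ i) (h2 : p ≠ j) (b : T) : vc i j b p = 0 := by
  simp [vc, h1, h2]
theorem ur_i {i j : ι} (h : i ≠ j) (b : T) : ur i j b i = -b := by simp [ur, h]
theorem ur_j {i j : ι} (h : i ≠ j) (b : T) : ur i j b j = 1 := by simp [ur, h.symm]
theorem ur_of_ne {i j p : ι} (h1 : p ≠ i) (h2 : p ≠ j) (b : T) : ur i j b p = 0 := by
  simp [ur, h1, h2]

theorem ur_vc {i j : ι} (h : i ≠ j) (b : T) : ur i j b ⬝ᵥ vc i j b = 0 := by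
  rw [ur, vc]
  simp [sub_dotProduct, dotProduct_add, h, h.symm]

theorem tv_mulVec {k l : ι} (h : k ≠ l) (c : T) (v : ι → T) :
    ((tv k l c : (Matrix ι ι T)ˣ) : Matrix ι ι T) *ᵥ v = v + Pi.single k (c * v l) := by
  rw [coe_tv h, add_mulVec, one_mulVec]
  congr 1
  ext p
  simp only [mulVec, dotProduct, single_apply, Pi.single_apply]
  by_cases hp : k = p
  · subst hp
    simp
  · have hp' : p ≠ k := fun h => hp h.symm
    simp [hp, hp']

theorem vecMul_tv_inv {k l : ι} (h : k ≠ l) (c : T) (u : ι → T) :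
    u ᵥ* (((tv k l c)⁻¹ : (Matrix ι ι T)ˣ) : Matrix ι ι T) = u - Pi.single l (u k * c) := by
  rw [coe_tv_inv h, vecMul_add, vecMul_one, sub_eq_add_neg]
  congr 1
  ext p
  simp only [vecMul, dotProduct, single_apply, Pi.single_apply, Pi.neg_apply]
  by_cases hp : l = p
  · subst hp
    simp
  · have hp' : p ≠ l := fun h => hp h.symm
    simp [hp, hp']

theorem zz_coe {i j : ι} (h : i ≠ j) (a b : T) :
    ((zz i j a b : (Matrix ι ι T)ˣ) : Matrix ι ι T) = ro (vc i j b) (a • ur i j b) := by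
  rw [zz, Units.val_mul, Units.val_mul, coe_tv_ro' h, conj_ro, tv_mulVec h.symm,
    vecMul_tv_inv h.symm]
  congr 1
  · rw [vc]
    simp
  · rw [ur]
    simp [h.symm, smul_sub, ← Pi.single_smul]

/-- conjugate of `z_ij(a,b)` by a transvection, as a matrix -/
theorem conj_zz {i j k l : ι} (h : i ≠ j) (hkl : k ≠ l) (a b c : T) :
    ((tv k l c * zz i j a b * (tv k l c)⁻¹ : (Matrix ι ι T)ˣ) : Matrix ι ι T) =
      ro (vc i j b + Pi.single k (c * vc i j b l))
        (a • (ur i j b - Pi.single l (ur i j b k * c))) := by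
  rw [Units.val_mul, Units.val_mul, zz_coe h, conj_ro, tv_mulVec hkl, smul_vecMul,
    vecMul_tv_inv hkl]

theorem ElS_le_Zg (I : Ideal T) : ElS ι (I : Set T) ≤ Zg ι I := by
  rw [ElS, Subgroup.closure_le]
  rintro _ ⟨i, j, r, hr, rfl⟩
  by_cases h : i = j
  · subst h; rw [tv_self]; exact Subgroup.one_mem _
  · refine Subgroup.subset_closure ⟨i, j, h, r, hr, 0, ?_⟩
    rw [zz, tv_zero]; simp

theorem ro_smul_right (v w : ι → T) (x : T) : ro v (x • w) = ro (fun k => v k * x) w := by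
  rw [ro, ro]
  congr 1
  ext k l
  simp [vecMulVec_apply, mul_assoc]

theorem ro_single_left (k : ι) (x : T) (w : ι → T) :
    ro (Pi.single k x) w = ro (Pi.single k 1) (x • w) := by
  rw [ro_smul_right]
  congr 1
  ext p
  by_cases hp : p = k
  · subst hp; simp
  · simp [hp]

variable (I : Ideal T) [I.IsTwoSided]

/-- the easy cases -/
theorem conj_easy {i j k l : ι} (h : i ≠ j) (hkl : k ≠ l) (hne : ¬ (k = i ∧ l = j))
    {a : T} (ha : a ∈ I) (b c : T) :
    tv k l c * zz i j a b * (tv k l c)⁻¹ ∈ Zg ι I := by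
  have hz : InM (Zg ι I) (ro (vc i j b) (a • ur i j b)) := by
    rw [← zz_coe h]
    exact ⟨_, Subgroup.subset_closure ⟨i, j, h, a, ha, b, rfl⟩, rfl⟩
  by_cases hk : k ≠ i ∧ k ≠ j
  · -- `k` is a new index
    rw [← InM.of_unit, conj_zz h hkl, ur_of_ne hk.1 hk.2, zero_mul, Pi.single_zero, sub_zero,
      ← ro_add_left (by
        rw [smul_dotProduct]
        simp [ur_of_ne hk.1 hk.2])]
    refine hz.mul ?_
    rw [ro_single_left]
    refine (InM_row k _ ?_ ?_).mono (ElS_le_Zg I)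
    · simp [ur_of_ne hk.1 hk.2]
    · intro q
      simp only [Pi.smul_apply, smul_eq_mul]
      exact I.mul_mem_left _ (I.mul_mem_right _ ha)
  · by_cases hl : l ≠ i ∧ l ≠ j
    · -- `l` is a new index
      rw [← InM.of_unit, conj_zz h hkl, vc_of_ne hl.1 hl.2, mul_zero, Pi.single_zero, add_zero,
        smul_sub, sub_eq_add_neg, ← ro_add_right (by rw [smul_dotProduct, ur_vc h, smul_zero])]
      refine hz.mul ?_
      have e : -(a • (Pi.single l (ur i j b k * c) : ι → T))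
          = (-(a * (ur i j b k * c))) • (Pi.single l 1 : ι → T) := by
        rw [← Pi.single_smul, ← Pi.single_smul, ← Pi.single_neg]
        simp
      rw [e, ro_smul_right]
      refine (InM_col l _ ?_ ?_).mono (ElS_le_Zg I)
      · simp [vc_of_ne hl.1 hl.2]
      · intro q
        exact I.mul_mem_left _ (I.neg_mem (I.mul_mem_right _ ha))
    · -- `(k, l) = (j, i)`
      have hkj : k = j ∧ l = i := by
        have h1 : k = i ∨ k = j := by tauto
        have h2 : l = i ∨ l = j := by tauto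
        rcases h1 with h1 | h1 <;> rcases h2 with h2 | h2
        · exact absurd (h1.trans h2.symm) hkl
        · exact absurd ⟨h1, h2⟩ hne
        · exact ⟨h1, h2⟩
        · exact absurd (h1.trans h2.symm) hkl
      obtain ⟨rfl, rfl⟩ := hkj
      refine Subgroup.subset_closure ⟨l, k, h, a, ha, c + b, ?_⟩
      rw [zz, zz, tv_add]
      group

/-- the hard case -/
theorem conj_hard {i j : ι} (h3 : ∃ k : ι, k ≠ i ∧ k ≠ j) (h : i ≠ j)
    {a : T} (ha : a ∈ I) (b c : T) :
    tv i j c * zz i j a b * (tv i j c)⁻¹ ∈ Zg ι I := by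
  obtain ⟨p, hpi, hpj⟩ := h3
  -- the new column and row
  set v' : ι → T := vc i j b + Pi.single i (c * vc i j b j) with hv'
  set u' : ι → T := ur i j b - Pi.single j (ur i j b i * c) with hu'
  have hv'p : v' p = 0 := by simp [hv', vc_of_ne hpi hpj, hpi]
  have hu'p : u' p = 0 := by simp [hu', ur_of_ne hpi hpj, hpj]
  have hv'i : v' i = 1 + c * b := by simp [hv', vc_i h, vc_j h]
  have hv'j : v' j = b := by simp [hv', vc_j h, h.symm]
  have hu'i : u' i = -b := by simp [hu', ur_i h, h]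
  have hu'j : u' j = 1 + b * c := by simp [hu', ur_i h, ur_j h]
  have hv'0 : ∀ q, q ≠ i → q ≠ j → v' q = 0 := by
    intro q h1 h2; simp [hv', vc_of_ne h1 h2, h1]
  have hu'0 : ∀ q, q ≠ i → q ≠ j → u' q = 0 := by
    intro q h1 h2; simp [hu', ur_of_ne h1 h2, h2]
  have horth : u' ⬝ᵥ v' = 0 := by
    have e : u' = Pi.single i (-b) + Pi.single j (1 + b * c) := by
      ext q
      by_cases h1 : q = i
      · subst h1; rw [hu'i]; simp [h]
      · by_cases h2 : q = j
        · subst h2; rw [hu'j]; simp [h1]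
        · rw [hu'0 q h1 h2]; simp [h1, h2]
    rw [e, add_dotProduct, single_dotProduct, single_dotProduct, hv'i, hv'j]
    noncomm_ring
  rw [← InM.of_unit, conj_zz h h]
  change InM (Zg ι I) (ro v' (a • u'))
  -- `X' = t_ip((1+cb)a) t_jp(ba)`, `Y' = t_pj(1+bc) t_pi(-b)`
  set x1 : T := (1 + c * b) * a with hx1
  set x2 : T := b * a with hx2
  have hx1I : x1 ∈ I := I.mul_mem_left _ ha
  have hx2I : x2 ∈ I := I.mul_mem_left _ ha
  set X : (Matrix ι ι T)ˣ := tv i p x1 * tv j p x2 with hX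
  set Y : (Matrix ι ι T)ˣ := tv p j (1 + b * c) * tv p i (-b) with hY
  have hXm : (X : Matrix ι ι T) = ro v' (Pi.single p a) := by
    rw [hX, Units.val_mul, coe_tv_ro hpi.symm, coe_tv_ro hpj.symm, ro_add_left (by simp [hpj])]
    have e : (Pi.single p a : ι → T) = a • Pi.single p 1 := by
      rw [← Pi.single_smul]; simp
    rw [e, ro_smul_right]
    congr 1
    ext q
    by_cases h1 : q = i
    · subst h1; simp [hv'i, hx1, h]
    · by_cases h2 : q = j
      · subst h2; simp [hv'j, hx2, h1]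
      · simp [hv'0 q h1 h2, h1, h2]
  have hYm : (Y : Matrix ι ι T) = ro (Pi.single p 1) u' := by
    rw [hY, Units.val_mul, coe_tv_ro' hpj, coe_tv_ro' hpi, ro_add_right (by simp [hpj.symm])]
    congr 1
    ext q
    by_cases h1 : q = i
    · subst h1; simp [hu'i, h]
    · by_cases h2 : q = j
      · subst h2; simp [hu'j, h1]
      · simp [hu'0 q h1 h2, h1, h2]
  have hrel : (X : Matrix ι ι T) * Y = ro v' (a • u') * (Y * X) := by
    rw [hXm, hYm, ro, ro, ro]
    have e1 : vecMulVec v' (Pi.single p a : ι → T) * vecMulVec (Pi.single p 1) u'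
        = vecMulVec v' (a • u') := by
      rw [vecMulVec_mul_vecMulVec]; simp
    have e2 : vecMulVec (Pi.single p (1:T)) u' * vecMulVec v' (Pi.single p a : ι → T) = 0 := by
      rw [vecMulVec_mul_vecMulVec, horth]; simp
    have e3 : vecMulVec v' (a • u') * vecMulVec (Pi.single p (1:T)) u' = 0 := by
      rw [vecMulVec_mul_vecMulVec, smul_dotProduct]; simp [hu'p]
    have e4 : vecMulVec v' (a • u') * vecMulVec v' (Pi.single p a : ι → T) = 0 := by
      rw [vecMulVec_mul_vecMulVec, smul_dotProduct, horth]; simp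
    have e5 : (1 + vecMulVec (Pi.single p (1:T)) u') * (1 + vecMulVec v' (Pi.single p a : ι → T))
        = 1 + vecMulVec (Pi.single p (1:T)) u' + vecMulVec v' (Pi.single p a : ι → T) := by
      rw [mul_add, mul_one, add_mul, one_mul, e2]; abel
    rw [e5, mul_add, mul_one, add_mul, one_mul, e1]
    rw [add_mul, one_mul, mul_add, mul_add, mul_one, e3, e4]
    abel
  -- `Y X⁻¹ Y⁻¹ ∈ Z`
  have hc1 : Y * tv i p (-x1) * Y⁻¹ ∈ Zg ι I := by
    have h1 := conj_easy (ι := ι) I hpi.symm hpj (k := p) (l := j) (by tauto)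
      (I.neg_mem hx1I) (-b) (1 + b * c)
    have e : Y * tv i p (-x1) * Y⁻¹
        = tv p j (1 + b * c) * zz i p (-x1) (-b) * (tv p j (1 + b * c))⁻¹ := by
      rw [hY, zz]; group
    rw [e]; exact h1
  have hcomm : Y = tv p i (-b) * tv p j (1 + b * c) := by
    ext1
    rw [hY, Units.val_mul, Units.val_mul, coe_tv_ro' hpj, coe_tv_ro' hpi,
      ro_add_right (by simp [hpj.symm]), ro_add_right (by simp [hpi.symm]), add_comm]
  have hc2 : Y * tv j p (-x2) * Y⁻¹ ∈ Zg ι I := by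
    have h1 := conj_easy (ι := ι) I hpj.symm hpi (k := p) (l := i) (by tauto)
      (I.neg_mem hx2I) (1 + b * c) (-b)
    have e : Y * tv j p (-x2) * Y⁻¹
        = tv p i (-b) * zz j p (-x2) (1 + b * c) * (tv p i (-b))⁻¹ := by
      rw [hcomm, zz]; group
    rw [e]; exact h1
  have hXZ : X ∈ Zg ι I :=
    Subgroup.mul_mem _ (ElS_le_Zg I (tv_memS _ _ hx1I)) (ElS_le_Zg I (tv_memS _ _ hx2I))
  have hYX : Y * X⁻¹ * Y⁻¹ ∈ Zg ι I := by
    have e : Y * X⁻¹ * Y⁻¹ = (Y * tv j p (-x2) * Y⁻¹) * (Y * tv i p (-x1) * Y⁻¹) := by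
      rw [hX, tv_neg, tv_neg]; group
    rw [e]
    exact Subgroup.mul_mem _ hc2 hc1
  refine ⟨X * (Y * X⁻¹ * Y⁻¹), Subgroup.mul_mem _ hXZ hYX, ?_⟩
  have e : X * (Y * X⁻¹ * Y⁻¹) = (X * Y) * (Y * X)⁻¹ := by group
  rw [e, Units.val_mul, Units.val_mul, hrel, mul_assoc, ← Units.val_mul Y X, Units.mul_inv, mul_one]

theorem conj_gen (h3 : ∀ i j : ι, ∃ k : ι, k ≠ i ∧ k ≠ j) (k l : ι) (c : T)
    {z : (Matrix ι ι T)ˣ} (hz : z ∈ Zg ι I) : tv k l c * z * (tv k l c)⁻¹ ∈ Zg ι I := by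
  by_cases hkl : k = l
  · subst hkl; rw [tv_self]; simpa using hz
  · unfold Zg at hz
    induction hz using Subgroup.closure_induction with
    | mem z hz =>
      obtain ⟨i, j, h, a, ha, b, rfl⟩ := hz
      by_cases hne : k = i ∧ l = j
      · obtain ⟨rfl, rfl⟩ := hne
        exact conj_hard I (h3 k l) h ha b c
      · exact conj_easy I h hkl hne ha b c
    | one => simp
    | mul x y hx hy h1 h2 =>
      have e : tv k l c * (x * y) * (tv k l c)⁻¹
          = (tv k l c * x * (tv k l c)⁻¹) * (tv k l c * y * (tv k l c)⁻¹) := by group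
      rw [e]; exact Subgroup.mul_mem _ h1 h2
    | inv x hx h1 =>
      have e : tv k l c * x⁻¹ * (tv k l c)⁻¹ = (tv k l c * x * (tv k l c)⁻¹)⁻¹ := by group
      rw [e]; exact Subgroup.inv_mem _ h1

theorem El_le_normalizer (h3 : ∀ i j : ι, ∃ k : ι, k ≠ i ∧ k ≠ j) :
    El ι T ≤ Subgroup.normalizer (Zg ι I : Set (Matrix ι ι T)ˣ) := by
  rw [El, Subgroup.closure_le]
  rintro _ ⟨k, l, c, rfl⟩
  intro n
  constructor
  · intro hn
    exact conj_gen I h3 k l c hn
  · intro hn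
    have h1 := conj_gen I h3 k l (-c) hn
    rw [tv_neg] at h1
    have e : (tv k l c)⁻¹ * (tv k l c * n * (tv k l c)⁻¹) * ((tv k l c)⁻¹)⁻¹ = n := by group
    rw [e] at h1
    exact h1

theorem conj_El (h3 : ∀ i j : ι, ∃ k : ι, k ≠ i ∧ k ≠ j) {g z : (Matrix ι ι T)ˣ}
    (hg : g ∈ El ι T) (hz : z ∈ Zg ι I) : g * z * g⁻¹ ∈ Zg ι I :=
  (El_le_normalizer I h3 hg z).1 hz

variable (c : Ideal T) [c.IsTwoSided]

/-- products of two elements of `c` -/
theorem zz_prod {i j : ι} (h3 : ∃ k : ι, k ≠ i ∧ k ≠ j) (h : i ≠ j) {x y : T}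
    (hx : x ∈ c) (hy : y ∈ c) (b : T) :
    InM (ElS ι (c : Set T)) (ro (vc i j b) ((x * y) • ur i j b)) := by
  obtain ⟨p, hpi, hpj⟩ := h3
  have hX : InM (ElS ι (c : Set T)) (ro (vc i j b) (Pi.single p x)) := by
    have e : (Pi.single p x : ι → T) = x • Pi.single p 1 := by
      rw [← Pi.single_smul]; simp
    rw [e, ro_smul_right]
    refine InM_col p _ ?_ ?_
    · simp [vc_of_ne hpi hpj]
    · intro q; exact c.mul_mem_left _ hx
  have hY : InM (ElS ι (c : Set T)) (ro (Pi.single p 1) (y • ur i j b)) := by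
    refine InM_row p _ ?_ ?_
    · simp [ur_of_ne hpi hpj]
    · intro q; exact c.mul_mem_right _ hy
  refine hX.comm hY ?_
  rw [ro, ro, ro]
  set v := vc i j b with hv
  set u := ur i j b with hu
  have hup : u p = 0 := ur_of_ne hpi hpj b
  have horth : u ⬝ᵥ v = 0 := ur_vc h b
  have e1 : vecMulVec v (Pi.single p x : ι → T) * vecMulVec (Pi.single p 1) (y • u)
      = vecMulVec v ((x * y) • u) := by
    rw [vecMulVec_mul_vecMulVec]; simp [mul_smul]
  have e2 : vecMulVec (Pi.single p (1:T)) (y • u) * vecMulVec v (Pi.single p x : ι → T) = 0 := by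
    rw [vecMulVec_mul_vecMulVec, smul_dotProduct, horth]; simp
  have e3 : vecMulVec v ((x * y) • u) * vecMulVec (Pi.single p (1:T)) (y • u) = 0 := by
    rw [vecMulVec_mul_vecMulVec, smul_dotProduct]; simp [hup]
  have e4 : vecMulVec v ((x * y) • u) * vecMulVec v (Pi.single p x : ι → T) = 0 := by
    rw [vecMulVec_mul_vecMulVec, smul_dotProduct, horth]; simp
  have e5 : (1 + vecMulVec (Pi.single p (1:T)) (y • u)) * (1 + vecMulVec v (Pi.single p x : ι → T))
      = 1 + vecMulVec (Pi.single p (1:T)) (y • u) + vecMulVec v (Pi.single p x : ι → T) := by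
    rw [mul_add, mul_one, add_mul, one_mul, e2]; abel
  rw [e5, mul_add, mul_one, add_mul, one_mul, e1]
  rw [add_mul, one_mul, mul_add, mul_add, mul_one, e3, e4]
  abel

theorem Zg_le_ElS (h3 : ∀ i j : ι, ∃ k : ι, k ≠ i ∧ k ≠ j)
    (hcI : ∀ x ∈ I, x ∈ AddSubgroup.closure {z : T | ∃ a ∈ c, ∃ b ∈ c, z = a * b}) :
    Zg ι I ≤ ElS ι (c : Set T) := by
  rw [Zg, Subgroup.closure_le]
  rintro _ ⟨i, j, h, a, ha, b, rfl⟩
  change zz i j a b ∈ ElS ι (c : Set T)
  rw [← InM.of_unit, zz_coe h]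
  have hmem := hcI a ha
  clear ha
  induction hmem using AddSubgroup.closure_induction with
  | mem z hz =>
    obtain ⟨x, hx, y, hy, rfl⟩ := hz
    exact zz_prod c (h3 i j) h hx hy b
  | zero => rw [zero_smul, ro_zero_right]; exact InM.one _
  | add x y hx hy h1 h2 =>
    rw [add_smul, ← ro_add_right (by rw [smul_dotProduct, ur_vc h, smul_zero])]
    exact h1.mul h2
  | neg x hx h1 =>
    refine h1.of_mul_left ?_
    rw [ro_add_right (by rw [smul_dotProduct, ur_vc h, smul_zero]), ← add_smul, add_neg_cancel,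
      zero_smul, ro_zero_right]
    exact InM.one _

end Z

theorem Zlem {ι : Type*} [Fintype ι] [DecidableEq ι]
    (h3 : ∀ i j : ι, ∃ k : ι, k ≠ i ∧ k ≠ j) {Γ T : Type*} [CommRing Γ] [Ring T] [Algebra Γ T]
    (c I : Ideal T) [c.IsTwoSided] [I.IsTwoSided]
    (hcI : ∀ x ∈ I, x ∈ AddSubgroup.closure {z : T | ∃ a ∈ c, ∃ b ∈ c, z = a * b})
    (e : (Matrix ι ι (Dbl Γ I))ˣ) (he : e ∈ El ι (Dbl Γ I)) (h2 : glm ι (p2 Γ I) e = 1) :
    glm ι (p1 Γ I) e ∈ ElS ι (c : Set T) := by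
  have key : ∀ e ∈ El ι (Dbl Γ I), glm ι (p1 Γ I) e * (glm ι (p2 Γ I) e)⁻¹ ∈ Zg ι I := by
    intro e he
    unfold El at he
    induction he using Subgroup.closure_induction with
    | mem x hx =>
      obtain ⟨i, j, r, rfl⟩ := hx
      rw [glm_tv, glm_tv, ← tv_neg, ← tv_add]
      refine ElS_le_Zg I (tv_memS _ _ ?_)
      rw [← sub_eq_add_neg]
      exact r.2
    | one => simp
    | mul x y hx hy h1 h2 =>
      have hx2 : glm ι (p2 Γ I) x ∈ El ι T := glm_El_mem _ hx
      have e : glm ι (p1 Γ I) (x * y) * (glm ι (p2 Γ I) (x * y))⁻¹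
          = (glm ι (p1 Γ I) x * (glm ι (p2 Γ I) x)⁻¹) *
            (glm ι (p2 Γ I) x * (glm ι (p1 Γ I) y * (glm ι (p2 Γ I) y)⁻¹) *
              (glm ι (p2 Γ I) x)⁻¹) := by
        rw [map_mul, map_mul]; group
      rw [e]
      exact Subgroup.mul_mem _ h1 (conj_El I h3 hx2 h2)
    | inv x hx h1 =>
      have hx2 : glm ι (p2 Γ I) x ∈ El ι T := glm_El_mem _ hx
      have e : glm ι (p1 Γ I) x⁻¹ * (glm ι (p2 Γ I) x⁻¹)⁻¹
          = (glm ι (p2 Γ I) x)⁻¹ * (glm ι (p1 Γ I) x * (glm ι (p2 Γ I) x)⁻¹)⁻¹ *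
            ((glm ι (p2 Γ I) x)⁻¹)⁻¹ := by
        rw [map_inv, map_inv]; group
      rw [e]
      exact conj_El I h3 (Subgroup.inv_mem _ hx2) (Subgroup.inv_mem _ h1)
  have h1 := key e he
  rw [h2, inv_one, mul_one] at h1
  exact Zg_le_ElS I c h3 hcI h1

/-! ### the double of a good pair -/

section Dbl

variable {Γ T : Type*} [CommRing Γ] [Ring T] [Algebra Γ T] (I : Ideal T) [I.IsTwoSided]

theorem p_inj {x y : Dbl Γ I} (h1 : p1 Γ I x = p1 Γ I y) (h2 : p2 Γ I x = p2 Γ I y) : x = y :=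
  Subtype.ext (Prod.ext h1 h2)

theorem p1_algebraMap (g : Γ) : p1 Γ I (algebraMap Γ (Dbl Γ I) g) = algebraMap Γ T g := rfl
theorem p2_algebraMap (g : Γ) : p2 Γ I (algebraMap Γ (Dbl Γ I) g) = algebraMap Γ T g := rfl

theorem p1_smul (g : Γ) (x : Dbl Γ I) : p1 Γ I (g • x) = g • p1 Γ I x := rfl
theorem p2_smul (g : Γ) (x : Dbl Γ I) : p2 Γ I (g • x) = g • p2 Γ I x := rfl

theorem pid_map {A B : Type*} [Ring A] [Ring B] (φ : A →+* B) {D : ℕ}
    {c : Equiv.Perm (Fin D) → ℤ} (hB : PId B D c) (x : Fin D → A) :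
    φ (∑ σ : Equiv.Perm (Fin D), ((c σ : ℤ) : A) * (List.ofFn (fun i => x (σ i))).prod) = 0 := by
  rw [map_sum, ← hB fun i => φ (x i)]
  refine Finset.sum_congr rfl fun σ _ => ?_
  rw [map_mul, map_intCast, map_list_prod, List.map_ofFn]
  rfl

theorem p1_mem_smul_top (m : Ideal Γ) {x : Dbl Γ I}
    (hx : x ∈ (m • (⊤ : Submodule Γ (Dbl Γ I)) : Submodule Γ (Dbl Γ I))) :
    p1 Γ I x ∈ (m • (⊤ : Submodule Γ T) : Submodule Γ T) := by
  refine Submodule.smul_induction_on hx ?_ ?_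
  · intro r hr n _
    rw [p1_smul]
    exact Submodule.smul_mem_smul hr trivial
  · intro a b ha hb
    rw [map_add]
    exact add_mem ha hb

theorem p2_mem_smul_top (m : Ideal Γ) {x : Dbl Γ I}
    (hx : x ∈ (m • (⊤ : Submodule Γ (Dbl Γ I)) : Submodule Γ (Dbl Γ I))) :
    p2 Γ I x ∈ (m • (⊤ : Submodule Γ T) : Submodule Γ T) := by
  refine Submodule.smul_induction_on hx ?_ ?_
  · intro r hr n _
    rw [p2_smul]
    exact Submodule.smul_mem_smul hr trivial
  · intro a b ha hb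
    rw [map_add]
    exact add_mem ha hb

theorem central_poly {A : Type*} [Ring A] [Algebra Γ A] (g : Γ[X]) (t : A[X]) :
    Commute (mapRingHom (algebraMap Γ A) g) t := by
  induction g using Polynomial.induction_on' with
  | add p q hp hq => rw [map_add]; exact hp.add_left hq
  | monomial n a =>
    rw [coe_mapRingHom, map_monomial]
    rw [← C_mul_X_pow_eq_monomial]
    refine Commute.mul_left ?_ (Commute.pow_left (Polynomial.commute_X t) n)
    change C (algebraMap Γ A a) * t = t * C (algebraMap Γ A a)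
    ext k
    rw [coeff_C_mul, coeff_mul_C]
    exact Algebra.commutes a _

theorem eval2_mul' {A : Type*} [Ring A] [Algebra Γ A] (f g : Γ[X][X]) (t : A[X]) :
    (f * g).eval₂ (mapRingHom (algebraMap Γ A)) t
      = f.eval₂ (mapRingHom (algebraMap Γ A)) t * g.eval₂ (mapRingHom (algebraMap Γ A)) t :=
  eval₂_mul_noncomm _ _ fun k => central_poly (g.coeff k) t

end Dbl

theorem Good_Dbl {Γ T : Type*} [CommRing Γ] [Ring T] [Algebra Γ T] (I : Ideal T) [I.IsTwoSided]
    (D : ℕ) (c : Equiv.Perm (Fin D) → ℤ) (h : Good Γ T D c) : Good Γ (Dbl Γ I) D c where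
  pid := by
    intro x
    apply p_inj (Γ := Γ) I
    · rw [pid_map (p1 Γ I) h.pid x, map_zero]
    · rw [pid_map (p2 Γ I) h.pid x, map_zero]
  b1 := by
    intro m hm b b' hb
    have h1 := h.b1 m hm (p1 Γ I b) (p1 Γ I b') (by
      have := p1_mem_smul_top I m hb
      rwa [map_sub, map_mul, map_one] at this)
    have h2 := h.b1 m hm (p2 Γ I b) (p2 Γ I b') (by
      have := p2_mem_smul_top I m hb
      rwa [map_sub, map_mul, map_one] at this)
    obtain ⟨x', s1, hs1, hx1, hx2⟩ := h1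
    obtain ⟨y', s2, hs2, hy1, hy2⟩ := h2
    have hmem : (x' * algebraMap Γ T s2, algebraMap Γ T s1 * y') ∈ Dbl Γ I := by
      change x' * algebraMap Γ T s2 - algebraMap Γ T s1 * y' ∈ I
      have e : x' * algebraMap Γ T s2 - algebraMap Γ T s1 * y'
          = -(x' * (p1 Γ I b - p2 Γ I b) * y') := by
        rw [← hy1, ← hx2]; noncomm_ring
      rw [e]
      refine I.neg_mem (I.mul_mem_right _ (I.mul_mem_left _ ?_))
      exact b.2
    refine ⟨⟨_, hmem⟩, s1 * s2, ?_, ?_, ?_⟩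
    · intro h12
      rcases hm.isPrime.mem_or_mem h12 with h | h
      · exact hs1 h
      · exact hs2 h
    · apply p_inj (Γ := Γ) I
      · rw [map_mul, p1_algebraMap, map_mul]
        change p1 Γ I b * (x' * algebraMap Γ T s2) = _
        rw [← mul_assoc, hx1]
      · rw [map_mul, p2_algebraMap, map_mul]
        change p2 Γ I b * (algebraMap Γ T s1 * y') = _
        rw [← mul_assoc, ← Algebra.commutes s1, mul_assoc, hy1]
    · apply p_inj (Γ := Γ) I
      · rw [map_mul, p1_algebraMap, map_mul]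
        change (x' * algebraMap Γ T s2) * p1 Γ I b = _
        rw [mul_assoc, Algebra.commutes s2, ← mul_assoc, hx2]
      · rw [map_mul, p2_algebraMap, map_mul]
        change (algebraMap Γ T s1 * y') * p2 Γ I b = _
        rw [mul_assoc, hy2]
  b2 := by
    obtain ⟨N, hN⟩ := h.b2
    refine ⟨N + N, fun τ => ?_⟩
    obtain ⟨f1, hm1, hd1, he1⟩ := hN (τ.map (p1 Γ I))
    obtain ⟨f2, hm2, hd2, he2⟩ := hN (τ.map (p2 Γ I))
    refine ⟨f1 * f2, hm1.mul hm2, natDegree_mul_le.trans (Nat.add_le_add hd1 hd2), ?_⟩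
    have hcomp1 : (mapRingHom (p1 Γ I)).comp (mapRingHom (algebraMap Γ (Dbl Γ I)))
        = mapRingHom (algebraMap Γ T) := by
      rw [mapRingHom_comp]; rfl
    have hcomp2 : (mapRingHom (p2 Γ I)).comp (mapRingHom (algebraMap Γ (Dbl Γ I)))
        = mapRingHom (algebraMap Γ T) := by
      rw [mapRingHom_comp]; rfl
    set P := (f1 * f2).eval₂ (mapRingHom (algebraMap Γ (Dbl Γ I))) τ with hP
    have hP1 : P.map (p1 Γ I) = 0 := by
      rw [← coe_mapRingHom, hP, hom_eval₂, hcomp1, coe_mapRingHom, eval2_mul', he1, zero_mul]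
    have hP2 : P.map (p2 Γ I) = 0 := by
      rw [← coe_mapRingHom, hP, hom_eval₂, hcomp2, coe_mapRingHom, eval2_mul', he2, mul_zero]
    ext1 k
    apply p_inj (Γ := Γ) I
    · have := congrArg (fun Q : T[X] => Q.coeff k) hP1
      simpa [coeff_map] using this
    · have := congrArg (fun Q : T[X] => Q.coeff k) hP2
      simpa [coeff_map] using this

end Pool.Agent.H431R2.ZLem
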